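import Pool.Agent.Helper203.DS.Defs3
import Pool.Agent.Helper203.DS.CayL

open Metric Set Filter Topology

noncomputable section

namespace Pool.Agent.Helper203.DS

theorem age_iter {Φ : Pt → Pt} (hin : ∀ z : Pt, ‖(z:ℂ)‖ < 1 → ‖(Φ z : ℂ)‖ < 1) (j : ℕ) (u : Pt)
    (hu : ‖(u:ℂ)‖ < 1) : ‖(Φ^[j] u : ℂ)‖ < 1 := by
  induction j with
  | zero => simpa using hu
  | succ n ih =>
    rw [Function.iterate_succ_apply']
    exact hin _ ih

theorem age_ne (a : ℂ) (ha : ‖a‖ = 1) {z : ℂ} (hz : ‖z‖ < 1) : z ≠ a := by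
  rintro rfl
  rw [ha] at hz
  exact lt_irrefl _ hz

theorem age_add_one {w : ℂ} (hw : 0 < w.re) : w + 1 ≠ 0 := by
  intro h
  have := congrArg Complex.re h
  simp at this
  linarith

theorem age_diff {T : DA →L[ℂ] DA} {Φ : Pt → Pt} (h : IsComp T Φ) (a : ℂ) (ha : ‖a‖ = 1)
    (hin : ∀ z : Pt, ‖(z:ℂ)‖ < 1 → ‖(Φ z : ℂ)‖ < 1) (j : ℕ) (k : ℂ) (w : ℂ) (hw : 0 < w.re) :
    DifferentiableAt ℂ (fun w => Cay a (ext ((T ^ j) Z).1 (ic a w)) - w - k) w := by
  have hn := ic_norm a w ha hw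
  have hmem : ic a w ∈ closedBall (0:ℂ) 1 := by
    rw [mem_closedBall_zero_iff]; exact hn.le
  have d1 : DifferentiableAt ℂ (ic a) w := by
    unfold ic
    refine DifferentiableAt.div (by fun_prop) (by fun_prop) (age_add_one hw)
  have d2 : DifferentiableAt ℂ (ext ((T ^ j) Z).1) (ic a w) :=
    (differentiableOn_da ((T ^ j) Z)).differentiableAt
      (isOpen_ball.mem_nhds (mem_ball_zero_iff.2 hn))
  have e : ext ((T ^ j) Z).1 (ic a w) = (Φ^[j] ⟨ic a w, hmem⟩ : ℂ) := by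
    rw [ext_of_mem _ hmem, h.pow, Z_apply]
  have hne : a - ext ((T ^ j) Z).1 (ic a w) ≠ 0 := by
    rw [e]
    exact sub_ne_zero.2 (age_ne a ha (age_iter hin j ⟨ic a w, hmem⟩ hn)).symm
  have d3 : DifferentiableAt ℂ (Cay a) (ext ((T ^ j) Z).1 (ic a w)) := by
    unfold Cay
    exact DifferentiableAt.div (by fun_prop) (by fun_prop) hne
  have d5 : DifferentiableAt ℂ (fun w => ext ((T ^ j) Z).1 (ic a w)) w :=
    DifferentiableAt.comp w d2 d1
  have d4 : DifferentiableAt ℂ (fun w => Cay a (ext ((T ^ j) Z).1 (ic a w))) w :=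
    DifferentiableAt.comp (g := Cay a) w d3 d5
  exact (d4.sub differentiableAt_id).sub (differentiableAt_const k)

theorem age_lemma {T : DA →L[ℂ] DA} {Φ : Pt → Pt} (h : IsComp T Φ) (a : ℂ) (ha : ‖a‖ = 1)
    (hin : ∀ z : Pt, ‖(z:ℂ)‖ < 1 → ‖(Φ z : ℂ)‖ < 1) (b : ℂ) (hb : b.re = 0)
    (hlim : LimB a b Φ) (ε : ℝ) (hε : 0 < ε) :
    ∃ M : ℝ, ∀ s : ℂ, M ≤ s.re → 0 < s.re → ∀ j : ℕ, j * ε ≤ s.re →
      ∃ w : ℂ, 0 < w.re ∧ ∀ u : Pt, (u:ℂ) = ic a w → (Φ^[j] u : ℂ) = ic a s := by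
  obtain ⟨δ, hδ, hlim'⟩ := hlim (ε / 16) (by positivity)
  refine ⟨8 / δ, fun s hM hs j hj => ?_⟩
  set R : ℝ := s.re with hR
  have hstep : ∀ z : Pt, ‖(z:ℂ)‖ < 1 → 2 / δ ≤ (Cay a z).re → 0 < (Cay a z).re →
      ‖Cay a (Φ z) - Cay a z - b‖ < ε / 16 := by
    intro z hz h1 h0
    have hza := age_ne a ha hz
    have e := ic_cay a z ha hza
    have hne : Cay a z + 1 ≠ 0 := age_add_one h0
    have h2 := ic_sub a (Cay a z) ha hne
    rw [e] at h2
    refine (hlim' z hza ?_).2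
    rw [h2, div_lt_iff₀ (norm_pos_iff.2 hne)]
    have h3 : (Cay a z + 1).re ≤ ‖Cay a z + 1‖ := Complex.re_le_norm _
    rw [Complex.add_re, Complex.one_re] at h3
    have h4 : δ * (2 / δ + 1) ≤ δ * ‖Cay a z + 1‖ :=
      mul_le_mul_of_nonneg_left (by linarith) hδ.le
    have h5 : δ * (2 / δ + 1) = 2 + δ := by field_simp
    linarith
  set c : ℂ := s - j * b with hc
  have hre : ∀ w : ℂ, ‖w - c‖ ≤ R / 2 → R / 2 ≤ w.re := by
    intro w hw
    have h1 := (abs_le.1 ((Complex.abs_re_le_norm _).trans hw)).1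
    have h2 : (w - c).re = w.re - R := by
      simp [hc, hb, hR]
    linarith
  have hj0 : (0:ℝ) ≤ j := Nat.cast_nonneg j
  have hind : ∀ (z : Pt) (w : ℂ), ‖w - c‖ ≤ R / 2 → (z:ℂ) = ic a w → ∀ i : ℕ, i ≤ j →
      ‖Cay a (Φ^[i] z) - w - i * b‖ ≤ i * (ε / 16) := by
    intro z w hw hz i
    have hwre := hre w hw
    have hw0 : 0 < w.re := by linarith
    have hzn : ‖(z:ℂ)‖ < 1 := by rw [hz]; exact ic_norm a w ha hw0
    induction i with
    | zero =>
      intro _
      rw [Function.iterate_zero, id, hz, cay_ic a w ha (age_add_one hw0)]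
      simp
    | succ i ih =>
      intro hi
      have ih := ih (by omega)
      have h1 := (abs_le.1 ((Complex.abs_re_le_norm _).trans ih)).1
      have h2 : (Cay a (Φ^[i] z) - w - i * b).re = (Cay a (Φ^[i] z)).re - w.re := by
        simp [hb]
      rw [h2] at h1
      have hij : (i : ℝ) ≤ j := by exact_mod_cast (show i ≤ j by omega)
      have h3 : (i : ℝ) * (ε / 16) ≤ R / 16 := by
        have : (i : ℝ) * ε ≤ j * ε := mul_le_mul_of_nonneg_right hij hε.le
        linarith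
      have h4 : R / 4 ≤ (Cay a (Φ^[i] z)).re := by linarith
      have h5 : 2 / δ ≤ (Cay a (Φ^[i] z)).re := by
        have : 2 / δ = (8 / δ) / 4 := by ring
        linarith
      have h6 := hstep (Φ^[i] z) (age_iter hin i z hzn) h5 (by linarith)
      rw [Function.iterate_succ_apply']
      have e : Cay a (Φ (Φ^[i] z)) - w - ((i + 1 : ℕ) : ℂ) * b =
          (Cay a (Φ (Φ^[i] z)) - Cay a (Φ^[i] z) - b) + (Cay a (Φ^[i] z) - w - i * b) := by
        push_cast; ring
      rw [e]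
      refine (norm_add_le _ _).trans ?_
      push_cast
      linarith
  set η : ℂ → ℂ := fun w => Cay a (ext ((T ^ j) Z).1 (ic a w)) - w - j * b with hη
  have hval : ∀ (w : ℂ) (hw : 0 < w.re) (hmem : ic a w ∈ closedBall (0:ℂ) 1),
      ext ((T ^ j) Z).1 (ic a w) = (Φ^[j] ⟨ic a w, hmem⟩ : ℂ) := by
    intro w hw hmem
    rw [ext_of_mem _ hmem, h.pow, Z_apply]
  have hmemw : ∀ w : ℂ, 0 < w.re → ic a w ∈ closedBall (0:ℂ) 1 := by
    intro w hw
    rw [mem_closedBall_zero_iff]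
    exact (ic_norm a w ha hw).le
  have hηb : ∀ w : ℂ, ‖w - c‖ ≤ R / 2 → ‖η w‖ ≤ R / 16 := by
    intro w hw
    have hw0 : 0 < w.re := by linarith [hre w hw]
    have h1 := hind ⟨ic a w, hmemw w hw0⟩ w hw rfl j le_rfl
    simp only [hη]
    rw [hval w hw0 (hmemw w hw0)]
    refine h1.trans ?_
    linarith
  have hηd : ∀ w : ℂ, ‖w - c‖ ≤ R / 2 → DifferentiableAt ℂ η w := by
    intro w hw
    exact age_diff h a ha hin j (j * b) w (by linarith [hre w hw])
  have hderiv : ∀ w ∈ closedBall c (R / 16), ‖deriv η w‖ ≤ 1 / 4 := by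
    intro w hw
    rw [mem_closedBall_iff_norm] at hw
    have hsub : ∀ x ∈ closedBall w (R / 4), ‖x - c‖ ≤ R / 2 := by
      intro x hx
      rw [mem_closedBall_iff_norm] at hx
      have : x - c = (x - w) + (w - c) := by ring
      rw [this]
      refine (norm_add_le _ _).trans ?_
      linarith
    have hd : DiffContOnCl ℂ η (ball w (R / 4)) := by
      refine DifferentiableOn.diffContOnCl ?_
      rw [closure_ball w (by linarith : R / 4 ≠ 0)]
      intro x hx
      exact (hηd x (hsub x hx)).differentiableWithinAt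
    have h1 := Complex.norm_deriv_le_of_forall_mem_sphere_norm_le (by linarith : 0 < R / 4) hd
      (C := R / 16) (fun x hx => hηb x (hsub x (sphere_subset_closedBall hx)))
    refine h1.trans (le_of_eq ?_)
    have : R ≠ 0 := by linarith
    field_simp
    norm_num
  have hlip : ∀ x ∈ closedBall c (R / 16), ∀ y ∈ closedBall c (R / 16),
      ‖η y - η x‖ ≤ 1 / 4 * ‖y - x‖ := by
    intro x hx y hy
    refine Convex.norm_image_sub_le_of_norm_deriv_le (fun z hz => hηd z ?_) hderiv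
      (convex_closedBall c (R / 16)) hx hy
    rw [mem_closedBall_iff_norm] at hz
    linarith
  have hmap : MapsTo (fun w => c - η w) (closedBall c (R / 16)) (closedBall c (R / 16)) := by
    intro w hw
    rw [mem_closedBall_iff_norm] at hw ⊢
    have : c - η w - c = -η w := by ring
    rw [this, norm_neg]
    exact hηb w (by linarith)
  have hcon : ContractingWith (1 / 4) (hmap.restrict (fun w => c - η w) _ _) := by
    refine ⟨by rw [← NNReal.coe_lt_coe]; norm_num, ?_⟩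
    refine LipschitzWith.of_dist_le_mul ?_
    rintro ⟨x, hx⟩ ⟨y, hy⟩
    rw [Subtype.dist_eq, Subtype.dist_eq]
    show dist (c - η x) (c - η y) ≤ _ * dist x y
    rw [dist_eq_norm, dist_eq_norm]
    have e : c - η x - (c - η y) = η y - η x := by ring
    rw [e, norm_sub_rev x y]
    refine (hlip x hx y hy).trans (le_of_eq ?_)
    norm_num
  obtain ⟨w, hw, hfix, -⟩ := ContractingWith.exists_fixedPoint' (isCompact_closedBall
    c (R / 16)).isComplete hmap hcon (x := c) (by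
      rw [mem_closedBall_iff_norm, sub_self, norm_zero]; linarith) (edist_ne_top _ _)
  rw [mem_closedBall_iff_norm] at hw
  have hw2 : ‖w - c‖ ≤ R / 2 := by linarith
  have hw0 : 0 < w.re := by linarith [hre w hw2]
  refine ⟨w, hw0, fun u hu => ?_⟩
  have hfix' : c - η w = w := hfix
  have hu' : u = ⟨ic a w, hmemw w hw0⟩ := Subtype.ext hu
  have hun : ‖(u:ℂ)‖ < 1 := by rw [hu]; exact ic_norm a w ha hw0
  have h1 : Cay a (Φ^[j] u) = s := by
    simp only [hη] at hfix'
    rw [hval w hw0 (hmemw w hw0), ← hu'] at hfix'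
    simp only [hc] at hfix'
    linear_combination -hfix'
  have h2 := ic_cay a (Φ^[j] u) ha (age_ne a ha (age_iter hin j u hun))
  rw [h1] at h2
  exact h2.symm

end Pool.Agent.Helper203.DS
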