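import Pool.Agent.Helper203.DS.Defs2

open Metric Set Filter Topology

noncomputable section

namespace Pool.Agent.Helper203.DS

theorem interp_exp_geom (β : ℝ) (hβ : 1 < β) (N : ℕ) (r : ℕ → ℝ) (h0 : ∀ j ≤ N, 0 < r j)
    (h : ∀ j < N, β * r j ≤ r (j + 1)) :
    ∀ j ≤ N, ∑ k ∈ Finset.range (j + 1), r k ≤ β / (β - 1) * r j := by
  have hb : 0 < β - 1 := by linarith
  intro j
  induction j with
  | zero =>
    intro hj
    have h1 : 1 ≤ β / (β - 1) := by
      rw [le_div_iff₀ hb]; linarith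
    have h2 := h0 0 hj
    simp only [zero_add, Finset.range_one, Finset.sum_singleton]
    nlinarith
  | succ j ih =>
    intro hj
    have h1 := ih (by omega)
    have h2 := h j (by omega)
    rw [Finset.sum_range_succ]
    have h3 : β / (β - 1) * r j ≤ 1 / (β - 1) * r (j + 1) := by
      rw [div_mul_eq_mul_div, div_mul_eq_mul_div, one_mul]
      exact div_le_div_of_nonneg_right h2 hb.le
    have h4 : β / (β - 1) * r (j + 1) = 1 / (β - 1) * r (j + 1) + r (j + 1) := by
      field_simp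
      ring
    linarith

theorem interp_exp_term (a b : ℂ) (ha : 0 < a.re) (hb : 0 < b.re) :
    b.re * (1 / (a + (starRingEnd ℂ) b)).re ≤ b.re / a.re := by
  have hz : (a + (starRingEnd ℂ) b).re = a.re + b.re := by simp
  have h1 : (1 / (a + (starRingEnd ℂ) b)).re ≤ 1 / a.re := by
    rw [one_div, Complex.inv_re, hz]
    have h2 : (a.re + b.re) * (a.re + b.re) ≤ Complex.normSq (a + (starRingEnd ℂ) b) := by
      rw [Complex.normSq_apply, hz]
      nlinarith [mul_self_nonneg (a + (starRingEnd ℂ) b).im]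
    have h3 : 0 < a.re + b.re := by linarith
    have h4 : 0 < (a.re + b.re) * (a.re + b.re) := by positivity
    rw [div_le_div_iff₀ (lt_of_lt_of_le h4 h2) ha]
    nlinarith
  calc b.re * (1 / (a + (starRingEnd ℂ) b)).re ≤ b.re * (1 / a.re) :=
        mul_le_mul_of_nonneg_left h1 hb.le
    _ = b.re / a.re := by ring

theorem interp_exp (β : ℝ) (hβ : 1 < β) (N : ℕ) (x : ℕ → ℂ) (h0 : ∀ j ≤ N, 0 < (x j).re)
    (h : ∀ j < N, β * (x j).re ≤ (x (j + 1)).re) :
    ∀ j ≤ N, ∑ k ∈ Finset.range (j + 1),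
      (x k).re * (1 / (x j + (starRingEnd ℂ) (x k))).re ≤ β / (β - 1) := by
  intro j hj
  have hr := h0 j hj
  calc ∑ k ∈ Finset.range (j + 1), (x k).re * (1 / (x j + (starRingEnd ℂ) (x k))).re
      ≤ ∑ k ∈ Finset.range (j + 1), (x k).re / (x j).re := by
        refine Finset.sum_le_sum fun k hk => ?_
        have hk' := Finset.mem_range.1 hk
        exact interp_exp_term (x j) (x k) hr (h0 k (by omega))
    _ = (∑ k ∈ Finset.range (j + 1), (x k).re) / (x j).re := by rw [Finset.sum_div]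
    _ ≤ β / (β - 1) := by
        rw [div_le_iff₀ hr]
        exact interp_exp_geom β hβ N (fun k => (x k).re) h0 h j hj

theorem interp_sum (N : ℕ) (r : ℕ → ℝ) (hr : ∀ j, 0 ≤ r j) (κ : ℕ → ℂ)
    (h : ∀ j, r j * ‖κ j‖ ^ 2 ≤ (κ j).re) :
    ∑ j ∈ Finset.range (N + 1), (r j * ‖κ j‖) ^ 2 *
      Real.exp (-∑ k ∈ Finset.range (j + 1), r k * (κ k).re) ≤ 1 := by
  have key : ∀ n, ∑ j ∈ Finset.range n, (r j * ‖κ j‖) ^ 2 *
      Real.exp (-∑ k ∈ Finset.range (j + 1), r k * (κ k).re) ≤
      1 - Real.exp (-∑ k ∈ Finset.range n, r k * (κ k).re) := by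
    intro n
    induction n with
    | zero => simp
    | succ n ih =>
      rw [Finset.sum_range_succ]
      set T := ∑ k ∈ Finset.range n, r k * (κ k).re with hT
      have e1 : ∑ k ∈ Finset.range (n + 1), r k * (κ k).re = T + r n * (κ n).re := by
        rw [Finset.sum_range_succ]
      rw [e1]
      set b := r n * (κ n).re with hb
      have h1 : (r n * ‖κ n‖) ^ 2 ≤ b := by
        have := mul_le_mul_of_nonneg_left (h n) (hr n)
        rw [hb]
        nlinarith
      have e2 : Real.exp (-T) = Real.exp (-(T + b)) * Real.exp b := by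
        rw [← Real.exp_add]; congr 1; ring
      have h2 : b + 1 ≤ Real.exp b := Real.add_one_le_exp b
      have h3 := Real.exp_pos (-(T + b))
      have h4 : (r n * ‖κ n‖) ^ 2 * Real.exp (-(T + b)) ≤ b * Real.exp (-(T + b)) :=
        mul_le_mul_of_nonneg_right h1 h3.le
      have h5 : (b + 1) * Real.exp (-(T + b)) ≤ Real.exp b * Real.exp (-(T + b)) :=
        mul_le_mul_of_nonneg_right h2 h3.le
      nlinarith
  exact (key (N + 1)).trans (by linarith [Real.exp_pos (-∑ k ∈ Finset.range (N + 1), r k * (κ k).re)])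

end Pool.Agent.Helper203.DS
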