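import Pool.Agent.Helper203.DS.Defs3

open Metric Set Filter Topology

noncomputable section

namespace Pool.Agent.Helper203.DS

private theorem half_periodic_ext (b : ℂ) (hb : 0 < b.re) (p : ℂ → ℂ)
    (hp : DifferentiableOn ℂ p {w | 0 < (b * w).re})
    (hper : ∀ w, 0 < (b * w).re → p (w + 1) = p w) :
    ∃ P : ℂ → ℂ, Differentiable ℂ P ∧ (∀ w, P (w + 1) = P w) ∧
      ∀ w, 0 < (b * w).re → P w = p w := by
  have hre : ∀ (w : ℂ) (n : ℕ), (b * (w + n)).re = (b * w).re + n * b.re := by
    intro w n
    rw [mul_add, Complex.add_re]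
    simp [mul_comm]
  have hiter : ∀ (n : ℕ) (w : ℂ), 0 < (b * w).re → p (w + n) = p w := by
    intro n
    induction n with
    | zero => intro w _; simp
    | succ n ih =>
      intro w hw
      have h1 : 0 < (b * (w + n)).re := by rw [hre]; positivity
      rw [← ih w hw, ← hper _ h1]
      push_cast
      ring_nf
  let N : ℂ → ℕ := fun w => ⌊-(b * w).re / b.re⌋₊ + 1
  have hN : ∀ w, 0 < (b * (w + N w)).re := by
    intro w
    rw [hre]
    have h1 := Nat.lt_floor_add_one (-(b * w).re / b.re)
    rw [div_lt_iff₀ hb] at h1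
    have h2 : ((N w : ℕ) : ℝ) = (⌊-(b * w).re / b.re⌋₊ : ℝ) + 1 := by simp [N]
    rw [h2]
    linarith
  have hind : ∀ (w : ℂ) (m n : ℕ), 0 < (b * (w + m)).re → 0 < (b * (w + n)).re →
      p (w + m) = p (w + n) := by
    have aux : ∀ (w : ℂ) (m n : ℕ), m ≤ n → 0 < (b * (w + m)).re → p (w + n) = p (w + m) := by
      intro w m n hmn h1
      obtain ⟨k, rfl⟩ := Nat.exists_eq_add_of_le hmn
      rw [← hiter k (w + m) h1]
      push_cast
      ring_nf
    intro w m n h1 h2
    rcases le_total m n with h | h
    · exact (aux w m n h h1).symm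
    · exact aux w n m h h2
  refine ⟨fun w => p (w + N w), ?_, ?_, ?_⟩
  · intro w0
    have hopen : IsOpen {w : ℂ | 0 < (b * (w + N w0)).re} := by
      apply isOpen_lt continuous_const
      fun_prop
    have hopen2 : IsOpen {w : ℂ | 0 < (b * w).re} := by
      apply isOpen_lt continuous_const
      fun_prop
    have h1 : DifferentiableAt ℂ (fun w => p (w + N w0)) w0 := by
      have h2 : DifferentiableAt ℂ p (w0 + N w0) :=
        hp.differentiableAt (hopen2.mem_nhds (hN w0))
      exact DifferentiableAt.comp w0 (f := fun w : ℂ => w + N w0) h2 (by fun_prop)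
    apply h1.congr_of_eventuallyEq
    filter_upwards [hopen.mem_nhds (hN w0)] with w hw
    exact hind w _ _ (hN w) hw
  · intro w
    have h1 : w + 1 + N (w + 1) = w + ((1 + N (w + 1) : ℕ) : ℂ) := by push_cast; ring
    show p (w + 1 + N (w + 1)) = p (w + N w)
    have h2 := hN (w + 1)
    rw [h1] at h2 ⊢
    exact hind w _ _ h2 (hN w)
  · intro w hw
    exact hiter _ w hw

private theorem half_periodic_int (H : ℂ → ℂ) (hH : Differentiable ℂ H)
    (hper : ∀ w, H (w + 1) = H w) (w : ℂ) :
    ∫ t in (0 : ℝ)..1, H (w + t) = ∫ t in (0 : ℝ)..1, H t := by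
  have h1 : ∫ t in (0 : ℝ)..1, H (w + t) = ∫ t in (0 : ℝ)..1, H (t + w.im * Complex.I) := by
    have hp : Function.Periodic (fun t : ℝ => H (t + w.im * Complex.I)) 1 := by
      intro t
      show H (((t + 1 : ℝ) : ℂ) + w.im * Complex.I) = H (t + w.im * Complex.I)
      have e : (((t + 1 : ℝ) : ℂ) + w.im * Complex.I) = (t + w.im * Complex.I) + 1 := by
        push_cast; ring
      rw [e, hper]
    have h2 := hp.intervalIntegral_add_eq w.re 0
    rw [zero_add] at h2
    rw [← h2]
    have h3 := intervalIntegral.integral_comp_add_left (a := 0) (b := 1)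
      (fun t : ℝ => H (t + w.im * Complex.I)) w.re
    rw [add_zero] at h3
    rw [← h3]
    apply intervalIntegral.integral_congr
    intro t _
    show H (w + t) = H (((w.re + t : ℝ) : ℂ) + w.im * Complex.I)
    congr 1
    conv_lhs => rw [← Complex.re_add_im w]
    push_cast
    ring
  rw [h1]
  have h2 := Complex.integral_boundary_rect_eq_zero_of_differentiableOn H 0 (1 + w.im * Complex.I)
    (hH.differentiableOn)
  simp only [Complex.zero_re, Complex.add_re, Complex.one_re, Complex.mul_re, Complex.ofReal_re,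
    Complex.I_re, mul_zero, Complex.ofReal_im, Complex.I_im, mul_one, sub_self, add_zero,
    Complex.zero_im, Complex.add_im, Complex.one_im, Complex.mul_im, zero_add,
    Complex.ofReal_zero, zero_mul, Complex.ofReal_one] at h2
  have h3 : (fun y : ℝ => H (1 + y * Complex.I)) = fun y : ℝ => H (y * Complex.I) := by
    funext y
    rw [add_comm, hper]
  simp only [h3] at h2
  rw [add_sub_cancel_right, sub_eq_zero] at h2
  exact h2.symm

private theorem half_periodic_fourier (P : ℂ → ℂ) (hP : Differentiable ℂ P)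
    (hper : ∀ w, P (w + 1) = P w)
    (h0 : ∀ k : ℤ, ∫ t in (0 : ℝ)..1, Complex.exp (2 * Real.pi * Complex.I * k * t) * P t = 0) :
    ∀ w, P w = 0 := by
  have hp : Function.Periodic (fun t : ℝ => P t) 1 := by
    intro t
    show P ((t + 1 : ℝ) : ℂ) = P t
    rw [Complex.ofReal_add, Complex.ofReal_one, hper]
  have : Fact (0 < (1 : ℝ)) := ⟨one_pos⟩
  let f : C(AddCircle (1 : ℝ), ℂ) := ⟨hp.lift, by
    apply continuous_coinduced_dom.mpr
    exact hP.continuous.comp Complex.continuous_ofReal⟩
  have hf : ∀ k, fourierCoeff f k = 0 := by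
    intro k
    rw [fourierCoeff_eq_intervalIntegral f k 0]
    have : ∫ x in (0 : ℝ)..0 + 1, @fourier (1 : ℝ) (-k) x • f x =
        ∫ t in (0 : ℝ)..1, Complex.exp (2 * Real.pi * Complex.I * (-k : ℤ) * t) * P t := by
      rw [zero_add]
      apply intervalIntegral.integral_congr
      intro t _
      simp only [fourier_coe_apply, smul_eq_mul]
      congr 1
      congr 1
      simp
    rw [this, h0]
    simp
  have hz : f = 0 := by
    have h1 : Summable (fourierCoeff f) := by
      have : fourierCoeff (f : AddCircle (1 : ℝ) → ℂ) = fun _ => 0 := funext hf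
      rw [this]
      exact summable_zero
    have h2 := hasSum_fourier_series_of_summable h1
    simp only [hf, zero_smul] at h2
    exact h2.unique hasSum_zero
  have hreal : ∀ t : ℝ, P t = 0 := by
    intro t
    have : f (t : AddCircle (1 : ℝ)) = 0 := by rw [hz]; rfl
    exact this
  have han : AnalyticOnNhd ℂ P univ := fun z _ => hP.analyticAt z
  have hfr : ∃ᶠ z in 𝓝[≠] (0 : ℂ), P z = 0 := by
    rw [frequently_nhdsWithin_iff, Metric.nhds_basis_ball.frequently_iff]
    intro ε hε
    refine ⟨((ε / 2 : ℝ) : ℂ), ?_, hreal _, ?_⟩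
    · rw [mem_ball_zero_iff, Complex.norm_real, Real.norm_of_nonneg (by linarith)]
      linarith
    · simp only [mem_compl_iff, mem_singleton_iff, Complex.ofReal_eq_zero]
      exact (by linarith : (0 : ℝ) < ε / 2).ne'
  have := han.eqOn_zero_of_preconnected_of_frequently_eq_zero isPreconnected_univ (mem_univ 0) hfr
  intro w
  exact this (mem_univ w)

theorem half_periodic (b l : ℂ) (hb : 0 < b.re) (hl : l ≠ 0) (g : ℂ → ℂ)
    (hg : DifferentiableOn ℂ g {z | 0 < z.re}) (K : ℝ) (hK : ∀ z : ℂ, 0 < z.re → ‖g z‖ ≤ K)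
    (hper : ∀ z : ℂ, 0 < z.re → g (z + b) = l * g z) (hne : ∃ z : ℂ, 0 < z.re ∧ g z ≠ 0) :
    ∃ c : ℝ, 0 ≤ c ∧ l = Complex.exp (-(c * b)) := by
  have hb0 : b ≠ 0 := by
    rintro rfl
    simp at hb
  set w1 : ℂ := - Complex.log l with hw1
  have hw1l : Complex.exp (-w1) = l := by rw [hw1, neg_neg, Complex.exp_log hl]
  have hw1l' : Complex.exp w1 * l = 1 := by
    rw [← hw1l, ← Complex.exp_add, add_neg_cancel, Complex.exp_zero]
  obtain ⟨P, hPd, hPp, hPe⟩ := half_periodic_ext b hb (fun w => g (b * w) * Complex.exp (w1 * w))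
    (by
      apply DifferentiableOn.mul
      · exact hg.comp (by fun_prop) (fun w hw => hw)
      · fun_prop)
    (by
      intro w hw
      have h1 : b * (w + 1) = b * w + b := by ring
      rw [h1, hper _ hw, mul_add, mul_one, Complex.exp_add]
      linear_combination g (b * w) * Complex.exp (w1 * w) * hw1l')
  obtain ⟨z0, hz0, hgz0⟩ := hne
  have hPne : P (z0 / b) ≠ 0 := by
    have h1 : b * (z0 / b) = z0 := by field_simp
    rw [hPe _ (by rw [h1]; exact hz0), h1]
    exact mul_ne_zero hgz0 (Complex.exp_ne_zero _)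
  obtain ⟨k, hk⟩ : ∃ k : ℤ,
      ∫ t in (0 : ℝ)..1, Complex.exp (2 * Real.pi * Complex.I * k * t) * P t ≠ 0 := by
    by_contra hcon
    push Not at hcon
    exact hPne (half_periodic_fourier P hPd hPp hcon _)
  set H : ℂ → ℂ := fun w => Complex.exp (2 * Real.pi * Complex.I * k * w) * P w with hH
  have hHd : Differentiable ℂ H := by
    apply Differentiable.mul
    · fun_prop
    · exact hPd
  have hHp : ∀ w, H (w + 1) = H w := by
    intro w
    simp only [hH]
    rw [hPp, mul_add, mul_one, Complex.exp_add]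
    have : Complex.exp (2 * Real.pi * Complex.I * k) = 1 := by
      rw [show (2 * Real.pi * Complex.I * k : ℂ) = k * (2 * Real.pi * Complex.I) by ring]
      exact Complex.exp_int_mul_two_pi_mul_I k
    rw [this, mul_one]
  set ws : ℂ := w1 + 2 * Real.pi * Complex.I * k with hws
  have hbound : ∀ w : ℂ, 0 < (b * w).re →
      ‖∫ t in (0 : ℝ)..1, H t‖ ≤ K * Real.exp ((ws * w).re + ‖ws‖) := by
    intro w hw
    rw [← half_periodic_int H hHd hHp w]
    have h1 := intervalIntegral.norm_integral_le_of_norm_le_const (a := 0) (b := 1)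
      (f := fun t : ℝ => H (w + t)) (C := K * Real.exp ((ws * w).re + ‖ws‖)) (by
        intro t ht
        rw [uIoc_of_le zero_le_one] at ht
        have hre : 0 < (b * (w + t)).re := by
          rw [mul_add, Complex.add_re, Complex.re_mul_ofReal]
          have : 0 < b.re * t := mul_pos hb ht.1
          linarith
        have hK0 : 0 ≤ K := (norm_nonneg _).trans (hK _ hre)
        simp only [hH]
        rw [hPe _ hre, mul_left_comm, ← Complex.exp_add, norm_mul, Complex.norm_exp]
        apply mul_le_mul (hK _ hre) _ (Real.exp_pos _).le hK0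
        apply Real.exp_le_exp.mpr
        have h2 : 2 * Real.pi * Complex.I * k * (w + t) + w1 * (w + t) = ws * w + ws * t := by
          rw [hws]; ring
        rw [h2, Complex.add_re]
        have h3 : (ws * t).re ≤ ‖ws‖ := by
          refine (Complex.re_le_norm _).trans ?_
          rw [norm_mul, Complex.norm_real, Real.norm_of_nonneg ht.1.le]
          exact mul_le_of_le_one_right (norm_nonneg _) ht.2
        linarith)
    simpa using h1
  set A := ‖∫ t in (0 : ℝ)..1, H t‖ with hA
  have hA0 : 0 < A := norm_pos_iff.mpr hk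
  have hK0 : 0 < K := by
    by_contra hcon
    push Not at hcon
    have := hbound (1 / b) (by rw [mul_one_div_cancel hb0]; simp)
    have h2 : K * Real.exp ((ws * (1 / b)).re + ‖ws‖) ≤ 0 :=
      mul_nonpos_of_nonpos_of_nonneg hcon (Real.exp_pos _).le
    linarith
  set q : ℂ := ws / b with hq
  have hlow : ∀ u : ℂ, 0 < u.re → Real.log (A / K) - ‖ws‖ ≤ (q * u).re := by
    intro u hu
    have h1 := hbound (u / b) (by rw [mul_div_cancel₀ _ hb0]; exact hu)
    have h2 : ws * (u / b) = q * u := by rw [hq]; ring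
    rw [h2] at h1
    have h3 : A / K ≤ Real.exp ((q * u).re + ‖ws‖) := by
      rw [div_le_iff₀ hK0, mul_comm]; exact h1
    have h4 := (Real.log_le_iff_le_exp (by positivity)).mpr h3
    linarith
  have hnn : ∀ u : ℂ, 0 < u.re → 0 ≤ (q * u).re := by
    intro u hu
    by_contra hcon
    push Not at hcon
    set C := Real.log (A / K) - ‖ws‖ with hC
    -- choose a large multiple
    set τ : ℝ := (|C| + 1) / (-(q * u).re) with hτ
    have hτ0 : 0 < τ := div_pos (by positivity) (by linarith)
    have h1 := hlow (τ * u) (by rw [Complex.re_ofReal_mul]; positivity)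
    have h2 : (q * (τ * u)).re = τ * (q * u).re := by
      rw [mul_left_comm, Complex.re_ofReal_mul]
    rw [h2] at h1
    have h3 : τ * (q * u).re = -(|C| + 1) := by
      rw [hτ]
      have : (q * u).re ≠ 0 := hcon.ne
      field_simp
    rw [h3] at h1
    have := neg_abs_le C
    linarith
  have hqs : ∀ s : ℝ, 0 ≤ q.re - s * q.im := by
    intro s
    have := hnn (1 + s * Complex.I) (by simp)
    have e : (q * (1 + s * Complex.I)).re = q.re - s * q.im := by
      simp; ring
    rwa [e] at this
  have hq0 : 0 ≤ q.re := by simpa using hqs 0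
  have hqi : q.im = 0 := by
    by_contra hcon
    have h1 := hqs ((q.re + 1) / q.im)
    rw [div_mul_cancel₀ _ hcon] at h1
    linarith
  refine ⟨q.re, hq0, ?_⟩
  have h1 : (q.re : ℂ) = q := by
    apply Complex.ext <;> simp [hqi]
  rw [h1, hq, div_mul_cancel₀ _ hb0, hws, neg_add, Complex.exp_add, hw1l]
  have : Complex.exp (-(2 * Real.pi * Complex.I * k)) = 1 := by
    rw [Complex.exp_neg, show (2 * Real.pi * Complex.I * k : ℂ) = k * (2 * Real.pi * Complex.I)
      by ring, Complex.exp_int_mul_two_pi_mul_I, inv_one]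
  rw [this, mul_one]

end Pool.Agent.Helper203.DS
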