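import Pool.Agent.Helper203.DS.Defs3
import Pool.Agent.Helper203.DS.CayL

open Metric Set Filter Topology

noncomputable section

namespace Pool.Agent.Helper203.DS

theorem ll_FF_diff (a : ℂ) (ha : ‖a‖ = 1) (f : DA) :
    DifferentiableOn ℂ (fun w => ext f.1 (ic a w)) {w : ℂ | 0 < w.re} := by
  have h1 : DifferentiableOn ℂ (ic a) {w : ℂ | 0 < w.re} := by
    unfold ic
    apply DifferentiableOn.div
    · fun_prop
    · fun_prop
    · intro w hw h0
      have h2 : (w + 1).re = 0 := by rw [h0]; simp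
      simp at h2
      have hw' : 0 < w.re := hw
      linarith
  exact (differentiableOn_da f).comp h1 (fun w hw => by
    rw [mem_ball_zero_iff]; exact ic_norm a w ha hw)

theorem ll_GG_add {k : ℕ} (hk : 1 ≤ k) {X u : ℂ} (hX : X ∈ GG k) (hu : |u.im| ≤ k * u.re) :
    X + u ∈ GG k := by
  obtain ⟨h1, h2⟩ := hX
  have hk0 : (0:ℝ) < k := by exact_mod_cast hk
  have hu0 : 0 ≤ u.re := by
    by_contra hc
    push Not at hc
    have := abs_nonneg u.im
    nlinarith
  refine ⟨by rw [Complex.add_re]; linarith, ?_⟩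
  have h3 : |X.im| ≤ |(X + u).im| + |u.im| := by
    have h4 : X.im = (X + u).im + (-u.im) := by rw [Complex.add_im]; ring
    calc |X.im| = |(X + u).im + (-u.im)| := by rw [← h4]
      _ ≤ |(X + u).im| + |-u.im| := abs_add_le _ _
      _ = _ := by rw [abs_neg]
  have h5 : |u.im| / k ≤ u.re := by
    rw [div_le_iff₀ hk0]; linarith
  have h6 : |X.im| / k ≤ (|(X + u).im| + |u.im|) / k := by gcongr
  rw [add_div] at h6
  have h7 : (X + u).re = X.re + u.re := Complex.add_re _ _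
  rw [h7]
  linarith

theorem ll_GG_norm {k : ℕ} (hk : 1 ≤ k) {w : ℂ} (hw : w ∈ GG k) : (k:ℝ) / 2 < ‖w + 1‖ := by
  obtain ⟨h1, h2⟩ := hw
  have hk1 : (1:ℝ) ≤ k := by exact_mod_cast hk
  have h3 : |w.im| ≤ ‖w + 1‖ := by
    have := Complex.abs_im_le_norm (w + 1)
    simpa using this
  have h4 : w.re ≤ ‖w + 1‖ := by
    have := Complex.re_le_norm (w + 1)
    simp only [Complex.add_re, Complex.one_re] at this
    linarith
  have h5 : |w.im| / k ≤ |w.im| := div_le_self (abs_nonneg _) hk1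
  linarith

theorem ll_key {T : DA →L[ℂ] DA} {Φ : Pt → Pt} (h : IsComp T Φ) (a : ℂ) (ha : ‖a‖ = 1)
    (b : ℂ) (l : ℂ) (f : DA) {δ ε : ℝ}
    (hδ : ∀ z : Pt, (z:ℂ) ≠ a → ‖(z:ℂ) - a‖ < δ →
      (Φ z : ℂ) ≠ a ∧ ‖Cay a (Φ z) - Cay a z - b‖ < ε)
    {k : ℕ} (hk : 1 ≤ k) (hkδ : 4 / (k:ℝ) < δ) {w : ℂ} (hw : w ∈ GG k)
    (h2 : ‖ext (T f - l • f).1 (ic a w)‖ ≤ 1 / k) :
    ∃ e : ℂ, ‖e‖ < ε ∧ ‖ext f.1 (ic a (w + b + e)) - l * ext f.1 (ic a w)‖ ≤ 1 / k := by
  have hw0 : 0 < w.re := hw.1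
  have hk0 : (0:ℝ) < k := by exact_mod_cast hk
  have h5 := ll_GG_norm hk hw
  have hwn : 0 < ‖w + 1‖ := by linarith [half_pos hk0]
  have hw1 : w + 1 ≠ 0 := norm_pos_iff.1 hwn
  have hn : ‖ic a w‖ < 1 := ic_norm a w ha hw0
  have hz : ic a w ∈ Metric.closedBall (0:ℂ) 1 := by
    rw [mem_closedBall_zero_iff]; exact hn.le
  have hs := ic_sub a w ha hw1
  have hne : ic a w ≠ a := by
    intro h0
    rw [h0, sub_self, norm_zero] at hs
    have : 0 < 2 / ‖w + 1‖ := by positivity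
    linarith
  have hlt : ‖ic a w - a‖ < δ := by
    rw [hs]
    refine lt_of_le_of_lt ?_ hkδ
    rw [div_le_div_iff₀ hwn hk0]
    linarith
  obtain ⟨p1, p2⟩ := hδ ⟨ic a w, hz⟩ hne hlt
  refine ⟨Cay a (Φ ⟨ic a w, hz⟩) - Cay a (ic a w) - b, p2, ?_⟩
  have e1 : w + b + (Cay a (Φ ⟨ic a w, hz⟩) - Cay a (ic a w) - b) =
      Cay a (Φ ⟨ic a w, hz⟩) := by
    rw [cay_ic a w ha hw1]; ring
  rw [e1, ic_cay a _ ha p1, ext_apply]
  rw [ext_of_mem _ hz] at h2 ⊢
  rw [sub_apply, smul_apply, h.eq] at h2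
  exact h2

theorem ll_lip {F : ℂ → ℂ} {c : ℂ} {r : ℝ} (hr : 0 < r) (hd : DifferentiableOn ℂ F (ball c r))
    (hb : ∀ w ∈ ball c r, ‖F w‖ ≤ 1) {w : ℂ} (hw : w ∈ ball c r) :
    dist (F w) (F c) ≤ 3 / r * dist w c := by
  refine Complex.dist_le_div_mul_dist_of_mapsTo_ball hd ?_ hw
  intro z hz
  rw [mem_closedBall, dist_eq_norm]
  have h1 := norm_sub_le (F z) (F c)
  have h2 := hb z hz
  have h3 := hb c (mem_ball_self hr)
  linarith

theorem ll_tendsto {T : DA →L[ℂ] DA} {Φ : Pt → Pt} (h : IsComp T Φ) (a : ℂ) (ha : ‖a‖ = 1)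
    (b : ℂ) (hb : 0 < b.re) (hlim : LimB a b Φ) (l : ℂ) (f : ℕ → DA) (X : ℕ → ℂ)
    (hX : ∀ k : ℕ, 1 ≤ k → X k ∈ GG k)
    (h1 : ∀ k : ℕ, 1 ≤ k → ∀ w ∈ GG k, ‖ext (f k).1 (ic a w)‖ ≤ 1)
    (h2 : ∀ k : ℕ, 1 ≤ k → ∀ w ∈ GG k, ‖ext (T (f k) - l • f k).1 (ic a w)‖ ≤ 1 / k)
    (u : ℂ) (hu0 : 0 ≤ u.re) (hu : ∀ᶠ k : ℕ in atTop, |u.im| ≤ k * u.re) :
    Tendsto (fun k => ext (f k).1 (ic a (X k + (u + b))) - l * ext (f k).1 (ic a (X k + u)))
      atTop (𝓝 0) := by
  rw [Metric.tendsto_nhds]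
  intro η hη
  obtain ⟨ρ, hρ⟩ : ∃ ρ : ℝ, ρ = b.re / 2 := ⟨_, rfl⟩
  have hρ0 : 0 < ρ := by rw [hρ]; linarith
  obtain ⟨ε, hε⟩ : ∃ ε : ℝ, ε = min ρ (η * ρ / 6) := ⟨_, rfl⟩
  have hε0 : 0 < ε := by rw [hε]; positivity
  have hε1 : ε ≤ ρ := by rw [hε]; exact min_le_left _ _
  have hε2 : ε ≤ η * ρ / 6 := by rw [hε]; exact min_le_right _ _
  obtain ⟨δ, hδ0, hδ⟩ := hlim ε hε0
  have hk4 : ∀ᶠ k : ℕ in atTop, 4 / (k:ℝ) < δ :=
    (tendsto_const_div_atTop_nhds_zero_nat 4).eventually_lt_const hδ0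
  have hk1 : ∀ᶠ k : ℕ in atTop, 1 / (k:ℝ) < η / 2 :=
    (tendsto_const_div_atTop_nhds_zero_nat 1).eventually_lt_const (half_pos hη)
  have hkρ : ∀ᶠ k : ℕ in atTop, |u.im| + |b.im| + ρ ≤ k * ρ := by
    have : Tendsto (fun k : ℕ => (k:ℝ) * ρ) atTop atTop :=
      tendsto_natCast_atTop_atTop.atTop_mul_const hρ0
    exact this.eventually_ge_atTop _
  filter_upwards [hk4, hk1, hkρ, hu, Filter.eventually_ge_atTop 1] with k g1 g2 g3 g4 g5
  rw [dist_zero_right]
  have hw : X k + u ∈ GG k := ll_GG_add g5 (hX k g5) g4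
  obtain ⟨e, he1, he2⟩ := ll_key h a ha b l (f k) hδ g5 g1 hw (h2 k g5 _ hw)
  have hball : ∀ w ∈ ball (X k + (u + b)) ρ, w ∈ GG k := by
    intro w hw
    rw [mem_ball, dist_eq_norm] at hw
    obtain ⟨v, hv⟩ : ∃ v : ℂ, v = w - (X k + (u + b)) := ⟨_, rfl⟩
    rw [← hv] at hw
    have e1 : w = X k + (u + b + v) := by rw [hv]; ring
    rw [e1]
    apply ll_GG_add g5 (hX k g5)
    have hvr : -ρ < v.re := by
      have := (abs_le.1 (Complex.abs_re_le_norm v)).1
      linarith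
    have hvi : |v.im| < ρ := lt_of_le_of_lt (Complex.abs_im_le_norm v) hw
    have e2 : (u + b + v).im = u.im + b.im + v.im := by simp
    have e3 : (u + b + v).re = u.re + b.re + v.re := by simp
    rw [e2, e3]
    have t1 : |u.im + b.im + v.im| ≤ |u.im| + |b.im| + |v.im| := abs_add_three _ _ _
    have hk0 : (0:ℝ) ≤ k := Nat.cast_nonneg k
    have t2 : (k:ℝ) * ρ ≤ k * (u.re + b.re + v.re) := by
      apply mul_le_mul_of_nonneg_left _ hk0
      linarith
    linarith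
  have hd : DifferentiableOn ℂ (fun w => ext (f k).1 (ic a w)) (ball (X k + (u + b)) ρ) :=
    (ll_FF_diff a ha (f k)).mono (fun w hw => (hball w hw).1)
  have hbd : ∀ w ∈ ball (X k + (u + b)) ρ, ‖ext (f k).1 (ic a w)‖ ≤ 1 :=
    fun w hw => h1 k g5 w (hball w hw)
  have hin : X k + u + b + e ∈ ball (X k + (u + b)) ρ := by
    rw [mem_ball, dist_eq_norm]
    have : X k + u + b + e - (X k + (u + b)) = e := by ring
    rw [this]
    linarith
  have hL := ll_lip hρ0 hd hbd hin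
  have hdist : dist (X k + u + b + e) (X k + (u + b)) = ‖e‖ := by
    rw [dist_eq_norm]
    congr 1
    ring
  rw [hdist, dist_comm, dist_eq_norm] at hL
  have hsmall : 3 / ρ * ‖e‖ ≤ η / 2 := by
    have : 3 / ρ * ‖e‖ ≤ 3 / ρ * (η * ρ / 6) := by
      apply mul_le_mul_of_nonneg_left _ (by positivity)
      linarith
    refine this.trans (le_of_eq ?_)
    field_simp
    norm_num
  have htri : ext (f k).1 (ic a (X k + (u + b))) - l * ext (f k).1 (ic a (X k + u)) =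
      (ext (f k).1 (ic a (X k + (u + b))) - ext (f k).1 (ic a (X k + u + b + e))) +
      (ext (f k).1 (ic a (X k + u + b + e)) - l * ext (f k).1 (ic a (X k + u))) := by ring
  rw [htri]
  refine lt_of_le_of_lt (norm_add_le _ _) ?_
  have hL' : ‖ext (f k).1 (ic a (X k + (u + b))) - ext (f k).1 (ic a (X k + u + b + e))‖ ≤
      3 / ρ * ‖e‖ := hL
  linarith

theorem ll_loc_unif (U : Filter ℕ) [U.NeBot] (G : ℕ → ℂ → ℂ) (g : ℂ → ℂ) (Ω : Set ℂ)
    (hloc : ∀ z ∈ Ω, ∃ r > 0, ball z r ⊆ Ω ∧ ∀ᶠ k in U, DifferentiableOn ℂ (G k) (ball z r) ∧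
      ∀ w ∈ ball z r, ‖G k w‖ ≤ 1)
    (hpt : ∀ z ∈ Ω, Tendsto (fun k => G k z) U (𝓝 (g z))) :
    TendstoLocallyUniformlyOn G g U Ω := by
  rw [Metric.tendstoLocallyUniformlyOn_iff]
  intro ε hε x hx
  obtain ⟨r, hr, hsub, hev⟩ := hloc x hx
  obtain ⟨η, hη⟩ : ∃ η : ℝ, η = min r (ε * r / 9) := ⟨_, rfl⟩
  have hη0 : 0 < η := by rw [hη]; positivity
  have hη1 : η ≤ r := by rw [hη]; exact min_le_left _ _
  have hη2 : η ≤ ε * r / 9 := by rw [hη]; exact min_le_right _ _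
  have hLip : ∀ y ∈ ball x η, ∀ᶠ k in U, dist (G k y) (G k x) ≤ ε / 3 := by
    intro y hy
    filter_upwards [hev] with k hk
    have hy' : y ∈ ball x r := ball_subset_ball hη1 hy
    have h1 := ll_lip hr hk.1 hk.2 hy'
    refine h1.trans ?_
    have h2 : dist y x < η := hy
    calc 3 / r * dist y x ≤ 3 / r * (ε * r / 9) := by
          apply mul_le_mul_of_nonneg_left _ (by positivity)
          linarith
      _ = ε / 3 := by
          field_simp
          norm_num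
  have hg : ∀ y ∈ ball x η, dist (g y) (g x) ≤ ε / 3 := by
    intro y hy
    have hy' : y ∈ Ω := hsub (ball_subset_ball hη1 hy)
    exact le_of_tendsto ((hpt y hy').dist (hpt x hx)) (hLip y hy)
  refine ⟨ball x η, mem_nhdsWithin_of_mem_nhds (ball_mem_nhds x hη0), ?_⟩
  have hx3 : ∀ᶠ k in U, dist (G k x) (g x) < ε / 3 :=
    (Metric.tendsto_nhds.1 (hpt x hx)) (ε / 3) (by positivity)
  filter_upwards [hev, hx3] with k hk hk3 y hy
  have hy' : y ∈ ball x r := ball_subset_ball hη1 hy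
  have h1 := ll_lip hr hk.1 hk.2 hy'
  have h2 : dist y x < η := hy
  have h3 : dist (G k y) (G k x) ≤ ε / 3 := by
    refine h1.trans ?_
    calc 3 / r * dist y x ≤ 3 / r * (ε * r / 9) := by
          apply mul_le_mul_of_nonneg_left _ (by positivity)
          linarith
      _ = ε / 3 := by
          field_simp
          norm_num
  have h4 := hg y hy
  have h5 : dist (g y) (G k y) ≤ dist (g y) (g x) + dist (g x) (G k x) + dist (G k x) (G k y) :=
    dist_triangle4 _ _ _ _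
  rw [dist_comm (g x) (G k x), dist_comm (G k x) (G k y)] at h5
  linarith

theorem local_limit {T : DA →L[ℂ] DA} {Φ : Pt → Pt} (h : IsComp T Φ) (a : ℂ) (ha : ‖a‖ = 1)
    (b : ℂ) (hb : 0 < b.re) (hlim : LimB a b Φ) (l : ℂ) (hl : l ≠ 0) (f : ℕ → DA) (X : ℕ → ℂ)
    (hX : ∀ k : ℕ, 1 ≤ k → X k ∈ GG k)
    (h1 : ∀ k : ℕ, 1 ≤ k → ∀ w ∈ GG k, ‖ext (f k).1 (ic a w)‖ ≤ 1)
    (h2 : ∀ k : ℕ, 1 ≤ k → ∀ w ∈ GG k, ‖ext (T (f k) - l • f k).1 (ic a w)‖ ≤ 1 / k)
    (h3 : ∀ k : ℕ, 1 ≤ k → 1 / 2 ≤ ‖ext (f k).1 (ic a (X k))‖) :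
    ∃ g : ℂ → ℂ, DifferentiableOn ℂ g {z | 0 < z.re} ∧ (∀ z : ℂ, 0 < z.re → ‖g z‖ ≤ 1) ∧
      (∀ z : ℂ, 0 < z.re → g (z + b) = l * g z) ∧ g b ≠ 0 := by
  have hU : ((hyperfilter ℕ : Ultrafilter ℕ) : Filter ℕ) ≤ atTop := Nat.hyperfilter_le_atTop
  have hev : ∀ u : ℂ, 0 < u.re → ∀ᶠ k : ℕ in atTop, |u.im| ≤ k * u.re := by
    intro u hu
    have : Tendsto (fun k : ℕ => (k:ℝ) * u.re) atTop atTop :=
      tendsto_natCast_atTop_atTop.atTop_mul_const hu
    exact this.eventually_ge_atTop _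
  have hbd : ∀ u : ℂ, 0 < u.re →
      ∀ᶠ k : ℕ in atTop, ‖ext (f k).1 (ic a (X k + u))‖ ≤ 1 := by
    intro u hu
    filter_upwards [hev u hu, Filter.eventually_ge_atTop 1] with k hk hk1
    exact h1 k hk1 _ (ll_GG_add hk1 (hX k hk1) hk)
  have hex : ∀ u : ℂ, ∃ c : ℂ, 0 < u.re → ‖c‖ ≤ 1 ∧
      Tendsto (fun k => ext (f k).1 (ic a (X k + u))) (hyperfilter ℕ : Ultrafilter ℕ) (𝓝 c) := by
    intro u
    by_cases hu : 0 < u.re
    · have hmem : ((hyperfilter ℕ).map (fun k => ext (f k).1 (ic a (X k + u))) :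
          Ultrafilter ℂ) ≤ 𝓟 (closedBall (0:ℂ) 1) := by
        rw [le_principal_iff]
        show (fun k => ext (f k).1 (ic a (X k + u))) ⁻¹' (closedBall (0:ℂ) 1) ∈
          ((hyperfilter ℕ : Ultrafilter ℕ) : Filter ℕ)
        apply hU
        filter_upwards [hbd u hu] with k hk
        rw [mem_preimage, mem_closedBall_zero_iff]
        exact hk
      obtain ⟨c, hc1, hc2⟩ := (isCompact_closedBall (0:ℂ) 1).ultrafilter_le_nhds _ hmem
      refine ⟨c, fun _ => ⟨?_, hc2⟩⟩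
      rwa [mem_closedBall_zero_iff] at hc1
    · exact ⟨0, fun h => absurd h hu⟩
  choose g hg using hex
  have hlu : TendstoLocallyUniformlyOn (fun k u => ext (f k).1 (ic a (X k + u))) g
      ((hyperfilter ℕ : Ultrafilter ℕ) : Filter ℕ) {z : ℂ | 0 < z.re} := by
    apply ll_loc_unif
    · intro z hz
      have hz' : 0 < z.re := hz
      refine ⟨z.re / 2, by positivity, ?_, ?_⟩
      · intro w hw
        rw [mem_ball, dist_eq_norm] at hw
        have := (abs_le.1 (Complex.abs_re_le_norm (w - z))).1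
        rw [Complex.sub_re] at this
        show 0 < w.re
        linarith
      · have hbig : ∀ᶠ k : ℕ in atTop, |z.im| + z.re / 2 ≤ k * (z.re / 2) := by
          have : Tendsto (fun k : ℕ => (k:ℝ) * (z.re / 2)) atTop atTop :=
            tendsto_natCast_atTop_atTop.atTop_mul_const (by positivity)
          exact this.eventually_ge_atTop _
        apply hU
        filter_upwards [hbig, Filter.eventually_ge_atTop 1] with k hk hk1
        have hmem : ∀ w ∈ ball z (z.re / 2), X k + w ∈ GG k := by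
          intro w hw
          rw [mem_ball, dist_eq_norm] at hw
          apply ll_GG_add hk1 (hX k hk1)
          have t1 := (abs_le.1 (Complex.abs_re_le_norm (w - z))).1
          rw [Complex.sub_re] at t1
          have t2 := Complex.abs_im_le_norm (w - z)
          rw [Complex.sub_im] at t2
          have t3 : |w.im| ≤ |w.im - z.im| + |z.im| := by
            have := abs_add_le (w.im - z.im) z.im
            rwa [sub_add_cancel] at this
          have t4 : (k:ℝ) * (z.re / 2) ≤ k * w.re := by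
            apply mul_le_mul_of_nonneg_left _ (Nat.cast_nonneg k)
            linarith
          linarith
        refine ⟨?_, fun w hw => h1 k hk1 _ (hmem w hw)⟩
        have hd := ll_FF_diff a ha (f k)
        have : DifferentiableOn ℂ (fun u : ℂ => X k + u) (ball z (z.re / 2)) := by fun_prop
        exact hd.comp this (fun w hw => (hmem w hw).1)
    · intro z hz
      exact (hg z hz).2
  have hdiff : DifferentiableOn ℂ g {z : ℂ | 0 < z.re} := by
    refine hlu.differentiableOn ?_ ?_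
    · apply hU
      filter_upwards [Filter.eventually_ge_atTop 1] with k hk1
      have hd := ll_FF_diff a ha (f k)
      have : DifferentiableOn ℂ (fun u : ℂ => X k + u) {z : ℂ | 0 < z.re} := by fun_prop
      refine hd.comp this (fun w hw => ?_)
      show 0 < (X k + w).re
      have hw' : 0 < w.re := hw
      have hX' := (hX k hk1).1
      rw [Complex.add_re]
      linarith
    · exact isOpen_lt continuous_const Complex.continuous_re
  refine ⟨g, hdiff, fun z hz => (hg z hz).1, ?_, ?_⟩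
  · intro z hz
    have hzb : 0 < (z + b).re := by rw [Complex.add_re]; linarith
    have t1 := (ll_tendsto h a ha b hb hlim l f X hX h1 h2 z hz.le (hev z hz)).mono_left hU
    have t2 := ((hg (z + b) hzb).2).sub (((hg z hz).2).const_mul l)
    have := tendsto_nhds_unique t1 t2
    rw [eq_comm, sub_eq_zero] at this
    exact this
  · have t1 := (ll_tendsto h a ha b hb hlim l f X hX h1 h2 0 (by simp) (by simp)).mono_left hU
    have t2 := (hg b hb).2
    intro hgb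
    rw [hgb] at t2
    simp only [zero_add, add_zero] at t1
    have t3 := t2.sub t1
    simp only [sub_sub_cancel, sub_zero] at t3
    have t4 := t3.norm
    rw [norm_zero] at t4
    have hlpos : 0 < ‖l‖ := norm_pos_iff.2 hl
    have t5 : ‖l‖ / 2 ≤ 0 := by
      refine ge_of_tendsto t4 ?_
      apply hU
      filter_upwards [Filter.eventually_ge_atTop 1] with k hk1
      rw [norm_mul]
      have := h3 k hk1
      nlinarith
    linarith

end Pool.Agent.Helper203.DS
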