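import Pool.Agent.Helper203.DS.Defs3
import Pool.Agent.Helper203.DS.BBSub
import Pool.Agent.Helper203.DS.HalfP
import Pool.Agent.Helper203.DS.LocLim

open Metric Set Filter Topology

noncomputable section

namespace Pool.Agent.Helper203.DS

theorem bb_spiral_ext (c : ℂ) (f : DA) (z : ℂ) : ext (c • f).1 z = c * ext f.1 z := by
  by_cases hz : z ∈ Metric.closedBall (0:ℂ) 1
  · rw [ext_of_mem _ hz, ext_of_mem _ hz]
    rfl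
  · unfold ext
    rw [dif_neg hz, dif_neg hz, mul_zero]

theorem bb_spiral {T : DA →L[ℂ] DA} {Φ : Pt → Pt} (h : IsComp T Φ) (a : Pt) (ha : ‖(a:ℂ)‖ = 1)
    (hK : KK Φ ⊆ {a}) (N : ℕ) (hN : ∀ z : Pt, Φ^[N] z = a ∨ ‖(Φ^[N] z : ℂ)‖ < 1)
    (hin : ∀ z : Pt, ‖(z:ℂ)‖ < 1 → ‖(Φ z : ℂ)‖ < 1) (hfix : Φ a = a) (b : ℂ) (hb : 0 < b.re)
    (hlim : LimB a b Φ) (l : ℂ) (hl : l ≠ 0) (hl1 : ‖l‖ ≤ 1)
    (hns : ¬ ∃ c : ℝ, 0 ≤ c ∧ l = Complex.exp (-(c * b))) :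
    ∃ c : ℝ, 0 < c ∧ ∀ f : DA, c * ‖f‖ ≤ ‖T f - l • f‖ := by
  by_contra hcon
  have hneg : ∀ k : ℕ, 1 ≤ k → ∃ (f : DA) (s : ℝ), 0 ≤ s ∧ (∀ w ∈ GG k, ‖ext f.1 (ic a w)‖ ≤ s) ∧
      (∀ w ∈ GG k, ‖ext (T f - l • f).1 (ic a w)‖ ≤ s / k) ∧
      ∃ w ∈ GG k, s / 2 < ‖ext f.1 (ic a w)‖ := by
    intro k hk
    by_contra hno
    apply hcon
    apply bb_of_sub h a ha hK N hN hin hfix l hl hl1 k hk
    intro f s hs h1 h2 w hw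
    by_contra hlt
    exact hno ⟨f, s, hs, h1, h2, w, hw, not_le.mp hlt⟩
  have hneg2 : ∀ k : ℕ, ∃ (f : DA) (X : ℂ), 1 ≤ k → (X ∈ GG k ∧ (∀ w ∈ GG k, ‖ext f.1 (ic a w)‖ ≤ 1) ∧
      (∀ w ∈ GG k, ‖ext (T f - l • f).1 (ic a w)‖ ≤ 1 / k) ∧ 1 / 2 ≤ ‖ext f.1 (ic a X)‖) := by
    intro k
    by_cases hk : 1 ≤ k
    · obtain ⟨f, s, hs, h1, h2, w, hw, hlt⟩ := hneg k hk
      have hspos : 0 < s := by
        rcases hs.lt_or_eq with h0 | h0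
        · exact h0
        · have := h1 w hw
          linarith
      have hnorm : ‖((s⁻¹ : ℝ) : ℂ)‖ = s⁻¹ := by
        rw [Complex.norm_real, Real.norm_eq_abs, abs_of_pos (inv_pos.mpr hspos)]
      refine ⟨((s⁻¹ : ℝ) : ℂ) • f, w, fun _ => ⟨hw, ?_, ?_, ?_⟩⟩
      · intro w' hw'
        rw [bb_spiral_ext, norm_mul, hnorm]
        calc s⁻¹ * ‖ext f.1 (ic a w')‖ ≤ s⁻¹ * s := mul_le_mul_of_nonneg_left (h1 w' hw') (inv_pos.mpr hspos).le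
          _ = 1 := inv_mul_cancel₀ hspos.ne'
      · intro w' hw'
        have e : T (((s⁻¹ : ℝ) : ℂ) • f) - l • (((s⁻¹ : ℝ) : ℂ) • f) = ((s⁻¹ : ℝ) : ℂ) • (T f - l • f) := by
          rw [map_smul, smul_comm l, smul_sub]
        rw [e, bb_spiral_ext, norm_mul, hnorm]
        calc s⁻¹ * ‖ext (T f - l • f).1 (ic a w')‖ ≤ s⁻¹ * (s / k) :=
              mul_le_mul_of_nonneg_left (h2 w' hw') (inv_pos.mpr hspos).le
          _ = 1 / k := by field_simp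
      · rw [bb_spiral_ext, norm_mul, hnorm]
        calc (1:ℝ) / 2 = s⁻¹ * (s / 2) := by field_simp
          _ ≤ s⁻¹ * ‖ext f.1 (ic a w)‖ := mul_le_mul_of_nonneg_left hlt.le (inv_pos.mpr hspos).le
    · exact ⟨0, 0, fun h => absurd h hk⟩
  choose f X hfX using hneg2
  obtain ⟨g, hgd, hg1, hper, hgb⟩ := local_limit h a ha b hb hlim l hl f X
    (fun k hk => (hfX k hk).1) (fun k hk => (hfX k hk).2.1) (fun k hk => (hfX k hk).2.2.1)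
    (fun k hk => (hfX k hk).2.2.2)
  exact hns (half_periodic b l hb hl g hgd 1 hg1 hper ⟨b, hb, hgb⟩)

end Pool.Agent.Helper203.DS
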