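import Pool.Agent.Helper203.DS.Base

open Metric Set Filter Topology

noncomputable section

namespace Pool.Agent.Helper203.DS

/-- the peak function at `a` -/
def peak_fun_p (a : ℂ) : DA := (1 / 2 : ℂ) • (1 + ((starRingEnd ℂ) a) • Z)

theorem peak_fun_p_apply (a : ℂ) (z : Pt) :
    (peak_fun_p a).1 z = 1 / 2 * (1 + (starRingEnd ℂ) a * (z : ℂ)) := by
  unfold peak_fun_p
  rw [smul_apply, add_apply, one_apply, smul_apply, Z_apply]

theorem peak_fun_sq (a : ℂ) (ha : ‖a‖ = 1) (z : Pt) :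
    ‖(peak_fun_p a).1 z‖ ^ 2 ≤ 1 - ‖(z : ℂ) - a‖ ^ 2 / 4 := by
  rw [peak_fun_p_apply]
  have hz : ‖(z : ℂ)‖ ≤ 1 := by
    have := z.2
    rwa [mem_closedBall_zero_iff] at this
  set u : ℂ := (starRingEnd ℂ) a * (z : ℂ) with hu
  have hu1 : ‖u‖ ≤ 1 := by
    rw [hu, norm_mul, RCLike.norm_conj, ha, one_mul]
    exact hz
  have haa : a * (starRingEnd ℂ) a = 1 := by
    rw [Complex.mul_conj, Complex.normSq_eq_norm_sq, ha]
    norm_num
  have hd : ‖(z : ℂ) - a‖ = ‖1 - u‖ := by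
    have e1 : a * (1 - u) = a - z := by
      rw [hu]
      linear_combination (-(z : ℂ)) * haa
    have e2 : ‖a * (1 - u)‖ = ‖1 - u‖ := by rw [norm_mul, ha, one_mul]
    rw [← e2, e1, norm_sub_rev]
  have hpar : ‖1 + u‖ ^ 2 + ‖1 - u‖ ^ 2 = 2 + 2 * ‖u‖ ^ 2 := by
    have h := parallelogram_law_with_norm ℝ (1 : ℂ) u
    rw [norm_one] at h
    nlinarith [h]
  rw [hd, norm_mul, mul_pow]
  have h2 : ‖(1 / 2 : ℂ)‖ ^ 2 = 1 / 4 := by
    rw [norm_div, norm_one, Complex.norm_ofNat]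
    norm_num
  rw [h2]
  have h3 : ‖u‖ ^ 2 ≤ 1 := by
    have := norm_nonneg u
    nlinarith
  linarith

theorem peak_fun_self (a : Pt) (ha : ‖(a : ℂ)‖ = 1) : (peak_fun_p (a : ℂ)).1 a = 1 := by
  rw [peak_fun_p_apply]
  have haa : (starRingEnd ℂ) (a : ℂ) * (a : ℂ) = 1 := by
    rw [mul_comm, Complex.mul_conj, Complex.normSq_eq_norm_sq, ha]
    norm_num
  rw [haa]
  norm_num

theorem peak_fun_sep (N : ℕ) (w : Fin N → Pt) (hinj : Function.Injective w) :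
    ∃ δ : ℝ, 0 < δ ∧ δ < 1 ∧ ∀ i j, i ≠ j → 2 * δ ≤ ‖(w i : ℂ) - (w j : ℂ)‖ := by
  have h1 : ∀ᶠ δ : ℝ in 𝓝[>] 0, ∀ i j, i ≠ j → 2 * δ ≤ ‖(w i : ℂ) - (w j : ℂ)‖ := by
    rw [Filter.eventually_all]
    intro i
    rw [Filter.eventually_all]
    intro j
    by_cases hij : i = j
    · exact Filter.Eventually.of_forall (fun δ h => absurd hij h)
    · have hd : 0 < ‖(w i : ℂ) - (w j : ℂ)‖ := by
        rw [norm_pos_iff, sub_ne_zero]
        intro h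
        exact hij (hinj (Subtype.ext h))
      have h2 : Iio (‖(w i : ℂ) - (w j : ℂ)‖ / 2) ∈ 𝓝[>] (0 : ℝ) :=
        mem_nhdsWithin_of_mem_nhds (Iio_mem_nhds (by linarith))
      filter_upwards [h2] with δ hδ _
      have : δ < ‖(w i : ℂ) - (w j : ℂ)‖ / 2 := hδ
      linarith
  have h2 : ∀ᶠ δ : ℝ in 𝓝[>] 0, 0 < δ := self_mem_nhdsWithin
  have h3 : ∀ᶠ δ : ℝ in 𝓝[>] 0, δ < 1 :=
    mem_nhdsWithin_of_mem_nhds (Iio_mem_nhds one_pos)
  obtain ⟨δ, hδ1, hδ2, hδ3⟩ := (h1.and (h2.and h3)).exists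
  exact ⟨δ, hδ2, hδ3, hδ1⟩

theorem peak_fun (N : ℕ) (w : Fin N → Pt) (hw : ∀ i, ‖(w i : ℂ)‖ = 1)
    (hinj : Function.Injective w) (c : Fin N → ℂ) (hc : ∀ i, ‖c i‖ ≤ 1) (ε : ℝ) (hε : 0 < ε) :
    ∃ f : DA, ‖f‖ ≤ 2 ∧ ∀ i, ‖f.1 (w i) - c i‖ ≤ ε := by
  classical
  obtain ⟨δ, hδ0, hδ1, hδ⟩ := peak_fun_sep N w hinj
  set r : ℝ := 1 - δ ^ 2 / 4 with hr
  have hr0 : 0 ≤ r := by rw [hr]; nlinarith
  have hr1 : r < 1 := by rw [hr]; nlinarith
  have hmin : 0 < min ε 1 / ((N : ℝ) + 1) := by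
    have : 0 < min ε 1 := lt_min hε one_pos
    positivity
  obtain ⟨M, hM⟩ := exists_pow_lt_of_lt_one hmin hr1
  have hNr : (N : ℝ) * r ^ M ≤ min ε 1 := by
    rw [lt_div_iff₀ (by positivity)] at hM
    have := pow_nonneg hr0 M
    nlinarith
  have hNr1 : (N : ℝ) * r ^ M ≤ 1 := hNr.trans (min_le_right _ _)
  have hNrε : (N : ℝ) * r ^ M ≤ ε := hNr.trans (min_le_left _ _)
  have hrM : 0 ≤ r ^ M := pow_nonneg hr0 M
  -- bounds for powers
  have hpow : ∀ (k : Fin N) (z : Pt), ‖(peak_fun_p (w k : ℂ)).1 z ^ (2 * M)‖ ≤ 1 := by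
    intro k z
    rw [norm_pow, pow_mul]
    apply pow_le_one₀ (by positivity)
    have := peak_fun_sq (w k : ℂ) (hw k) z
    nlinarith [sq_nonneg ‖(z : ℂ) - (w k : ℂ)‖]
  have hpow2 : ∀ (k : Fin N) (z : Pt), δ ≤ ‖(z : ℂ) - (w k : ℂ)‖ →
      ‖(peak_fun_p (w k : ℂ)).1 z ^ (2 * M)‖ ≤ r ^ M := by
    intro k z hz
    rw [norm_pow, pow_mul]
    apply pow_le_pow_left₀ (by positivity)
    have := peak_fun_sq (w k : ℂ) (hw k) z
    rw [hr]
    nlinarith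
  refine ⟨∑ k, c k • (peak_fun_p (w k : ℂ)) ^ (2 * M), ?_, ?_⟩
  · apply norm_le_of (by norm_num)
    intro z
    rw [sum_apply]
    have hterm : ∀ k : Fin N, ‖(c k • (peak_fun_p (w k : ℂ)) ^ (2 * M)).1 z‖ ≤
        r ^ M + (if ‖(z : ℂ) - (w k : ℂ)‖ < δ then 1 else 0) := by
      intro k
      rw [smul_apply, pow_apply, norm_mul]
      by_cases hz : ‖(z : ℂ) - (w k : ℂ)‖ < δ
      · rw [if_pos hz]
        have h1 : ‖c k‖ * ‖(peak_fun_p (w k : ℂ)).1 z ^ (2 * M)‖ ≤ 1 * 1 :=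
          mul_le_mul (hc k) (hpow k z) (norm_nonneg _) zero_le_one
        linarith
      · rw [if_neg hz]
        push Not at hz
        have h1 : ‖c k‖ * ‖(peak_fun_p (w k : ℂ)).1 z ^ (2 * M)‖ ≤ 1 * r ^ M :=
          mul_le_mul (hc k) (hpow2 k z hz) (norm_nonneg _) zero_le_one
        linarith
    have hcard : (∑ k : Fin N, (if ‖(z : ℂ) - (w k : ℂ)‖ < δ then (1 : ℝ) else 0)) ≤ 1 := by
      rw [Finset.sum_ite, Finset.sum_const_zero, add_zero, Finset.sum_const, nsmul_eq_mul, mul_one]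
      have h1 : (Finset.univ.filter (fun k : Fin N => ‖(z : ℂ) - (w k : ℂ)‖ < δ)).card ≤ 1 := by
        rw [Finset.card_le_one]
        intro i hi j hj
        by_contra hij
        have hi' := (Finset.mem_filter.mp hi).2
        have hj' := (Finset.mem_filter.mp hj).2
        have h2 := hδ i j hij
        have h3 : ‖(w i : ℂ) - (w j : ℂ)‖ ≤ ‖(z : ℂ) - (w i : ℂ)‖ + ‖(z : ℂ) - (w j : ℂ)‖ := by
          have e : (w i : ℂ) - (w j : ℂ) = ((z : ℂ) - (w j : ℂ)) - ((z : ℂ) - (w i : ℂ)) := by ring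
          rw [e]
          have := norm_sub_le ((z : ℂ) - (w j : ℂ)) ((z : ℂ) - (w i : ℂ))
          linarith
        linarith
      exact_mod_cast h1
    calc ‖∑ k, (c k • (peak_fun_p (w k : ℂ)) ^ (2 * M)).1 z‖
        ≤ ∑ k, ‖(c k • (peak_fun_p (w k : ℂ)) ^ (2 * M)).1 z‖ := norm_sum_le _ _
      _ ≤ ∑ k : Fin N, (r ^ M + (if ‖(z : ℂ) - (w k : ℂ)‖ < δ then (1 : ℝ) else 0)) :=
          Finset.sum_le_sum (fun k _ => hterm k)
      _ = N * r ^ M + ∑ k : Fin N, (if ‖(z : ℂ) - (w k : ℂ)‖ < δ then (1 : ℝ) else 0) := by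
          rw [Finset.sum_add_distrib, Finset.sum_const, Finset.card_univ, Fintype.card_fin,
            nsmul_eq_mul]
      _ ≤ 2 := by linarith
  · intro i
    rw [sum_apply, ← Finset.add_sum_erase _ _ (Finset.mem_univ i), smul_apply, pow_apply,
      peak_fun_self (w i) (hw i), one_pow, mul_one, add_sub_cancel_left]
    calc ‖∑ k ∈ Finset.univ.erase i, (c k • (peak_fun_p (w k : ℂ)) ^ (2 * M)).1 (w i)‖
        ≤ ∑ k ∈ Finset.univ.erase i, ‖(c k • (peak_fun_p (w k : ℂ)) ^ (2 * M)).1 (w i)‖ :=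
          norm_sum_le _ _
      _ ≤ ∑ k ∈ Finset.univ.erase i, r ^ M := by
          apply Finset.sum_le_sum
          intro k hk
          rw [smul_apply, pow_apply, norm_mul]
          have hki : k ≠ i := Finset.ne_of_mem_erase hk
          have h2 := hδ i k hki.symm
          have h1 : ‖c k‖ * ‖(peak_fun_p (w k : ℂ)).1 (w i) ^ (2 * M)‖ ≤ 1 * r ^ M :=
            mul_le_mul (hc k) (hpow2 k (w i) (by linarith)) (norm_nonneg _) zero_le_one
          linarith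
      _ ≤ ∑ k : Fin N, r ^ M :=
          Finset.sum_le_sum_of_subset_of_nonneg (Finset.erase_subset _ _) (fun _ _ _ => hrM)
      _ = N * r ^ M := by
          rw [Finset.sum_const, Finset.card_univ, Fintype.card_fin, nsmul_eq_mul]
      _ ≤ ε := hNrε

end Pool.Agent.Helper203.DS
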