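import Pool.Agent.Helper203.DS.Defs3

open Metric Set Filter Topology

noncomputable section

namespace Pool.Agent.Helper203.DS

theorem aux_near {E : Type*} [NormedAddCommGroup E] [NormedSpace ℂ E] [CompleteSpace E]
    (T : E →L[ℂ] E) (m m' : ℂ) (c : ℝ) (hc : 0 < c) (hbb : ∀ f : E, c * ‖f‖ ≤ ‖T f - m • f‖)
    (hm' : m' ∉ spectrum ℂ T) (hmm : ‖m - m'‖ < c / 2) : m ∉ spectrum ℂ T := by
  rcases subsingleton_or_nontrivial E with hE | hE
  · have : Subsingleton (E →L[ℂ] E) := ⟨fun a b => by ext x; exact Subsingleton.elim _ _⟩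
    rw [spectrum.of_subsingleton]
    simp
  · rw [spectrum.notMem_iff] at hm' ⊢
    obtain ⟨u, hu⟩ := hm'
    have hub : ∀ f : E, c / 2 * ‖f‖ ≤ ‖(u : E →L[ℂ] E) f‖ := by
      intro f
      have h1 := hbb f
      have h2 : T f - m • f = -((u : E →L[ℂ] E) f) + (m' - m) • f := by
        rw [hu]
        simp [Algebra.algebraMap_eq_smul_one, sub_smul]
      have h3 : ‖T f - m • f‖ ≤ ‖(u : E →L[ℂ] E) f‖ + ‖m' - m‖ * ‖f‖ := by
        rw [h2]
        refine (norm_add_le _ _).trans ?_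
        rw [norm_neg, norm_smul]
      have h4 : ‖m' - m‖ * ‖f‖ ≤ c / 2 * ‖f‖ := by
        rw [norm_sub_rev]
        exact mul_le_mul_of_nonneg_right hmm.le (norm_nonneg _)
      linarith
    have hinv : ‖((u⁻¹ : (E →L[ℂ] E)ˣ) : E →L[ℂ] E)‖ ≤ 2 / c := by
      apply ContinuousLinearMap.opNorm_le_bound _ (by positivity)
      intro g
      have h1 := hub (((u⁻¹ : (E →L[ℂ] E)ˣ) : E →L[ℂ] E) g)
      have h2 : (u : E →L[ℂ] E) (((u⁻¹ : (E →L[ℂ] E)ˣ) : E →L[ℂ] E) g) = g := by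
        have := u.mul_inv
        exact congrArg (fun W : E →L[ℂ] E => W g) this
      rw [h2] at h1
      rw [div_mul_eq_mul_div, le_div_iff₀ hc]
      linarith
    have hpos : 0 < ‖((u⁻¹ : (E →L[ℂ] E)ˣ) : E →L[ℂ] E)‖ := Units.norm_pos _
    have hle : c / 2 ≤ ‖((u⁻¹ : (E →L[ℂ] E)ˣ) : E →L[ℂ] E)‖⁻¹ := by
      rw [le_inv_comm₀ (by positivity) hpos]
      calc _ ≤ 2 / c := hinv
        _ = (c / 2)⁻¹ := by rw [inv_div]
    have hdiff : ‖(algebraMap ℂ (E →L[ℂ] E) m - T) - (u : E →L[ℂ] E)‖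
        < ‖((u⁻¹ : (E →L[ℂ] E)ˣ) : E →L[ℂ] E)‖⁻¹ := by
      rw [hu]
      have : algebraMap ℂ (E →L[ℂ] E) m - T - (algebraMap ℂ (E →L[ℂ] E) m' - T)
          = algebraMap ℂ (E →L[ℂ] E) (m - m') := by
        rw [map_sub]; abel
      rw [this, norm_algebraMap']
      linarith
    exact ⟨u.ofNearby _ hdiff, rfl⟩

theorem circle_of_bb' {E : Type*} [NormedAddCommGroup E] [NormedSpace ℂ E] [CompleteSpace E]
    (T : E →L[ℂ] E) (l : ℂ)
    (hbb : ∀ m : ℂ, ‖m‖ = ‖l‖ → ∃ c : ℝ, 0 < c ∧ ∀ f : E, c * ‖f‖ ≤ ‖T f - m • f‖)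
    (hl : l ∉ spectrum ℂ T) : ∀ m : ℂ, ‖m‖ = ‖l‖ → m ∉ spectrum ℂ T := by
  obtain ⟨φ, hφ⟩ : ∃ φ : ℝ → ℂ, φ = fun θ : ℝ => l * Complex.exp ((θ : ℂ) * Complex.I) := ⟨_, rfl⟩
  have hφc : Continuous φ := by rw [hφ]; fun_prop
  have hφn : ∀ θ, ‖φ θ‖ = ‖l‖ := by
    intro θ
    rw [hφ]
    simp only
    rw [norm_mul, Complex.norm_exp_ofReal_mul_I, mul_one]
  obtain ⟨S, hS⟩ : ∃ S : Set ℝ, S = {θ | φ θ ∉ spectrum ℂ T} := ⟨_, rfl⟩
  have hopen : IsOpen S := by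
    have h1 : IsClosed (spectrum ℂ T) := spectrum.isClosed T
    have h2 : S = φ ⁻¹' (spectrum ℂ T)ᶜ := by rw [hS]; rfl
    rw [h2]
    exact h1.isOpen_compl.preimage hφc
  have hclosed : IsClosed S := by
    rw [← isOpen_compl_iff, Metric.isOpen_iff] 
    intro θ hθ
    obtain ⟨c, hc, hb⟩ := hbb (φ θ) (hφn θ)
    have hcont := Metric.continuous_iff.mp hφc θ (c / 2) (by positivity)
    obtain ⟨δ, hδ, hd⟩ := hcont
    refine ⟨δ, hδ, ?_⟩
    intro θ' hθ' hin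
    apply hθ
    rw [hS] at hin ⊢
    refine aux_near T (φ θ) (φ θ') c hc hb hin ?_
    have := hd θ' hθ'
    rw [dist_eq_norm] at this
    rw [norm_sub_rev]
    exact this
  have h0 : (0 : ℝ) ∈ S := by
    rw [hS, hφ]
    simpa using hl
  have huniv : S = Set.univ := IsClopen.eq_univ ⟨hclosed, hopen⟩ ⟨0, h0⟩
  intro m hm
  have hex : ∃ θ : ℝ, m = φ θ := by
    rw [hφ]
    by_cases h : l = 0
    · refine ⟨0, ?_⟩
      rw [h, norm_zero, norm_eq_zero] at hm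
      rw [hm, h]; simp
    · refine ⟨Complex.arg (m / l), ?_⟩
      have h1 := Complex.norm_mul_exp_arg_mul_I (m / l)
      have h2 : ‖m / l‖ = 1 := by
        rw [norm_div, hm, div_self (norm_ne_zero_iff.mpr h)]
      rw [h2] at h1
      simp only
      rw [Complex.ofReal_one, one_mul] at h1
      rw [h1]
      field_simp
  obtain ⟨θ, rfl⟩ := hex
  have : θ ∈ S := by rw [huniv]; exact Set.mem_univ _
  rw [hS] at this
  exact this

end Pool.Agent.Helper203.DS
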