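import Pool.Agent.Helper203.DS.Base

open Metric Set Filter Topology

noncomputable section

namespace Pool.Agent.Helper203.DS

theorem div_interior (f : DA) (a : Pt) (ha : ‖(a:ℂ)‖ < 1) (hf : f.1 a = 0) :
    ∃ h : DA, f = (Z - algebraMap ℂ DA (a:ℂ)) * h := by
  have hab : (a : ℂ) ∈ Metric.ball (0 : ℂ) 1 := by
    rw [mem_ball_zero_iff]
    exact ha
  have hnb : Metric.ball (0 : ℂ) 1 ∈ 𝓝 (a : ℂ) := Metric.isOpen_ball.mem_nhds hab
  have hnc : Metric.closedBall (0 : ℂ) 1 ∈ 𝓝 (a : ℂ) :=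
    Filter.mem_of_superset hnb Metric.ball_subset_closedBall
  have hdiff : DifferentiableAt ℂ (ext f.1) (a : ℂ) := (differentiableOn_da f).differentiableAt hnb
  have hc : ContinuousOn (dslope (ext f.1) (a : ℂ)) (Metric.closedBall (0 : ℂ) 1) :=
    (continuousOn_dslope hnc).2 ⟨continuousOn_da f, hdiff⟩
  have hd : DifferentiableOn ℂ (dslope (ext f.1) (a : ℂ)) (Metric.ball (0 : ℂ) 1) :=
    (Complex.differentiableOn_dslope hnb).2 (differentiableOn_da f)
  obtain ⟨h, hh⟩ := exists_da _ hc hd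
  refine ⟨h, da_ext fun z => ?_⟩
  rw [mul_apply, sub_apply, Z_apply, algMap_apply, hh]
  have h1 := sub_smul_dslope (ext f.1) (a : ℂ) (z : ℂ)
  rw [ext_apply, ext_apply, hf, sub_zero, smul_eq_mul] at h1
  exact h1.symm

theorem const_of_max (f : DA) (z0 : Pt) (hz0 : ‖(z0:ℂ)‖ < 1) (h : ∀ z, ‖f.1 z‖ ≤ ‖f.1 z0‖) :
    ∀ z, f.1 z = f.1 z0 := by
  have hz0b : (z0 : ℂ) ∈ Metric.ball (0 : ℂ) 1 := by
    rw [mem_ball_zero_iff]
    exact hz0
  have hcl : closure (Metric.ball (0 : ℂ) 1) = Metric.closedBall (0 : ℂ) 1 :=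
    closure_ball _ one_ne_zero
  have hd : DiffContOnCl ℂ (ext f.1) (Metric.ball (0 : ℂ) 1) :=
    ⟨differentiableOn_da f, by rw [hcl]; exact continuousOn_da f⟩
  have hmax : IsMaxOn (norm ∘ ext f.1) (Metric.ball (0 : ℂ) 1) (z0 : ℂ) := by
    intro w hw
    have hw' : w ∈ Metric.closedBall (0 : ℂ) 1 := Metric.ball_subset_closedBall hw
    show ‖ext f.1 w‖ ≤ ‖ext f.1 (z0 : ℂ)‖
    rw [ext_of_mem _ hw', ext_apply]
    exact h ⟨w, hw'⟩
  have heq := Complex.eqOn_closure_of_isPreconnected_of_isMaxOn_norm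
    (convex_ball (0 : ℂ) 1).isPreconnected Metric.isOpen_ball hd hz0b hmax
  intro z
  have hz : (z : ℂ) ∈ closure (Metric.ball (0 : ℂ) 1) := by
    rw [hcl]
    exact z.2
  have h1 := heq hz
  rw [Function.const_apply, ext_apply, ext_apply] at h1
  exact h1

end Pool.Agent.Helper203.DS
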