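import Pool.Agent.Helper203.DS.Base

open Metric Set Filter Topology

noncomputable section

namespace Pool.Agent.Helper203.DS

/-- `Re ((a + z) / (a - z))` for `|a| = 1`. -/
def hh (a z : ℂ) : ℝ := (1 - ‖z‖ ^ 2) / ‖a - z‖ ^ 2

/-- Exponential decay of `T ^ n f`. -/
def Dec (T : DA →L[ℂ] DA) (r : ℝ) (f : DA) : Prop := ∃ K : ℝ, ∀ n : ℕ, ‖(T ^ n) f‖ ≤ K * r ^ n

/-- An exponential dichotomy for `T`. -/
structure Gap {E : Type*} [NormedAddCommGroup E] [NormedSpace ℂ E] (T : E →L[ℂ] E) (r1 r2 C : ℝ)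
    (P : E →L[ℂ] E) (Q : ℕ → E →L[ℂ] E) : Prop where
  h1 : 0 < r1
  h12 : r1 < r2
  h2 : r2 < 1
  hC : 0 < C
  comm : ∀ k, Q k * T = T * Q k
  eq : ∀ k, T ^ k * Q k = 1 - P
  dec : ∀ n, ‖T ^ n * P‖ ≤ C * r1 ^ n
  bd : ∀ k, ‖Q k‖ * r2 ^ k ≤ C

end Pool.Agent.Helper203.DS
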