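import Pool.Agent.Helper203.DS.Defs2

open Metric Set Filter Topology

noncomputable section

namespace Pool.Agent.Helper203.DS

/-- The Cayley transform of the disc onto the right half plane sending `a` to infinity. -/
def Cay (a z : ℂ) : ℂ := (a + z) / (a - z)

/-- The inverse Cayley transform. -/
def ic (a w : ℂ) : ℂ := a * (w - 1) / (w + 1)

/-- A neighbourhood of infinity in the right half plane. -/
def GG (k : ℕ) : Set ℂ := {w | 0 < w.re ∧ (k:ℝ) < w.re + |w.im| / k}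

/-- In the half plane `φ(w) = w + b + o(1)` at infinity. -/
def LimB (a b : ℂ) (Φ : Pt → Pt) : Prop :=
  ∀ ε : ℝ, 0 < ε → ∃ δ : ℝ, 0 < δ ∧ ∀ z : Pt, (z:ℂ) ≠ a → ‖(z:ℂ) - a‖ < δ →
    (Φ z : ℂ) ≠ a ∧ ‖Cay a (Φ z) - Cay a z - b‖ < ε

/-- In the half plane `φ(w) = w + c / w + o(1 / w)` at infinity. -/
def LimC (a c : ℂ) (Φ : Pt → Pt) : Prop :=
  ∀ ε : ℝ, 0 < ε → ∃ δ : ℝ, 0 < δ ∧ ∀ z : Pt, (z:ℂ) ≠ a → ‖(z:ℂ) - a‖ < δ →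
    (Φ z : ℂ) ≠ a ∧ ‖(Cay a (Φ z) - Cay a z) * Cay a z - c‖ < ε

/-- Third order Taylor expansion at `a` with first coefficient one. -/
def Tay (a α β : ℂ) (Φ : Pt → Pt) : Prop :=
  ∀ ε : ℝ, 0 < ε → ∃ δ : ℝ, 0 < δ ∧ ∀ z : Pt, ‖(z:ℂ) - a‖ < δ →
    ‖(Φ z : ℂ) - (z + α * ((z:ℂ) - a) ^ 2 + β * ((z:ℂ) - a) ^ 3)‖ ≤ ε * ‖(z:ℂ) - a‖ ^ 3

end Pool.Agent.Helper203.DS
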