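import Pool.Agent.Helper203.DS.Defs3

open Metric Set Filter Topology

noncomputable section

namespace Pool.Agent.Helper203.DS

theorem half_zero (f : ℂ → ℂ) (hf : DifferentiableOn ℂ f {z | 0 < z.re})
    (hbd : ∀ z : ℂ, 0 < z.re → ‖f z‖ ≤ 1)
    (h : ∀ κ : ℝ, 0 < κ → ∃ M : ℝ, ∀ z : ℂ, M ≤ z.re → 0 < z.re →
      ‖f z‖ ≤ Real.exp (-(κ * z.re))) :
    ∀ z : ℂ, 0 < z.re → f z = 0 := by
  intro z hz
  obtain ⟨δ, hδ, hδz⟩ : ∃ δ : ℝ, 0 < δ ∧ δ < z.re := ⟨z.re / 2, by linarith, by linarith⟩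
  have hre : ∀ w : ℂ, (w + (δ : ℂ)).re = w.re + δ := by
    intro w
    simp
  have hd : DiffContOnCl ℂ (fun w : ℂ => f (w + (δ : ℂ))) {w | 0 < w.re} := by
    apply DifferentiableOn.diffContOnCl
    rw [Complex.closure_setOfPred_lt_re]
    have h1 : DifferentiableOn ℂ (fun w : ℂ => w + (δ : ℂ)) {w : ℂ | 0 ≤ w.re} := by
      fun_prop
    refine hf.comp h1 ?_
    intro w hw
    have hw' : 0 ≤ w.re := hw
    show 0 < (w + (δ : ℂ)).re
    rw [hre]
    linarith
  have hb : ∀ w : ℂ, 0 ≤ w.re → ‖f (w + (δ : ℂ))‖ ≤ 1 := by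
    intro w hw
    apply hbd
    rw [hre]
    linarith
  have key := PhragmenLindelof.eq_zero_on_right_half_plane_of_superexponential_decay hd
    ⟨0, by norm_num, 0, by
      refine Asymptotics.IsBigO.of_bound 1 ?_
      refine Filter.mem_inf_of_right ?_
      intro w hw
      have hw' : 0 < w.re := hw
      show ‖f (w + (δ : ℂ))‖ ≤ 1 * ‖Real.exp (0 * ‖w‖ ^ (0 : ℝ))‖
      simpa using hb w hw'.le⟩
    (by
      intro n
      obtain ⟨M, hM⟩ := h ((n : ℝ) + 1) (by positivity)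
      have hlim : Tendsto (fun x : ℝ => Real.exp (-x)) atTop (𝓝 0) :=
        Real.tendsto_exp_neg_atTop_nhds_zero
      refine squeeze_zero' (Eventually.of_forall fun x => by positivity) ?_ hlim
      filter_upwards [eventually_ge_atTop M, eventually_ge_atTop (0 : ℝ)] with x hx hx0
      have hxr : ((x : ℂ) + (δ : ℂ)).re = x + δ := by simp
      have h2 := hM ((x : ℂ) + (δ : ℂ)) (by rw [hxr]; linarith) (by rw [hxr]; linarith)
      rw [hxr] at h2
      have h3 : Real.exp x ^ n = Real.exp (n * x) := (Real.exp_nat_mul x n).symm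
      calc Real.exp x ^ n * ‖f ((x : ℂ) + (δ : ℂ))‖
          ≤ Real.exp (n * x) * Real.exp (-(((n : ℝ) + 1) * (x + δ))) := by
            rw [h3]
            exact mul_le_mul_of_nonneg_left h2 (Real.exp_pos _).le
        _ = Real.exp (n * x + -(((n : ℝ) + 1) * (x + δ))) := (Real.exp_add _ _).symm
        _ ≤ Real.exp (-x) := by
            apply Real.exp_le_exp.mpr
            have : 0 ≤ ((n : ℝ) + 1) * δ := by positivity
            nlinarith)
    ⟨1, fun x => hb _ (by simp)⟩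
  have h5 := key (x := z - (δ : ℂ)) (by
    show 0 ≤ (z - (δ : ℂ)).re
    simp
    linarith)
  simpa using h5

end Pool.Agent.Helper203.DS
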