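import Pool.Agent.Helper203.DS.Defs2

open Metric Set Filter Topology

noncomputable section

namespace Pool.Agent.Helper203.DS

theorem exists_log845 (G : ℂ → ℂ) (hG : DifferentiableOn ℂ G (ball (0:ℂ) 1))
    (hG0 : ∀ z ∈ ball (0:ℂ) 1, G z ≠ 0) :
    ∃ L : ℂ → ℂ, DifferentiableOn ℂ L (ball (0:ℂ) 1) ∧ ∀ z ∈ ball (0:ℂ) 1, Complex.exp (L z) = G z := by
  have h1 : DifferentiableOn ℂ (fun z => deriv G z / G z) (ball (0:ℂ) 1) :=
    (hG.deriv isOpen_ball).div hG hG0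
  obtain ⟨g, hg0, hg⟩ := h1.isExactOn_ball.with_val_at 0 (Complex.log (G 0))
  have h0 : (0:ℂ) ∈ ball (0:ℂ) 1 := by simp
  refine ⟨g, fun z hz => (hg z hz).differentiableAt.differentiableWithinAt, ?_⟩
  have hH : ∀ z ∈ ball (0:ℂ) 1, HasDerivAt (fun z => G z * Complex.exp (-g z)) 0 z := by
    intro z hz
    have a1 : HasDerivAt G (deriv G z) z :=
      ((hG z hz).differentiableAt (isOpen_ball.mem_nhds hz)).hasDerivAt
    have a2 := a1.mul ((hg z hz).neg.cexp)
    refine a2.congr_deriv ?_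
    have := hG0 z hz
    field_simp
    ring
  intro z hz
  have h2 := isOpen_ball.is_const_of_deriv_eq_zero (convex_ball (0:ℂ) 1).isPreconnected
    (fun z hz => (hH z hz).differentiableAt.differentiableWithinAt)
    (fun z hz => (hH z hz).deriv) hz h0
  have h3 : G z * Complex.exp (-g z) = 1 := by
    refine h2.trans ?_
    rw [hg0, Complex.exp_neg, Complex.exp_log (hG0 0 h0), mul_inv_cancel₀ (hG0 0 h0)]
  have h4 : Complex.exp (-g z) * Complex.exp (g z) = 1 := by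
    rw [← Complex.exp_add]; simp
  calc Complex.exp (g z) = (G z * Complex.exp (-g z)) * Complex.exp (g z) := by rw [h3, one_mul]
    _ = G z * (Complex.exp (-g z) * Complex.exp (g z)) := by ring
    _ = G z := by rw [h4, mul_one]

theorem powers {T : DA →L[ℂ] DA} {Φ : Pt → Pt} (h : IsComp T Φ) (a : Pt) (ha : ‖(a:ℂ)‖ = 1)
    (hin : ∀ z : Pt, ‖(z:ℂ)‖ < 1 → ‖(Φ z : ℂ)‖ < 1) (N : ℕ)
    (hN : ∀ z : Pt, Φ^[N] z = a ∨ ‖(Φ^[N] z : ℂ)‖ < 1) (G : ℂ → ℂ)
    (hG : DifferentiableOn ℂ G (ball (0:ℂ) 1)) (hG0 : ∀ z ∈ ball (0:ℂ) 1, G z ≠ 0)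
    (hG1 : ∀ z ∈ ball (0:ℂ) 1, ‖G z‖ ≤ 1) :
    ∃ P : ℝ → DA, ∀ s : ℝ, 0 < s → ∀ z : Pt, (Φ^[N] z = a → (P s).1 z = 0) ∧
      (Φ^[N] z ≠ a → ‖(P s).1 z‖ = (‖(a:ℂ) - Φ^[N] z‖ / 2 * ‖G (Φ^[N] z)‖) ^ s) := by
  classical
  obtain ⟨L, hL, hLe⟩ := exists_log845 G hG hG0
  have haa : (a:ℂ) * (starRingEnd ℂ) (a:ℂ) = 1 := by
    rw [Complex.mul_conj, Complex.normSq_eq_norm_sq, ha]; simp
  have hna : ‖(starRingEnd ℂ) (a:ℂ)‖ = 1 := by
    rw [Complex.norm_conj, ha]
  set W : ℂ → ℂ := ext ((T ^ N) Z).1 with hWdef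
  have hW : ∀ z (hz : z ∈ closedBall (0:ℂ) 1), W z = ((Φ^[N] ⟨z, hz⟩ : Pt) : ℂ) := by
    intro z hz
    rw [hWdef, ext_of_mem _ hz, h.pow, Z_apply]
  have hWc : ContinuousOn W (closedBall (0:ℂ) 1) := continuousOn_da _
  have hWd : DifferentiableOn ℂ W (ball (0:ℂ) 1) := differentiableOn_da _
  have hWcases : ∀ z ∈ closedBall (0:ℂ) 1, W z = a ∨ W z ∈ ball (0:ℂ) 1 := by
    intro z hz
    rw [hW z hz]
    rcases hN ⟨z, hz⟩ with h1 | h1
    · left; rw [h1]
    · right; rw [mem_ball_zero_iff]; exact h1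
  have hit : ∀ (n : ℕ) (z : Pt), ‖(z:ℂ)‖ < 1 → ‖(Φ^[n] z : ℂ)‖ < 1 := by
    intro n
    induction n with
    | zero => intro z hz; exact hz
    | succ n ih => intro z hz; rw [Function.iterate_succ_apply]; exact ih _ (hin z hz)
  have hWin : ∀ z ∈ ball (0:ℂ) 1, W z ∈ ball (0:ℂ) 1 := by
    intro z hz
    rw [hW z (ball_subset_closedBall hz), mem_ball_zero_iff]
    exact hit N _ (mem_ball_zero_iff.1 hz)
  have haball : (a:ℂ) ∉ ball (0:ℂ) 1 := by
    rw [mem_ball_zero_iff, ha]; exact lt_irrefl _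
  let w : ℂ → ℂ := fun u => (1 - (starRingEnd ℂ) (a:ℂ) * u) / 2
  have hwre : ∀ u ∈ ball (0:ℂ) 1, 0 < (w u).re := by
    intro u hu
    have h1 : ((starRingEnd ℂ) (a:ℂ) * u).re ≤ ‖u‖ := by
      refine (Complex.re_le_norm _).trans ?_
      rw [norm_mul, hna, one_mul]
    have h2 := mem_ball_zero_iff.1 hu
    have h3 : (w u).re = (1 - ((starRingEnd ℂ) (a:ℂ) * u).re) / 2 := by
      show ((1 - (starRingEnd ℂ) (a:ℂ) * u) / 2).re = _
      rw [Complex.div_ofNat_re, Complex.sub_re, Complex.one_re]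
    rw [h3]
    linarith
  have hwn : ∀ u : ℂ, ‖w u‖ = ‖(a:ℂ) - u‖ / 2 := by
    intro u
    have h1 : (a:ℂ) - u = (a:ℂ) * (1 - (starRingEnd ℂ) (a:ℂ) * u) := by
      linear_combination u * haa
    show ‖(1 - (starRingEnd ℂ) (a:ℂ) * u) / 2‖ = _
    rw [h1, norm_mul, ha, one_mul, norm_div]
    simp
  let F : ℝ → ℂ → ℂ := fun s u => Complex.exp ((s:ℂ) * (Complex.log (w u) + L u))
  have hFn : ∀ s : ℝ, ∀ u ∈ ball (0:ℂ) 1, ‖F s u‖ = (‖(a:ℂ) - u‖ / 2 * ‖G u‖) ^ s := by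
    intro s u hu
    have hw0 : w u ≠ 0 := by
      intro h0
      have := hwre u hu
      rw [h0] at this
      simp at this
    have h1 : ‖G u‖ = Real.exp (L u).re := by
      rw [← hLe u hu, Complex.norm_exp]
    have h2 : 0 < ‖w u‖ := norm_pos_iff.2 hw0
    show ‖Complex.exp ((s:ℂ) * (Complex.log (w u) + L u))‖ = _
    rw [Complex.norm_exp, Complex.re_ofReal_mul, Complex.add_re, Complex.log_re, ← hwn u,
      Real.rpow_def_of_pos (mul_pos h2 (by rw [h1]; exact Real.exp_pos _)),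
      Real.log_mul h2.ne' (by rw [h1]; exact (Real.exp_pos _).ne'), h1, Real.log_exp]
    congr 1
    ring
  have hFd : ∀ s : ℝ, DifferentiableOn ℂ (F s) (ball (0:ℂ) 1) := by
    intro s u hu
    have hwd : DifferentiableAt ℂ w u := by
      show DifferentiableAt ℂ (fun u => (1 - (starRingEnd ℂ) (a:ℂ) * u) / 2) u
      fun_prop
    have h1 : DifferentiableAt ℂ (fun u => Complex.log (w u)) u :=
      hwd.clog (Complex.mem_slitPlane_iff.2 (Or.inl (hwre u hu)))
    have h2 : DifferentiableAt ℂ L u := (hL u hu).differentiableAt (isOpen_ball.mem_nhds hu)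
    exact (((h1.add h2).const_mul (s:ℂ)).cexp).differentiableWithinAt
  have hex : ∀ s : ℝ, 0 < s → ∃ f : DA, ∀ z : Pt,
      f.1 z = (fun z => if W z = (a:ℂ) then (0:ℂ) else F s (W z)) (z:ℂ) := by
    intro s hs
    refine exists_da (fun z => if W z = (a:ℂ) then (0:ℂ) else F s (W z)) ?_ ?_
    · intro z hz
      rcases hWcases z hz with h1 | h1
      · have hlim : Tendsto (fun z' => (‖(a:ℂ) - W z'‖ / 2) ^ s) (𝓝[closedBall (0:ℂ) 1] z) (𝓝 0) := by
          have h2 : Tendsto (fun z' => ‖(a:ℂ) - W z'‖ / 2) (𝓝[closedBall (0:ℂ) 1] z) (𝓝 0) := by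
            have h3 : Tendsto (fun z' => ‖(a:ℂ) - W z'‖ / 2) (𝓝[closedBall (0:ℂ) 1] z)
                (𝓝 (‖(a:ℂ) - W z‖ / 2)) := ((tendsto_const_nhds.sub (hWc z hz)).norm).div_const 2
            rw [h1] at h3
            simpa using h3
          have h4 := h2.rpow_const (p := s) (Or.inr hs.le)
          rwa [Real.zero_rpow hs.ne'] at h4
        show Tendsto _ _ (𝓝 _)
        simp only [h1, if_true]
        refine squeeze_zero_norm' ?_ hlim
        filter_upwards [self_mem_nhdsWithin] with z' hz'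
        rcases hWcases z' hz' with h5 | h5
        · rw [if_pos h5, norm_zero]
          positivity
        · have h7 : W z' ≠ (a:ℂ) := fun h6 => haball (h6 ▸ h5)
          rw [if_neg h7, hFn s _ h5]
          refine Real.rpow_le_rpow (by positivity) ?_ hs.le
          exact mul_le_of_le_one_right (by positivity) (hG1 _ h5)
      · have h2 : ∀ᶠ z' in 𝓝[closedBall (0:ℂ) 1] z, W z' ∈ ball (0:ℂ) 1 :=
          (hWc z hz) (isOpen_ball.mem_nhds h1)
        have h3 : ContinuousWithinAt (fun z => F s (W z)) (closedBall (0:ℂ) 1) z :=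
          (((hFd s) _ h1).differentiableAt (isOpen_ball.mem_nhds h1)).continuousAt.comp_continuousWithinAt
            (hWc z hz)
        refine h3.congr_of_eventuallyEq ?_ ?_
        · filter_upwards [h2] with z' h5
          have h7 : W z' ≠ (a:ℂ) := fun h6 => haball (h6 ▸ h5)
          exact if_neg h7
        · have h7 : W z ≠ (a:ℂ) := fun h6 => haball (h6 ▸ h1)
          exact if_neg h7
    · refine DifferentiableOn.congr (f := fun z => F s (W z)) ?_ ?_
      · exact (hFd s).comp hWd hWin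
      · intro z hz
        have h7 : W z ≠ (a:ℂ) := fun h6 => haball (h6 ▸ hWin z hz)
        exact if_neg h7
  choose! P hP using hex
  refine ⟨P, fun s hs z => ⟨fun h1 => ?_, fun h1 => ?_⟩⟩
  · rw [hP s hs z]
    simp only
    rw [if_pos]
    rw [hW z z.2, ← h1]
  · have h2 : W z = (Φ^[N] z : ℂ) := hW z z.2
    have h3 : W z ≠ a := by
      rw [h2]
      intro h4
      exact h1 (Subtype.ext h4)
    rw [hP s hs z]
    simp only
    rw [if_neg h3]
    rcases hWcases z z.2 with h5 | h5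
    · exact absurd h5 h3
    · rw [hFn s _ h5, h2]

end Pool.Agent.Helper203.DS
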