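import Pool.Agent.Helper203.DS.Defs2

open Metric Set Filter Topology

noncomputable section

namespace Pool.Agent.Helper203.DS

theorem real_contra (u : ℕ → ℝ) (C K r1 r2 : ℝ) (hr1 : 0 < r1) (h12 : r1 < r2) (hr2 : r2 < 1)
    (hC : 0 < C) (hu0 : ∀ n, 0 < u n) (hu1 : ∀ n, u n ≤ 1) (hK : ∀ n, u n ≤ K * r1 ^ n)
    (h : ∀ s : ℝ, 0 < s → ∀ n k : ℕ, u n ^ s ≤ C * (r1 ^ n + u (n + k) ^ s / r2 ^ k)) : False := by
  set w : ℕ → ℝ := fun n => -Real.log (u n) with hw
  have hexp : ∀ n, u n = Real.exp (-(w n)) := by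
    intro n; simp [hw, Real.exp_log (hu0 n)]
  obtain ⟨a1, ha1⟩ : ∃ a1 : ℝ, a1 = -Real.log r1 := ⟨_, rfl⟩
  obtain ⟨a2, ha2⟩ : ∃ a2 : ℝ, a2 = -Real.log r2 := ⟨_, rfl⟩
  have hr2p : 0 < r2 := hr1.trans h12
  have ha2p : 0 < a2 := by have := Real.log_neg hr2p hr2; linarith
  have ha12 : a2 < a1 := by have := Real.log_lt_log hr1 h12; linarith
  have ha1p : 0 < a1 := ha2p.trans ha12
  have hr1e : ∀ n : ℕ, r1 ^ n = Real.exp (-(a1 * n)) := by
    intro n
    rw [ha1, show -(-Real.log r1 * (n:ℝ)) = (n:ℝ) * Real.log r1 by ring, Real.exp_nat_mul,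
      Real.exp_log hr1]
  have hr2e : ∀ n : ℕ, r2 ^ n = Real.exp (-(a2 * n)) := by
    intro n
    rw [ha2, show -(-Real.log r2 * (n:ℝ)) = (n:ℝ) * Real.log r2 by ring, Real.exp_nat_mul,
      Real.exp_log hr2p]
  have hKpos : 0 < K := by
    have h1 := hK 0
    have h2 := hu0 0
    rw [pow_zero, mul_one] at h1
    linarith
  obtain ⟨c, hc⟩ : ∃ c : ℝ, c = Real.log K := ⟨_, rfl⟩
  have hlow : ∀ n : ℕ, a1 * n - c ≤ w n := by
    intro n
    have h1 := hK n
    rw [hexp n, hr1e n, ← Real.exp_log hKpos, ← Real.exp_add, Real.exp_le_exp, ← hc] at h1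
    linarith
  obtain ⟨C', hC'⟩ : ∃ C' : ℝ, C' = max C 1 := ⟨_, rfl⟩
  have hC'1 : 1 ≤ C' := hC' ▸ le_max_right _ _
  have hCC' : C ≤ C' := hC' ▸ le_max_left _ _
  obtain ⟨b, hb⟩ : ∃ b : ℝ, b = Real.log (2 * C') := ⟨_, rfl⟩
  have hbp : 0 < b := by rw [hb]; exact Real.log_pos (by linarith)
  have key : ∀ n : ℕ, b < a1 * n → 0 < w n → ∀ k : ℕ,
      w (n + k) * (a1 * n - b) ≤ (a1 * n + a2 * k) * w n := by
    intro n hn hwn k
    obtain ⟨s, hs⟩ : ∃ s : ℝ, s = (a1 * n - b) / w n := ⟨_, rfl⟩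
    have hsp : 0 < s := by rw [hs]; exact div_pos (by linarith) hwn
    have hsw : s * w n = a1 * n - b := by rw [hs]; exact div_mul_cancel₀ _ hwn.ne'
    have h1 := h s hsp n k
    have e1 : u n ^ s = 2 * C' * r1 ^ n := by
      rw [hexp n, ← Real.exp_mul, hr1e n, show -(w n) * s = b + -(a1 * n) by linarith,
        Real.exp_add, hb, Real.exp_log (by linarith)]
    have e2 : u (n + k) ^ s = Real.exp (-(w (n + k)) * s) := by
      rw [hexp (n + k), ← Real.exp_mul]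
    rw [e1, e2] at h1
    have hr1n : 0 < r1 ^ n := pow_pos hr1 n
    have hr2k : 0 < r2 ^ k := pow_pos hr2p k
    have hX : 0 < Real.exp (-(w (n + k)) * s) := Real.exp_pos _
    have h3 : C * (r1 ^ n + Real.exp (-(w (n + k)) * s) / r2 ^ k) ≤
        C' * (r1 ^ n + Real.exp (-(w (n + k)) * s) / r2 ^ k) :=
      mul_le_mul_of_nonneg_right hCC' (by positivity)
    have h4 : r1 ^ n ≤ Real.exp (-(w (n + k)) * s) / r2 ^ k := by
      have h5 : C' * (2 * r1 ^ n) ≤ C' * (r1 ^ n + Real.exp (-(w (n + k)) * s) / r2 ^ k) := by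
        linarith
      have h6 := le_of_mul_le_mul_left h5 (by linarith)
      linarith
    have h5 := (le_div_iff₀ hr2k).1 h4
    rw [hr1e n, hr2e k, ← Real.exp_add, Real.exp_le_exp] at h5
    have h6 : w (n + k) * s ≤ a1 * n + a2 * k := by linarith
    have h7 := mul_le_mul_of_nonneg_right h6 hwn.le
    calc w (n + k) * (a1 * n - b) = w (n + k) * s * w n := by rw [← hsw]; ring
      _ ≤ _ := h7
  obtain ⟨q, hq⟩ : ∃ q : ℝ, q = (a1 + a2) / (2 * a1) := ⟨_, rfl⟩
  have hqa : q * a1 = (a1 + a2) / 2 := by rw [hq]; field_simp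
  have hqp : 0 < q := by rw [hq]; positivity
  have hq1 : q < 1 := by
    rw [hq, div_lt_one (by linarith)]; linarith
  have tn : Tendsto (fun n : ℕ => (n : ℝ)) atTop atTop := tendsto_natCast_atTop_atTop
  have ta1 : Tendsto (fun n : ℕ => a1 * (n : ℝ)) atTop atTop := tn.const_mul_atTop ha1p
  have td : Tendsto (fun n : ℕ => ((a1 - a2) / 2) * (n : ℝ)) atTop atTop :=
    tn.const_mul_atTop (by linarith)
  have step : ∀ M : ℝ, 0 < M → (∃ m0 : ℕ, ∀ m ≥ m0, w m ≤ M * m) →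
      ∃ m1 : ℕ, ∀ m ≥ m1, w m ≤ (q * M) * m := by
    rintro M hM ⟨m0, hm0⟩
    obtain ⟨n, ⟨⟨⟨hn0, hnb⟩, hnc⟩, hnd⟩, hn1⟩ := ((((eventually_ge_atTop m0).and
      (ta1.eventually_gt_atTop b)).and (ta1.eventually_gt_atTop c)).and
      (td.eventually_gt_atTop (q * b))).and (eventually_ge_atTop 1) |>.exists
    have hwn : 0 < w n := lt_of_lt_of_le (by linarith) (hlow n)
    obtain ⟨δ, hδ⟩ : ∃ δ : ℝ, δ = q * (a1 * n - b) - a2 * n := ⟨_, rfl⟩
    have hδp : 0 < δ := by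
      have : q * (a1 * n - b) - a2 * n = ((a1 - a2) / 2) * n - q * b := by
        have : q * (a1 * n - b) = (q * a1) * n - q * b := by ring
        rw [this, hqa]; ring
      rw [hδ, this]; linarith
    obtain ⟨K0, hK0⟩ := exists_nat_gt (a1 * n * n / δ)
    refine ⟨n + K0, fun m hm => ?_⟩
    obtain ⟨k, rfl⟩ := Nat.exists_eq_add_of_le (le_trans (Nat.le_add_right n K0) hm)
    have hkK : (K0 : ℝ) ≤ k := by exact_mod_cast (by omega : K0 ≤ k)
    have hk1 : a1 * n * n < k * δ := by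
      have := (div_lt_iff₀ hδp).1 (lt_of_lt_of_le hK0 hkK)
      exact this
    have hk := key n hnb hwn k
    have hMn := hm0 n hn0
    have hnn : (0:ℝ) ≤ n := Nat.cast_nonneg n
    have hkn : (0:ℝ) ≤ k := Nat.cast_nonneg k
    have hcoef : 0 ≤ a1 * n + a2 * k := by positivity
    have h1 : (a1 * n + a2 * k) * w n ≤ (a1 * n + a2 * k) * (M * n) :=
      mul_le_mul_of_nonneg_left hMn hcoef
    have hab : 0 < a1 * n - b := by linarith
    have h2 : (a1 * n + a2 * k) * n ≤ q * (n + k) * (a1 * n - b) := by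
      have h3 : 0 ≤ q * n * (a1 * n - b) := by positivity
      rw [hδ] at hk1
      nlinarith
    have h4 : (a1 * n + a2 * k) * (M * n) ≤ (q * M * (n + k)) * (a1 * n - b) := by
      have := mul_le_mul_of_nonneg_left h2 hM.le
      linarith
    have h5 : w (n + k) * (a1 * n - b) ≤ (q * M * (n + k)) * (a1 * n - b) := by linarith
    have h6 := le_of_mul_le_mul_right h5 hab
    push_cast
    exact h6
  -- initial bound
  obtain ⟨n, ⟨hnb, hnc⟩, hn1⟩ := ((ta1.eventually_gt_atTop b).and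
    (ta1.eventually_gt_atTop c)).and (eventually_ge_atTop 1) |>.exists
  have hwn : 0 < w n := lt_of_lt_of_le (by linarith) (hlow n)
  obtain ⟨M, hM⟩ : ∃ M : ℝ, M = (a1 + a2) * w n / (a1 * n - b) := ⟨_, rfl⟩
  have hab : 0 < a1 * n - b := by linarith
  have hMp : 0 < M := by rw [hM]; positivity
  have init : ∃ m0 : ℕ, ∀ m ≥ m0, w m ≤ M * m := by
    refine ⟨n, fun m hm => ?_⟩
    obtain ⟨k, rfl⟩ := Nat.exists_eq_add_of_le hm
    have hk := key n hnb hwn k
    have hnn : (0:ℝ) ≤ n := Nat.cast_nonneg n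
    have hkn : (0:ℝ) ≤ k := Nat.cast_nonneg k
    have hMe : M * (a1 * n - b) = (a1 + a2) * w n := by rw [hM]; exact div_mul_cancel₀ _ hab.ne'
    have h1 : (a1 * n + a2 * k) * w n ≤ ((a1 + a2) * w n) * (n + k) := by
      have h2 : a1 * n + a2 * k ≤ (a1 + a2) * (n + k) := by nlinarith
      have := mul_le_mul_of_nonneg_right h2 hwn.le
      linarith
    have h5 : w (n + k) * (a1 * n - b) ≤ (M * (n + k)) * (a1 * n - b) := by
      calc _ ≤ _ := hk
        _ ≤ _ := h1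
        _ = M * (a1 * n - b) * (n + k) := by rw [hMe]
        _ = _ := by ring
    have h6 := le_of_mul_le_mul_right h5 hab
    push_cast
    exact h6
  have iter : ∀ j : ℕ, ∃ m0 : ℕ, ∀ m ≥ m0, w m ≤ (q ^ j * M) * m := by
    intro j
    induction j with
    | zero => simpa using init
    | succ j ih =>
      obtain ⟨m1, hm1⟩ := step (q ^ j * M) (by positivity) ih
      refine ⟨m1, fun m hm => ?_⟩
      have := hm1 m hm
      rw [pow_succ]
      calc w m ≤ q * (q ^ j * M) * m := this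
        _ = _ := by ring
  have hge : ∀ j : ℕ, a1 ≤ q ^ j * M := by
    intro j
    by_contra hlt
    push Not at hlt
    obtain ⟨m0, hm0⟩ := iter j
    have te : Tendsto (fun n : ℕ => (a1 - q ^ j * M) * (n : ℝ)) atTop atTop :=
      tn.const_mul_atTop (by linarith)
    obtain ⟨m, hm, hm'⟩ := ((eventually_ge_atTop m0).and (te.eventually_gt_atTop c)).exists
    have h1 := hm0 m hm
    have h2 := hlow m
    nlinarith
  obtain ⟨j, hj⟩ := exists_pow_lt_of_lt_one (div_pos ha1p hMp) hq1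
  have h1 := hge j
  have h2 := (lt_div_iff₀ hMp).1 hj
  linarith

end Pool.Agent.Helper203.DS
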