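import Pool.Agent.Helper203.DS.Base
import Pool.Agent.Helper203.DS.Char

open Metric Set Filter Topology

noncomputable section

namespace Pool.Agent.Helper203.DS

theorem T_one_cases (T : DA →L[ℂ] DA) (hT : ∀ f g, T (f * g) = T f * T g) :
    T = 0 ∨ T 1 = 1 := by
  have he : ∀ z : Pt, (T 1).1 z = 0 ∨ (T 1).1 z = 1 := by
    intro z
    have h := hT 1 1
    rw [mul_one] at h
    have h2 : (T 1).1 z = (T 1).1 z * (T 1).1 z := by
      conv_lhs => rw [h]
      rfl
    have h3 : (T 1).1 z * ((T 1).1 z - 1) = 0 := by rw [mul_sub, ← h2]; ring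
    rcases mul_eq_zero.1 h3 with h4 | h4
    · exact Or.inl h4
    · exact Or.inr (sub_eq_zero.1 h4)
  have hpc : PreconnectedSpace Pt :=
    Subtype.preconnectedSpace ((convex_closedBall (0:ℂ) 1).isPreconnected)
  by_cases hz : ∃ z : Pt, (T 1).1 z = 0
  · by_cases hw : ∃ w : Pt, (T 1).1 w = 1
    · exfalso
      obtain ⟨z, hz⟩ := hz
      obtain ⟨w, hw⟩ := hw
      have hc : Continuous fun x : Pt => ((T 1).1 x).re :=
        Complex.continuous_re.comp (continuous_da (T 1))
      have h1 : (1/2 : ℝ) ∈ Set.range fun x : Pt => ((T 1).1 x).re :=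
        mem_range_of_exists_le_of_exists_ge hc ⟨z, by rw [hz]; norm_num⟩ ⟨w, by rw [hw]; norm_num⟩
      obtain ⟨x, hx⟩ := h1
      rcases he x with h2 | h2
      · simp only [h2] at hx; norm_num at hx
      · simp only [h2] at hx; norm_num at hx
    · left
      push Not at hw
      have h0 : T 1 = 0 := by
        apply da_ext
        intro z
        rcases he z with h2 | h2
        · rw [h2, zero_apply]
        · exact absurd h2 (hw z)
      ext1 f
      have h3 := hT f 1
      rw [mul_one, h0, mul_zero] at h3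
      rw [h3]
      rfl
  · right
    push Not at hz
    apply da_ext
    intro z
    rcases he z with h2 | h2
    · exact absurd h2 (hz z)
    · rw [h2, one_apply]

theorem exists_phi (T : DA →L[ℂ] DA) (hT : ∀ f g, T (f * g) = T f * T g) (h1 : T 1 = 1) :
    ∃ Φ : Pt → Pt, IsComp T Φ := by
  have h : ∀ z : Pt, ∃ y : Pt, ∀ f, (T f).1 z = f.1 y := by
    intro z
    apply char_eval (fun f => (T f).1 z)
    · intro f g
      simp only [map_add, add_apply]
    · intro c f
      simp only [map_smul, smul_apply]
    · intro f g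
      simp only [hT, mul_apply]
    · simp only [h1, one_apply]
  choose Φ hΦ using h
  refine ⟨Φ, ⟨?_, fun f z => hΦ z f⟩⟩
  rw [continuous_induced_rng]
  have : ((↑) : Pt → ℂ) ∘ Φ = (T Z).1 := by
    funext z
    rw [hΦ z Z, Z_apply]
    rfl
  rw [this]
  exact continuous_da _

end Pool.Agent.Helper203.DS
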