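import Pool.Agent.Helper203.DS.Base
import Pool.Agent.Helper203.DS.Div
import Pool.Agent.Helper203.DS.Phi

open Metric Set Filter Topology

noncomputable section

namespace Pool.Agent.Helper203.DS

theorem inv_comp {T : DA →L[ℂ] DA} {Φ : Pt → Pt} (h : IsComp T Φ) (hu : IsUnit T) :
    ∃ (S : DA →L[ℂ] DA) (Ψ : Pt → Pt), IsComp S Ψ ∧ T * S = 1 ∧ S * T = 1 ∧
      (∀ z, Ψ (Φ z) = z) ∧ (∀ z, Φ (Ψ z) = z) := by
  obtain ⟨S, hTS, hST⟩ := isUnit_iff_exists.1 hu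
  have h1 : ∀ f, T (S f) = f := fun f => by
    have := congrArg (fun A : DA →L[ℂ] DA => A f) hTS
    exact this
  have h2 : ∀ f, S (T f) = f := fun f => by
    have := congrArg (fun A : DA →L[ℂ] DA => A f) hST
    exact this
  have hmul : ∀ f g, S (f * g) = S f * S g := by
    intro f g
    have e : T (S f * S g) = f * g := by rw [h.mul, h1, h1]
    rw [← e, h2]
  have hone : S 1 = 1 := by
    have := h2 1
    rwa [h.one] at this
  obtain ⟨Ψ, hΨ⟩ := exists_phi S hmul hone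
  refine ⟨S, Ψ, hΨ, hTS, hST, ?_, ?_⟩
  · intro z
    have e : (T (S Z)).1 z = Z.1 z := by rw [h1]
    rw [h.eq, hΨ.eq] at e
    exact Subtype.ext e
  · intro z
    have e : (S (T Z)).1 z = Z.1 z := by rw [h2]
    rw [hΨ.eq, h.eq] at e
    exact Subtype.ext e

theorem isometry_of_unit {T : DA →L[ℂ] DA} {Φ : Pt → Pt} (h : IsComp T Φ) (hu : IsUnit T) :
    ∀ f, ‖T f‖ = ‖f‖ := by
  intro f
  obtain ⟨S, Ψ, hS, hTS, hST, -, -⟩ := inv_comp h hu
  apply le_antisymm (h.norm_le f)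
  have h2 : S (T f) = f := by
    have := congrArg (fun A : DA →L[ℂ] DA => A f) hST
    exact this
  calc ‖f‖ = ‖S (T f)‖ := by rw [h2]
    _ ≤ ‖T f‖ := hS.norm_le _

theorem spectrum_sphere_aux {A : Type*} [NormedRing A] [NormedAlgebra ℂ A] [CompleteSpace A]
    [NormOneClass A] {T S : A} (hTS : T * S = 1) (hST : S * T = 1) (hT : ‖T‖ ≤ 1) (hS : ‖S‖ ≤ 1) :
    ∀ l ∈ spectrum ℂ T, ‖l‖ = 1 := by
  intro l hl
  have hl1 : ‖l‖ ≤ 1 := (spectrum.norm_le_norm_of_mem hl).trans hT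
  by_contra hne
  have hlt : ‖l‖ < 1 := lt_of_le_of_ne hl1 hne
  have hsm : ‖l • S‖ < 1 := by
    rw [norm_smul]
    calc ‖l‖ * ‖S‖ ≤ ‖l‖ * 1 := mul_le_mul_of_nonneg_left hS (norm_nonneg _)
      _ < 1 := by rw [mul_one]; exact hlt
  have hu : IsUnit T := isUnit_iff_exists.2 ⟨S, hTS, hST⟩
  have hunit : IsUnit (1 - l • S) := isUnit_one_sub_of_norm_lt_one hsm
  have hprod : IsUnit (T * (1 - l • S)) := hu.mul hunit
  have he : T * (1 - l • S) = - (algebraMap ℂ A l - T) := by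
    rw [mul_sub, mul_one, mul_smul_comm, hTS, Algebra.algebraMap_eq_smul_one, neg_sub]
  rw [he, IsUnit.neg_iff] at hprod
  exact (spectrum.mem_iff.1 hl) hprod

theorem spectrum_sphere {T : DA →L[ℂ] DA} {Φ : Pt → Pt} (h : IsComp T Φ) (hu : IsUnit T) :
    ∀ l ∈ spectrum ℂ T, ‖l‖ = 1 := by
  obtain ⟨S, Ψ, hS, hTS, hST, -, -⟩ := inv_comp h hu
  have hT1 : ‖T‖ ≤ 1 := ContinuousLinearMap.opNorm_le_bound _ zero_le_one
    fun f => by rw [one_mul]; exact h.norm_le f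
  have hS1 : ‖S‖ ≤ 1 := ContinuousLinearMap.opNorm_le_bound _ zero_le_one
    fun f => by rw [one_mul]; exact hS.norm_le f
  exact spectrum_sphere_aux (A := DA →L[ℂ] DA) hTS hST hT1 hS1

theorem map_sphere {T : DA →L[ℂ] DA} {Φ : Pt → Pt} (h : IsComp T Φ) (hu : IsUnit T) (z : Pt)
    (hz : ‖(z:ℂ)‖ = 1) : ‖(Φ z : ℂ)‖ = 1 := by
  obtain ⟨S, Ψ, hS, hTS, hST, hΨΦ, -⟩ := inv_comp h hu
  have hle : ‖(Φ z : ℂ)‖ ≤ 1 := by
    have := (Φ z).2
    rwa [mem_closedBall_zero_iff] at this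
  by_contra hne
  have hlt : ‖(Φ z : ℂ)‖ < 1 := lt_of_le_of_ne hle hne
  let p : DA := (1 / 2 : ℂ) • (1 + (starRingEnd ℂ) (z:ℂ) • Z)
  have hp : ∀ w : Pt, p.1 w = (1 / 2) * (1 + (starRingEnd ℂ) (z:ℂ) * w) := fun w => by
    simp only [p, smul_apply, add_apply, one_apply, Z_apply]
  have hpn : ‖p‖ ≤ 1 := by
    apply norm_le_of zero_le_one
    intro w
    rw [hp]
    have hw : ‖(w:ℂ)‖ ≤ 1 := by
      have := w.2
      rwa [mem_closedBall_zero_iff] at this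
    have h3 : ‖(1:ℂ) + (starRingEnd ℂ) (z:ℂ) * w‖ ≤ 1 + 1 := by
      refine (norm_add_le _ _).trans ?_
      rw [norm_one, norm_mul, RCLike.norm_conj, hz, one_mul]
      linarith
    rw [norm_mul]
    have h4 : ‖(1 / 2 : ℂ)‖ = 1 / 2 := by norm_num
    rw [h4]
    linarith
  have hpz : p.1 z = 1 := by
    rw [hp]
    have : (starRingEnd ℂ) (z:ℂ) * z = 1 := by
      rw [mul_comm, Complex.mul_conj, Complex.normSq_eq_norm_sq, hz]
      norm_num
    rw [this]; norm_num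
  have hSp : (S p).1 (Φ z) = 1 := by
    rw [hS.eq, hΨΦ, hpz]
  have hconst := const_of_max (S p) (Φ z) hlt (fun w => by
    rw [hSp, norm_one]
    exact (norm_apply_le _ _).trans ((hS.norm_le p).trans hpn))
  have hS1 : S p = 1 := da_ext fun w => by rw [hconst w, hSp, one_apply]
  have hp1 : p = 1 := by
    have h1 : T (S p) = p := by
      have := congrArg (fun A : DA →L[ℂ] DA => A p) hTS
      exact this
    rw [← h1, hS1, h.one]
  have h0 := hp ⟨0, by simp⟩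
  rw [hp1, one_apply] at h0
  simp at h0

end Pool.Agent.Helper203.DS
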