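import Pool.Agent.Helper203.DS.Defs3
import Pool.Agent.Helper203.DS.CayL

open Metric Set Filter Topology

noncomputable section

namespace Pool.Agent.Helper203.DS

theorem ip_cre (a : ℂ) (ha : ‖a‖ = 1) (z : ℂ) (hz : z ∈ Metric.closedBall (0:ℂ) 1) (hza : z ≠ a) :
    0 ≤ (Cay a z).re := by
  rw [cay_re a z ha hza]
  have h1 : ‖z‖ ≤ 1 := by simpa using hz
  apply div_nonneg _ (by positivity)
  nlinarith [norm_nonneg z]

theorem ip_cre_pos (a : ℂ) (ha : ‖a‖ = 1) (z : ℂ) (hz : ‖z‖ < 1) (hza : z ≠ a) :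
    0 < (Cay a z).re := by
  rw [cay_re a z ha hza]
  have h2 : 0 < ‖a - z‖ := norm_pos_iff.mpr (sub_ne_zero.mpr (Ne.symm hza))
  apply div_pos _ (by positivity)
  nlinarith [norm_nonneg z]

theorem ip_ne (ζ x : ℂ) (hζ : 0 ≤ ζ.re) (hx : 0 < x.re) : ζ + (starRingEnd ℂ) x ≠ 0 := by
  intro h
  have h3 := congrArg Complex.re h
  simp at h3
  linarith

theorem ip_frac (ζ x : ℂ) (hζ : 0 ≤ ζ.re) (hx : 0 < x.re) :
    1 - 2 * (x.re : ℂ) * (ζ + (starRingEnd ℂ) x)⁻¹ = (ζ - x) / (ζ + (starRingEnd ℂ) x) := by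
  have h := ip_ne ζ x hζ hx
  have h2 : x + (starRingEnd ℂ) x = 2 * (x.re : ℂ) := by
    rw [Complex.add_conj]; push_cast; ring
  rw [eq_div_iff h, sub_mul, mul_assoc, inv_mul_cancel₀ h, ← h2]
  ring

theorem ip_nsub (ζ x : ℂ) : ‖ζ - x‖ ^ 2 = (ζ.re - x.re) ^ 2 + (ζ.im - x.im) ^ 2 := by
  rw [← Complex.normSq_eq_norm_sq, Complex.normSq_apply]
  simp; ring

theorem ip_nadd (ζ x : ℂ) :
    ‖ζ + (starRingEnd ℂ) x‖ ^ 2 = (ζ.re + x.re) ^ 2 + (ζ.im - x.im) ^ 2 := by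
  rw [← Complex.normSq_eq_norm_sq, Complex.normSq_apply]
  simp; ring

theorem ip_kap (a x : ℂ) (ha : ‖a‖ = 1) (hx : 0 < x.re) : ∃ K : DA,
    (∀ z : Pt, (z:ℂ) ≠ a → K.1 z = (Cay a z + (starRingEnd ℂ) x)⁻¹) ∧
    (∀ z : Pt, (z:ℂ) = a → K.1 z = 0) := by
  have ha0 : a ≠ 0 := by
    intro h; rw [h] at ha; simp at ha
  have hD : ∀ z ∈ Metric.closedBall (0:ℂ) 1, (a + z) + (starRingEnd ℂ) x * (a - z) ≠ 0 := by
    intro z hz h0
    by_cases hza : z = a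
    · rw [hza] at h0
      have : 2 * a = 0 := by linear_combination h0
      simp [ha0] at this
    · have h1 : a - z ≠ 0 := sub_ne_zero.mpr (Ne.symm hza)
      apply ip_ne (Cay a z) x (ip_cre a ha z hz hza) hx
      unfold Cay
      have : (a + z) / (a - z) + (starRingEnd ℂ) x =
          ((a + z) + (starRingEnd ℂ) x * (a - z)) / (a - z) := by field_simp
      rw [this, h0, zero_div]
  obtain ⟨K, hK⟩ := exists_da (fun z => (a - z) / ((a + z) + (starRingEnd ℂ) x * (a - z)))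
    (ContinuousOn.div (by fun_prop) (by fun_prop) hD)
    (DifferentiableOn.div (by fun_prop) (by fun_prop)
      (fun z hz => hD z (Metric.ball_subset_closedBall hz)))
  refine ⟨K, fun z hz => ?_, fun z hz => ?_⟩
  · rw [hK]
    have h1 : a - (z:ℂ) ≠ 0 := sub_ne_zero.mpr (Ne.symm hz)
    unfold Cay
    have : (a + (z:ℂ)) / (a - z) + (starRingEnd ℂ) x =
        ((a + z) + (starRingEnd ℂ) x * (a - z)) / (a - z) := by field_simp
    rw [this, inv_div]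
  · rw [hK, hz]; simp

theorem ip_low (A d : ℝ) (x y : ℂ) (hx : 0 < x.re) (hy : 0 < y.re) (hxA : x.re ≤ A)
    (hyA : y.re ≤ A) (hd : 0 < d) (hdd : d ≤ |y.im - x.im|) :
    0 < ‖(y - x) / (y + (starRingEnd ℂ) x)‖ ∧
    ‖(y - x) / (y + (starRingEnd ℂ) x)‖⁻¹ ≤ Real.exp (2 * A ^ 2 / d ^ 2) := by
  have hne := ip_ne y x hy.le hx
  have h1 := ip_nsub y x
  have h2 := ip_nadd y x
  have hd2 : d ^ 2 ≤ (y.im - x.im) ^ 2 := by
    rw [← sq_abs (y.im - x.im)]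
    exact pow_le_pow_left₀ hd.le hdd 2
  have hdp : 0 < d ^ 2 := by positivity
  have h3 : 0 < ‖y - x‖ := by
    have : 0 < ‖y - x‖ ^ 2 := by rw [h1]; nlinarith [sq_nonneg (y.re - x.re)]
    exact lt_of_le_of_ne (norm_nonneg _) (fun h => by rw [← h] at this; norm_num at this)
  have h4 : 0 < ‖y + (starRingEnd ℂ) x‖ := norm_pos_iff.mpr hne
  rw [norm_div]
  refine ⟨div_pos h3 h4, ?_⟩
  rw [inv_div]
  apply le_of_sq_le_sq _ (Real.exp_pos _).le
  rw [div_pow, div_le_iff₀ (by positivity), ← Real.exp_nat_mul]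
  have h5 : 1 + 4 * A ^ 2 / d ^ 2 ≤ Real.exp ((2:ℕ) * (2 * A ^ 2 / d ^ 2)) := by
    have := Real.add_one_le_exp ((2:ℕ) * (2 * A ^ 2 / d ^ 2))
    have e : ((2:ℕ):ℝ) * (2 * A ^ 2 / d ^ 2) = 4 * A ^ 2 / d ^ 2 := by push_cast; ring
    rw [e] at this ⊢
    linarith
  have h6 : ‖y + (starRingEnd ℂ) x‖ ^ 2 ≤ (1 + 4 * A ^ 2 / d ^ 2) * ‖y - x‖ ^ 2 := by
    rw [h1, h2]
    have h7 : (y.re + x.re) ^ 2 ≤ 4 * A ^ 2 := by nlinarith
    have h8 : 4 * A ^ 2 ≤ 4 * A ^ 2 / d ^ 2 * (y.im - x.im) ^ 2 := by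
      rw [div_mul_eq_mul_div, le_div_iff₀ hdp]
      nlinarith [sq_nonneg A]
    have h9 : 0 ≤ 4 * A ^ 2 / d ^ 2 := by positivity
    nlinarith [sq_nonneg (y.re - x.re), mul_nonneg h9 (sq_nonneg (y.re - x.re))]
  exact h6.trans (mul_le_mul_of_nonneg_right h5 (by positivity))

theorem ip_up (A : ℝ) (hA : 0 < A) (ζ x : ℂ) (hζ : 0 ≤ ζ.re) (hx : 0 < x.re) (hxA : x.re ≤ A) :
    ‖2 * (x.re : ℂ) * (ζ + (starRingEnd ℂ) x)⁻¹‖ ^ 2 ≤
      4 * A ^ 2 / (A ^ 2 + (ζ.im - x.im) ^ 2) := by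
  have hne := ip_ne ζ x hζ hx
  have h4 : 0 < ‖ζ + (starRingEnd ℂ) x‖ := norm_pos_iff.mpr hne
  rw [norm_mul, norm_inv, norm_mul, Complex.norm_real, Complex.norm_two, Real.norm_eq_abs,
    abs_of_pos hx, ← div_eq_mul_inv, div_pow, ip_nadd]
  have h5 : 0 < (ζ.re + x.re) ^ 2 + (ζ.im - x.im) ^ 2 := by
    have : 0 < (ζ.re + x.re) ^ 2 := by positivity
    nlinarith [sq_nonneg (ζ.im - x.im)]
  rw [div_le_div_iff₀ h5 (by positivity)]
  have h6 : x.re ^ 2 ≤ A ^ 2 := pow_le_pow_left₀ hx.le hxA 2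
  have h7 : x.re ^ 2 ≤ (ζ.re + x.re) ^ 2 := pow_le_pow_left₀ hx.le (by linarith) 2
  nlinarith [mul_le_mul_of_nonneg_right h6 (sq_nonneg (ζ.im - x.im)),
    mul_le_mul_of_nonneg_left h7 (sq_nonneg A)]

theorem ip_shift (N : ℕ) (j : ℕ) :
    ∑ k ∈ Finset.range (N + 1), 1 / ((k:ℝ) - (j:ℝ)) ^ 2 ≤ ∑' n : ℤ, 1 / (n:ℝ) ^ 2 := by
  have hsum : Summable (fun n : ℤ => 1 / (n:ℝ) ^ 2) :=
    Real.summable_one_div_int_pow.mpr (by norm_num)
  have h1 : ∑ k ∈ Finset.range (N + 1), 1 / ((k:ℝ) - (j:ℝ)) ^ 2 =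
      ∑ n ∈ (Finset.range (N + 1)).image (fun k : ℕ => (k:ℤ) - (j:ℤ)), 1 / (n:ℝ) ^ 2 := by
    rw [Finset.sum_image]
    · refine Finset.sum_congr rfl fun k _ => ?_
      push_cast; rfl
    · intro x _ y _ h
      simpa using h
  rw [h1]
  exact hsum.sum_le_tsum _ (fun n _ => by positivity)

theorem ip_sum (N : ℕ) (A t y : ℝ) (hA : 0 < A) (ht : 0 < t) (τ : ℕ → ℝ)
    (hsep : ∀ i ≤ N, ∀ j ≤ N, t * |(i:ℝ) - (j:ℝ)| ≤ |τ i - τ j|) :
    ∑ j ∈ Finset.range (N + 1), 4 * A ^ 2 / (A ^ 2 + (y - τ j) ^ 2) ≤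
      4 + 16 * A ^ 2 / t ^ 2 * ∑' n : ℤ, 1 / (n:ℝ) ^ 2 := by
  classical
  obtain ⟨j0, hj0, hmin⟩ := Finset.exists_min_image (Finset.range (N + 1)) (fun j => |y - τ j|)
    ⟨0, by simp⟩
  have hj0' : j0 ≤ N := by simpa [Nat.lt_succ_iff] using hj0
  have hterm : ∀ j ∈ Finset.range (N + 1), 4 * A ^ 2 / (A ^ 2 + (y - τ j) ^ 2) ≤
      (if j = j0 then (4:ℝ) else 0) + 16 * A ^ 2 / t ^ 2 * (1 / ((j:ℝ) - (j0:ℝ)) ^ 2) := by
    intro j hj
    have hj' : j ≤ N := by simpa [Nat.lt_succ_iff] using hj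
    by_cases h : j = j0
    · rw [if_pos h]
      have h1 : 4 * A ^ 2 / (A ^ 2 + (y - τ j) ^ 2) ≤ 4 := by
        rw [div_le_iff₀ (by positivity)]
        nlinarith [sq_nonneg (y - τ j)]
      have h2 : 0 ≤ 16 * A ^ 2 / t ^ 2 * (1 / ((j:ℝ) - (j0:ℝ)) ^ 2) := by positivity
      linarith
    · rw [if_neg h, zero_add]
      have hne : (j:ℝ) - (j0:ℝ) ≠ 0 := by
        intro h0
        apply h
        have : (j:ℝ) = j0 := by linarith
        exact_mod_cast this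
      have h1 := hsep j hj' j0 hj0'
      have h2 : |τ j - τ j0| ≤ |y - τ j| + |y - τ j0| := by
        have : τ j - τ j0 = -(y - τ j) + (y - τ j0) := by ring
        rw [this]
        refine (abs_add_le _ _).trans ?_
        rw [abs_neg]
      have h3 : |y - τ j0| ≤ |y - τ j| := hmin j hj
      have h4 : t * |(j:ℝ) - (j0:ℝ)| / 2 ≤ |y - τ j| := by
        linarith
      have h5 : (t * |(j:ℝ) - (j0:ℝ)| / 2) ^ 2 ≤ (y - τ j) ^ 2 := by
        rw [← sq_abs (y - τ j)]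
        exact pow_le_pow_left₀ (by positivity) h4 2
      have h6 : (t * |(j:ℝ) - (j0:ℝ)| / 2) ^ 2 = t ^ 2 * ((j:ℝ) - (j0:ℝ)) ^ 2 / 4 := by
        rw [div_pow, mul_pow, sq_abs]; norm_num
      rw [h6] at h5
      have h7 : 0 < ((j:ℝ) - (j0:ℝ)) ^ 2 := by positivity
      have e : 16 * A ^ 2 / t ^ 2 * (1 / ((j:ℝ) - (j0:ℝ)) ^ 2) =
          4 * A ^ 2 / (t ^ 2 * ((j:ℝ) - (j0:ℝ)) ^ 2 / 4) := by
        field_simp; norm_num
      rw [e]
      apply div_le_div_of_nonneg_left (by positivity) (by positivity)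
      nlinarith [sq_nonneg A]
  refine (Finset.sum_le_sum hterm).trans ?_
  rw [Finset.sum_add_distrib, ← Finset.mul_sum]
  apply add_le_add
  · rw [Finset.sum_ite_eq' (Finset.range (N + 1)) j0 (fun _ => (4:ℝ)), if_pos hj0]
  · exact mul_le_mul_of_nonneg_left (ip_shift N j0) (by positivity)

theorem interp2 (a : ℂ) (ha : ‖a‖ = 1) (A t : ℝ) (hA : 0 < A) (ht : 0 < t) :
    ∃ B : ℝ, 0 < B ∧ ∀ (N : ℕ) (w : ℕ → Pt) (c : ℕ → ℂ), (∀ j ≤ N, ‖(w j : ℂ)‖ < 1) →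
      (∀ j ≤ N, (Cay a (w j)).re ≤ A) →
      (∀ i ≤ N, ∀ j ≤ N, t * |(i:ℝ) - (j:ℝ)| ≤ |(Cay a (w i)).im - (Cay a (w j)).im|) →
      (∀ j ≤ N, ‖c j‖ ≤ 1) →
      ∃ G : DA, ‖G‖ ≤ B ∧ ∀ j ≤ N, G.1 (w j) = c j := by
  classical
  set S : ℝ := ∑' n : ℤ, 1 / (n:ℝ) ^ 2 with hS
  have hS0 : 0 ≤ S := tsum_nonneg (fun n => by positivity)
  refine ⟨(4 + 16 * A ^ 2 / t ^ 2 * S) * Real.exp (2 * A ^ 2 / t ^ 2 * S), by positivity, ?_⟩
  intro N w c hw hA' hsep hc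
  have hwa : ∀ j ≤ N, (w j : ℂ) ≠ a := by
    intro j hj h
    have := hw j hj
    rw [h, ha] at this
    exact lt_irrefl _ this
  set x : ℕ → ℂ := fun j => Cay a (w j) with hx
  have hr : ∀ j ≤ N, 0 < (x j).re := fun j hj => ip_cre_pos a ha _ (hw j hj) (hwa j hj)
  have hKex : ∀ j, ∃ K : DA, j ≤ N →
      (∀ z : Pt, (z:ℂ) ≠ a → K.1 z = (Cay a z + (starRingEnd ℂ) (x j))⁻¹) ∧
      (∀ z : Pt, (z:ℂ) = a → K.1 z = 0) := by
    intro j
    by_cases hj : j ≤ N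
    · obtain ⟨K, hK⟩ := ip_kap a (x j) ha (hr j hj)
      exact ⟨K, fun _ => hK⟩
    · exact ⟨0, fun h => absurd h hj⟩
  choose K hK using hKex
  set b : ℕ → DA := fun k => 1 - (2 * ((x k).re : ℂ)) • K k with hb
  have hbz : ∀ k ≤ N, ∀ z : Pt, ‖(b k).1 z‖ ≤ 1 := by
    intro k hk z
    show ‖1 - 2 * ((x k).re : ℂ) * (K k).1 z‖ ≤ 1
    by_cases hz : (z:ℂ) = a
    · rw [(hK k hk).2 z hz]; simp
    · have hz0 := ip_cre a ha z z.2 hz
      rw [(hK k hk).1 z hz, ip_frac _ _ hz0 (hr k hk), norm_div,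
        div_le_one (norm_pos_iff.mpr (ip_ne _ _ hz0 (hr k hk)))]
      apply le_of_sq_le_sq _ (norm_nonneg _)
      rw [ip_nsub, ip_nadd]
      nlinarith [mul_nonneg hz0 (hr k hk).le]
  have hbw : ∀ k ≤ N, ∀ j ≤ N, (b k).1 (w j) = (x j - x k) / (x j + (starRingEnd ℂ) (x k)) := by
    intro k hk j hj
    show 1 - 2 * ((x k).re : ℂ) * (K k).1 (w j) = _
    rw [(hK k hk).1 (w j) (hwa j hj)]
    exact ip_frac _ _ (hr j hj).le (hr k hk)
  set f : ℕ → DA := fun j => (∏ k ∈ (Finset.range (N + 1)).erase j, ((b k).1 (w j))⁻¹ • b k) *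
    ((2 * ((x j).re : ℂ)) • K j) ^ 2 with hf
  have hmem : ∀ j, j ∈ Finset.range (N + 1) ↔ j ≤ N := fun j => by simp [Nat.lt_succ_iff]
  -- lower bound of the products
  have hlow : ∀ j ≤ N, ∀ k ≤ N, k ≠ j → 0 < ‖(b k).1 (w j)‖ ∧
      ‖(b k).1 (w j)‖⁻¹ ≤ Real.exp (2 * A ^ 2 / t ^ 2 * (1 / ((k:ℝ) - (j:ℝ)) ^ 2)) := by
    intro j hj k hk hkj
    rw [hbw k hk j hj]
    have hne : (k:ℝ) - (j:ℝ) ≠ 0 := by
      intro h0
      apply hkj
      have : (k:ℝ) = j := by linarith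
      exact_mod_cast this
    have hpos : 0 < t * |(k:ℝ) - (j:ℝ)| := by positivity
    have h1 := ip_low A (t * |(k:ℝ) - (j:ℝ)|) (x k) (x j) (hr k hk) (hr j hj) (hA' k hk) (hA' j hj)
      hpos (by rw [abs_sub_comm (x j).im]; exact hsep k hk j hj)
    have e : 2 * A ^ 2 / (t * |(k:ℝ) - (j:ℝ)|) ^ 2 =
        2 * A ^ 2 / t ^ 2 * (1 / ((k:ℝ) - (j:ℝ)) ^ 2) := by
      rw [mul_pow, sq_abs]
      field_simp
    rw [e] at h1
    exact h1
  refine ⟨∑ j ∈ Finset.range (N + 1), c j • f j, norm_le_of (by positivity) (fun z => ?_),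
    fun i hi => ?_⟩
  · rw [sum_apply]
    have hterm : ∀ j ∈ Finset.range (N + 1), ‖(c j • f j).1 z‖ ≤
        Real.exp (2 * A ^ 2 / t ^ 2 * S) * ‖((2 * ((x j).re : ℂ)) • K j).1 z‖ ^ 2 := by
      intro j hj
      have hj' := (hmem j).mp hj
      rw [smul_apply, norm_mul]
      have h1 : ‖(f j).1 z‖ ≤
          Real.exp (2 * A ^ 2 / t ^ 2 * S) * ‖((2 * ((x j).re : ℂ)) • K j).1 z‖ ^ 2 := by
        rw [hf]
        simp only
        rw [mul_apply, norm_mul, pow_apply, norm_pow]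
        apply mul_le_mul_of_nonneg_right _ (by positivity)
        rw [prod_apply, norm_prod]
        calc ∏ k ∈ (Finset.range (N + 1)).erase j, ‖(((b k).1 (w j))⁻¹ • b k).1 z‖
            ≤ ∏ k ∈ (Finset.range (N + 1)).erase j,
              Real.exp (2 * A ^ 2 / t ^ 2 * (1 / ((k:ℝ) - (j:ℝ)) ^ 2)) := by
              apply Finset.prod_le_prod (fun k _ => norm_nonneg _)
              intro k hk
              have hk1 := Finset.mem_erase.mp hk
              have hk2 := (hmem k).mp hk1.2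
              rw [smul_apply, norm_mul, norm_inv]
              obtain ⟨h2, h3⟩ := hlow j hj' k hk2 hk1.1
              calc ‖(b k).1 (w j)‖⁻¹ * ‖(b k).1 z‖ ≤ ‖(b k).1 (w j)‖⁻¹ * 1 :=
                    mul_le_mul_of_nonneg_left (hbz k hk2 z) (by positivity)
                _ ≤ _ := by rw [mul_one]; exact h3
          _ = Real.exp (∑ k ∈ (Finset.range (N + 1)).erase j,
                2 * A ^ 2 / t ^ 2 * (1 / ((k:ℝ) - (j:ℝ)) ^ 2)) := (Real.exp_sum _ _).symm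
          _ ≤ Real.exp (2 * A ^ 2 / t ^ 2 * S) := by
              apply Real.exp_le_exp.mpr
              rw [← Finset.mul_sum]
              apply mul_le_mul_of_nonneg_left _ (by positivity)
              refine le_trans ?_ (ip_shift N j)
              exact Finset.sum_le_sum_of_subset_of_nonneg (Finset.erase_subset _ _)
                (fun _ _ _ => by positivity)
      calc ‖c j‖ * ‖(f j).1 z‖ ≤ 1 * ‖(f j).1 z‖ :=
            mul_le_mul_of_nonneg_right (hc j hj') (norm_nonneg _)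
        _ ≤ _ := by rw [one_mul]; exact h1
    have hsum2 : ∑ j ∈ Finset.range (N + 1), ‖((2 * ((x j).re : ℂ)) • K j).1 z‖ ^ 2 ≤
        4 + 16 * A ^ 2 / t ^ 2 * S := by
      by_cases hz : (z:ℂ) = a
      · have h0 : ∀ j ∈ Finset.range (N + 1), ‖((2 * ((x j).re : ℂ)) • K j).1 z‖ ^ 2 = 0 := by
          intro j hj
          rw [smul_apply, (hK j ((hmem j).mp hj)).2 z hz]; simp
        rw [Finset.sum_eq_zero h0]
        positivity
      · have hz0 := ip_cre a ha z z.2 hz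
        have h1 : ∀ j ∈ Finset.range (N + 1), ‖((2 * ((x j).re : ℂ)) • K j).1 z‖ ^ 2 ≤
            4 * A ^ 2 / (A ^ 2 + ((Cay a z).im - (x j).im) ^ 2) := by
          intro j hj
          have hj' := (hmem j).mp hj
          rw [smul_apply, (hK j hj').1 z hz]
          exact ip_up A hA _ _ hz0 (hr j hj') (hA' j hj')
        refine (Finset.sum_le_sum h1).trans ?_
        exact ip_sum N A t (Cay a z).im hA ht (fun j => (x j).im) hsep
    calc ‖∑ j ∈ Finset.range (N + 1), (c j • f j).1 z‖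
        ≤ ∑ j ∈ Finset.range (N + 1), ‖(c j • f j).1 z‖ := norm_sum_le _ _
      _ ≤ ∑ j ∈ Finset.range (N + 1),
          Real.exp (2 * A ^ 2 / t ^ 2 * S) * ‖((2 * ((x j).re : ℂ)) • K j).1 z‖ ^ 2 :=
          Finset.sum_le_sum hterm
      _ = Real.exp (2 * A ^ 2 / t ^ 2 * S) *
          ∑ j ∈ Finset.range (N + 1), ‖((2 * ((x j).re : ℂ)) • K j).1 z‖ ^ 2 := by
          rw [Finset.mul_sum]
      _ ≤ Real.exp (2 * A ^ 2 / t ^ 2 * S) * (4 + 16 * A ^ 2 / t ^ 2 * S) :=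
          mul_le_mul_of_nonneg_left hsum2 (Real.exp_pos _).le
      _ = _ := mul_comm _ _
  · rw [sum_apply, Finset.sum_eq_single i]
    · rw [smul_apply]
      have h1 : (f i).1 (w i) = 1 := by
        rw [hf]
        simp only
        rw [mul_apply, pow_apply, prod_apply, smul_apply, (hK i hi).1 (w i) (hwa i hi)]
        have h2 : ∏ k ∈ (Finset.range (N + 1)).erase i, (((b k).1 (w i))⁻¹ • b k).1 (w i) = 1 := by
          apply Finset.prod_eq_one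
          intro k hk
          have hk1 := Finset.mem_erase.mp hk
          have hk2 := (hmem k).mp hk1.2
          rw [smul_apply]
          exact inv_mul_cancel₀ (norm_pos_iff.mp (hlow i hi k hk2 hk1.1).1)
        rw [h2, one_mul]
        have h3 : x i + (starRingEnd ℂ) (x i) = 2 * ((x i).re : ℂ) := by
          rw [Complex.add_conj]; push_cast; ring
        have h4 := ip_ne (x i) (x i) (hr i hi).le (hr i hi)
        show (2 * ((x i).re : ℂ) * (x i + (starRingEnd ℂ) (x i))⁻¹) ^ 2 = 1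
        rw [← h3, mul_inv_cancel₀ h4, one_pow]
      rw [h1, mul_one]
    · intro j hj hji
      have hj' := (hmem j).mp hj
      rw [smul_apply]
      have h1 : (f j).1 (w i) = 0 := by
        rw [hf]
        simp only
        rw [mul_apply, prod_apply]
        have h2 : ∏ k ∈ (Finset.range (N + 1)).erase j, (((b k).1 (w j))⁻¹ • b k).1 (w i) = 0 := by
          apply Finset.prod_eq_zero (i := i) (Finset.mem_erase.mpr ⟨Ne.symm hji, (hmem i).mpr hi⟩)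
          rw [smul_apply, hbw i hi i hi, sub_self, zero_div, mul_zero]
        rw [h2, zero_mul]
      rw [h1, mul_zero]
    · intro h
      exact absurd ((hmem i).mpr hi) h

end Pool.Agent.Helper203.DS
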