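import Pool.Agent.Helper203.DS.Defs3
import Pool.Agent.Helper203.DS.Age
import Pool.Agent.Helper203.DS.CayL
import Pool.Agent.Helper203.DS.HalfZ

open Metric Set Filter Topology

noncomputable section

namespace Pool.Agent.Helper203.DS

theorem no_eigen {T : DA →L[ℂ] DA} {Φ : Pt → Pt} (h : IsComp T Φ) (a : ℂ) (ha : ‖a‖ = 1)
    (hin : ∀ z : Pt, ‖(z:ℂ)‖ < 1 → ‖(Φ z : ℂ)‖ < 1) (b : ℂ) (hb : b.re = 0)
    (hlim : LimB a b Φ) (m : ℂ) (hm0 : 0 < ‖m‖) (hm1 : ‖m‖ < 1) (F : ℂ → ℂ)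
    (hF : DifferentiableOn ℂ F (ball (0:ℂ) 1)) (hF1 : ∀ z ∈ ball (0:ℂ) 1, ‖F z‖ ≤ 1)
    (heig : ∀ z : Pt, ‖(z:ℂ)‖ < 1 → F (Φ z) = m * F z) :
    ∀ z ∈ ball (0:ℂ) 1, F z = 0 := by
  have hit : ∀ (j : ℕ) (u : Pt), ‖(u:ℂ)‖ < 1 → ‖(Φ^[j] u : ℂ)‖ < 1 ∧ F (Φ^[j] u) = m ^ j * F u := by
    intro j u hu
    induction j with
    | zero => exact ⟨hu, by simp⟩
    | succ j ih =>
      rw [Function.iterate_succ_apply']
      refine ⟨hin _ ih.1, ?_⟩
      rw [heig _ ih.1, ih.2, pow_succ]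
      ring
  have hmem : ∀ s : ℂ, 0 < s.re → ic a s ∈ ball (0:ℂ) 1 := by
    intro s hs
    rw [mem_ball_zero_iff]
    exact ic_norm a s ha hs
  have hne : ∀ s : ℂ, 0 < s.re → s + 1 ≠ 0 := by
    intro s hs h0
    have h1 : (s + 1).re = 0 := by rw [h0]; rfl
    rw [Complex.add_re, Complex.one_re] at h1
    linarith
  have hL : 0 < -Real.log ‖m‖ := by
    have := Real.log_neg hm0 hm1
    linarith
  have hmexp : ‖m‖ = Real.exp (-(-Real.log ‖m‖)) := by
    rw [neg_neg, Real.exp_log hm0]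
  obtain ⟨L, hLdef⟩ : ∃ L, L = -Real.log ‖m‖ := ⟨_, rfl⟩
  rw [← hLdef] at hL hmexp
  have hzero : ∀ s : ℂ, 0 < s.re → (fun s => F (ic a s)) s = 0 := by
    apply half_zero
    · have hic : DifferentiableOn ℂ (fun s => ic a s) {z : ℂ | 0 < z.re} := by
        unfold ic
        apply DifferentiableOn.div
        · fun_prop
        · fun_prop
        · intro s hs
          exact hne s hs
      exact hF.comp hic (fun s hs => hmem s hs)
    · intro s hs
      exact hF1 _ (hmem s hs)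
    · intro κ hκ
      obtain ⟨M, hM⟩ := age_lemma h a ha hin b hb hlim (L / (2 * κ)) (by positivity)
      refine ⟨max M (L / κ), fun s hs1 hs2 => ?_⟩
      have hsM : M ≤ s.re := (le_max_left _ _).trans hs1
      have hsL : L / κ ≤ s.re := (le_max_right _ _).trans hs1
      rw [div_le_iff₀ hκ] at hsL
      have hε : 0 < L / (2 * κ) := by positivity
      obtain ⟨j, hj⟩ : ∃ j : ℕ, j = ⌊s.re / (L / (2 * κ))⌋₊ := ⟨_, rfl⟩
      have hj1 : (j : ℝ) ≤ s.re / (L / (2 * κ)) := by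
        rw [hj]; exact Nat.floor_le (by positivity)
      have hj2 : s.re / (L / (2 * κ)) < j + 1 := by
        rw [hj]; exact Nat.lt_floor_add_one _
      obtain ⟨w, hw1, hw2⟩ := hM s hsM hs2 j ((le_div_iff₀ hε).1 hj1)
      have hwn : ‖ic a w‖ < 1 := ic_norm a w ha hw1
      have hu := hw2 ⟨ic a w, by rw [mem_closedBall_zero_iff]; exact hwn.le⟩ rfl
      have h1 := (hit j ⟨ic a w, by rw [mem_closedBall_zero_iff]; exact hwn.le⟩ hwn).2
      rw [hu] at h1
      show ‖F (ic a s)‖ ≤ _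
      rw [h1, norm_mul, norm_pow]
      have h2 : ‖F (ic a w)‖ ≤ 1 := hF1 _ (by rw [mem_ball_zero_iff]; exact hwn)
      have h3 : ‖m‖ ^ j * ‖F (ic a w)‖ ≤ ‖m‖ ^ j :=
        mul_le_of_le_one_right (by positivity) h2
      refine h3.trans ?_
      rw [hmexp, ← Real.exp_nat_mul]
      apply Real.exp_le_exp.2
      have h4 : s.re * (2 * κ) < (j + 1) * L := by
        rw [div_div_eq_mul_div, div_lt_iff₀ hL] at hj2
        exact hj2
      nlinarith
  intro z hz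
  rw [mem_ball_zero_iff] at hz
  have hza : z ≠ a := by
    rintro rfl
    rw [ha] at hz
    exact lt_irrefl _ hz
  have hre : 0 < (Cay a z).re := by
    rw [cay_re a z ha hza]
    have h1 : 0 < ‖a - z‖ := norm_pos_iff.2 (sub_ne_zero.2 (Ne.symm hza))
    have h2 : 0 < 1 - ‖z‖ ^ 2 := by nlinarith [norm_nonneg z]
    positivity
  have h1 := hzero (Cay a z) hre
  have h2 : F (ic a (Cay a z)) = 0 := h1
  rwa [ic_cay a z ha hza] at h2

end Pool.Agent.Helper203.DS
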