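import Pool.Agent.Helper203.DS.Defs3
import Pool.Agent.Helper203.DS.CayL
import Pool.Agent.Helper203.DS.Crit2
import Pool.Agent.Helper203.DS.Interp2
import Pool.Agent.Helper203.DS.NoEig

open Metric Set Filter Topology

noncomputable section

namespace Pool.Agent.Helper203.DS

theorem aux_lip (g : ℂ → ℂ) (c : ℂ) (R : ℝ) (hR : 0 < R) (hd : DifferentiableOn ℂ g (ball c R))
    (hb : ∀ z ∈ ball c R, ‖g z‖ ≤ 1) (z : ℂ) (hz : z ∈ ball c R) :
    ‖g z - g c‖ ≤ 2 / R * ‖z - c‖ := by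
  have hc : c ∈ ball c R := mem_ball_self hR
  have hm : MapsTo g (ball c R) (closedBall (g c) 2) := by
    intro w hw
    rw [mem_closedBall, dist_eq_norm]
    calc ‖g w - g c‖ ≤ ‖g w‖ + ‖g c‖ := norm_sub_le _ _
      _ ≤ 1 + 1 := add_le_add (hb w hw) (hb c hc)
      _ = 2 := by norm_num
  have := Complex.dist_le_div_mul_dist_of_mapsTo_ball hd hm hz
  rwa [dist_eq_norm, dist_eq_norm] at this

theorem aux_lipD (f : DA) (hf : ‖f‖ ≤ 1) (z0 z : ℂ) (hz0 : ‖z0‖ < 1)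
    (hz : ‖z - z0‖ < 1 - ‖z0‖) :
    ‖ext f.1 z - ext f.1 z0‖ ≤ 2 / (1 - ‖z0‖) * ‖z - z0‖ := by
  have hsub : ball z0 (1 - ‖z0‖) ⊆ ball (0:ℂ) 1 := by
    intro w hw
    rw [mem_ball, dist_eq_norm] at hw
    rw [mem_ball, dist_zero_right]
    calc ‖w‖ = ‖(w - z0) + z0‖ := by rw [sub_add_cancel]
      _ ≤ ‖w - z0‖ + ‖z0‖ := norm_add_le _ _
      _ < 1 := by linarith
  refine aux_lip (ext f.1) z0 (1 - ‖z0‖) (by linarith) ((differentiableOn_da f).mono hsub) ?_ z ?_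
  · intro w hw
    have hw' : w ∈ closedBall (0:ℂ) 1 := ball_subset_closedBall (hsub hw)
    rw [ext_of_mem _ hw']
    exact (norm_apply_le f _).trans hf
  · rw [mem_ball, dist_eq_norm]; exact hz

theorem aux_ext_le (f : DA) (hf : ‖f‖ ≤ 1) (z : ℂ) : ‖ext f.1 z‖ ≤ 1 := by
  by_cases hz : z ∈ closedBall (0:ℂ) 1
  · rw [ext_of_mem _ hz]
    exact (norm_apply_le f _).trans hf
  · unfold ext
    rw [dif_neg hz]; simp

theorem aux_ulim {X : Type*} [TopologicalSpace X] (U : Ultrafilter ℕ) {s : Set X}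
    (hs : IsCompact s) (g : ℕ → X) (hg : ∀ k, g k ∈ s) : ∃ x ∈ s, Tendsto g U (𝓝 x) := by
  obtain ⟨x, hx, hle⟩ := hs.ultrafilter_le_nhds (U.map g) (by
    rw [Ultrafilter.coe_map, Filter.le_principal_iff, Filter.mem_map]
    exact Filter.univ_mem' hg)
  exact ⟨x, hx, hle⟩

theorem aux_small (K ε : ℝ) (hε : 0 < ε) :
    ∀ᶠ k : ℕ in ((hyperfilter ℕ : Ultrafilter ℕ) : Filter ℕ), K * (1 / ((k:ℝ) + 1)) < ε := by
  have h1 : Tendsto (fun k : ℕ => K * (1 / ((k:ℝ) + 1))) atTop (𝓝 (K * 0)) :=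
    tendsto_one_div_add_atTop_nhds_zero_nat.const_mul K
  rw [mul_zero] at h1
  exact (h1.mono_left Nat.hyperfilter_le_atTop).eventually (gt_mem_nhds hε)

/-- limit of functions of norm at most one along an ultrafilter -/
theorem aux_limit (U : Ultrafilter ℕ) (f : ℕ → DA) (hf : ∀ k, ‖f k‖ ≤ 1) :
    ∃ F : ℂ → ℂ, DifferentiableOn ℂ F (ball (0:ℂ) 1) ∧ (∀ z, ‖F z‖ ≤ 1) ∧
      ∀ z, Tendsto (fun k => ext (f k).1 z) U (𝓝 (F z)) := by
  have h1 : ∀ z : ℂ, ∃ x ∈ closedBall (0:ℂ) 1, Tendsto (fun k => ext (f k).1 z) U (𝓝 x) := by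
    intro z
    refine aux_ulim U (isCompact_closedBall (0:ℂ) 1) _ (fun k => ?_)
    rw [mem_closedBall, dist_zero_right]
    exact aux_ext_le (f k) (hf k) z
  choose F hF1 hF2 using h1
  refine ⟨F, ?_, fun z => by simpa using hF1 z, hF2⟩
  have hlu : TendstoLocallyUniformlyOn (fun k => ext (f k).1) F (U : Filter ℕ) (ball (0:ℂ) 1) := by
    rw [Metric.tendstoLocallyUniformlyOn_iff]
    intro ε hε z0 hz0
    have hz0' : ‖z0‖ < 1 := by simpa using hz0
    set R : ℝ := 1 - ‖z0‖ with hR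
    have hRpos : 0 < R := by rw [hR]; linarith
    set δ : ℝ := min R (ε * R / 6) with hδ
    have hδpos : 0 < δ := lt_min hRpos (by positivity)
    refine ⟨ball z0 δ, mem_nhdsWithin_of_mem_nhds (ball_mem_nhds z0 hδpos), ?_⟩
    have hlip : ∀ k, ∀ z ∈ ball z0 δ, ‖ext (f k).1 z - ext (f k).1 z0‖ ≤ ε / 3 := by
      intro k z hz
      rw [mem_ball, dist_eq_norm] at hz
      have hz1 : ‖z - z0‖ < R := lt_of_lt_of_le hz (min_le_left _ _)
      have hz2 : ‖z - z0‖ ≤ ε * R / 6 := (lt_of_lt_of_le hz (min_le_right _ _)).le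
      refine (aux_lipD (f k) (hf k) z0 z hz0' hz1).trans ?_
      calc 2 / (1 - ‖z0‖) * ‖z - z0‖ ≤ 2 / R * (ε * R / 6) := by
            rw [← hR]; exact mul_le_mul_of_nonneg_left hz2 (by positivity)
        _ = ε / 3 := by field_simp; ring
    have hev : ∀ᶠ k in (U : Filter ℕ), ‖ext (f k).1 z0 - F z0‖ < ε / 3 := by
      have := (Metric.tendsto_nhds.mp (hF2 z0)) (ε / 3) (by positivity)
      simpa [dist_eq_norm] using this
    filter_upwards [hev] with k hk z hz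
    have hFl : ‖F z - F z0‖ ≤ ε / 3 := by
      have ht : Tendsto (fun k => ‖ext (f k).1 z - ext (f k).1 z0‖) (U : Filter ℕ)
          (𝓝 ‖F z - F z0‖) := ((hF2 z).sub (hF2 z0)).norm
      exact le_of_tendsto ht (Filter.Eventually.of_forall fun k => hlip k z hz)
    have h3 := hlip k z hz
    rw [dist_eq_norm]
    calc ‖F z - ext (f k).1 z‖
        = ‖(F z - F z0) - (ext (f k).1 z0 - F z0) - (ext (f k).1 z - ext (f k).1 z0)‖ := by
          congr 1; ring
      _ ≤ ‖(F z - F z0) - (ext (f k).1 z0 - F z0)‖ + ‖ext (f k).1 z - ext (f k).1 z0‖ :=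
          norm_sub_le _ _
      _ ≤ ‖F z - F z0‖ + ‖ext (f k).1 z0 - F z0‖ + ‖ext (f k).1 z - ext (f k).1 z0‖ := by
          gcongr; exact norm_sub_le _ _
      _ < ε := by linarith
  exact hlu.differentiableOn (Filter.Eventually.of_forall fun k => differentiableOn_da (f k))
    isOpen_ball

theorem aux_half (f : DA) (hf : ‖f‖ = 1) : ∃ y : Pt, ‖(y:ℂ)‖ < 1 ∧ 1 / 2 ≤ ‖f.1 y‖ := by
  by_contra hcon
  push Not at hcon
  have h1 : ∀ z ∈ ball (0:ℂ) 1, ‖ext f.1 z‖ ≤ 1 / 2 := by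
    intro z hz
    have hz' : z ∈ closedBall (0:ℂ) 1 := ball_subset_closedBall hz
    rw [ext_of_mem _ hz']
    exact (hcon ⟨z, hz'⟩ (by simpa using hz)).le
  have hcl : closure (ball (0:ℂ) 1) = closedBall (0:ℂ) 1 := closure_ball 0 one_ne_zero
  have h2 : ‖f‖ ≤ 1 / 2 := by
    refine norm_le_of (by norm_num) (fun z => ?_)
    have := le_on_closure h1 (by rw [hcl]; exact (continuousOn_da f).norm)
      continuousOn_const (show (z:ℂ) ∈ closure (ball (0:ℂ) 1) by rw [hcl]; exact z.2)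
    rwa [ext_apply] at this
  rw [hf] at h2
  norm_num at h2

theorem aux_iter_in {Φ : Pt → Pt} (hin : ∀ z : Pt, ‖(z:ℂ)‖ < 1 → ‖(Φ z : ℂ)‖ < 1) (j : ℕ)
    (z : Pt) (hz : ‖(z:ℂ)‖ < 1) : ‖(Φ^[j] z : ℂ)‖ < 1 := by
  induction j with
  | zero => simpa using hz
  | succ j ih => rw [Function.iterate_succ_apply']; exact hin _ ih

theorem aux_it {T : DA →L[ℂ] DA} {Φ : Pt → Pt} (h : IsComp T Φ) (m : ℂ) (hm : ‖m‖ ≤ 1) (f : DA)
    (ε : ℝ) (hε : 0 ≤ ε) (hf : ‖T f - m • f‖ ≤ ε) (j : ℕ) (z : Pt) :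
    ‖f.1 (Φ^[j] z) - m ^ j * f.1 z‖ ≤ j * ε := by
  have hpt : ∀ w : Pt, ‖f.1 (Φ w) - m * f.1 w‖ ≤ ε := by
    intro w
    have := norm_apply_le (T f - m • f) w
    simp only [sub_apply, smul_apply, h.eq] at this
    exact this.trans hf
  induction j with
  | zero => simp
  | succ j ih =>
    rw [Function.iterate_succ_apply']
    have e : f.1 (Φ (Φ^[j] z)) - m ^ (j + 1) * f.1 z
        = (f.1 (Φ (Φ^[j] z)) - m * f.1 (Φ^[j] z)) + m * (f.1 (Φ^[j] z) - m ^ j * f.1 z) := by ring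
    rw [e]
    calc _ ≤ ‖f.1 (Φ (Φ^[j] z)) - m * f.1 (Φ^[j] z)‖ + ‖m * (f.1 (Φ^[j] z) - m ^ j * f.1 z)‖ :=
          norm_add_le _ _
      _ ≤ ε + 1 * (j * ε) := by
          refine add_le_add (hpt _) ?_
          rw [norm_mul]
          exact mul_le_mul hm ih (norm_nonneg _) zero_le_one
      _ = ((j + 1 : ℕ) : ℝ) * ε := by push_cast; ring


set_option maxHeartbeats 4000000 in
theorem imag_bb {T : DA →L[ℂ] DA} {Φ : Pt → Pt} (h : IsComp T Φ) (a : Pt) (ha : ‖(a:ℂ)‖ = 1)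
    (N : ℕ) (hN : ∀ z : Pt, Φ^[N] z = a ∨ ‖(Φ^[N] z : ℂ)‖ < 1)
    (hin : ∀ z : Pt, ‖(z:ℂ)‖ < 1 → ‖(Φ z : ℂ)‖ < 1) (b : ℂ) (hb : b.re = 0) (hb0 : b ≠ 0)
    (hlim : LimB a b Φ) (l : ℂ) (hl0 : 0 < ‖l‖) (hl1 : ‖l‖ < 1) (hl : l ∉ spectrum ℂ T)
    (m : ℂ) (hm : ‖m‖ = ‖l‖) :
    ∃ c : ℝ, 0 < c ∧ ∀ f : DA, c * ‖f‖ ≤ ‖T f - m • f‖ := by
  classical
  by_contra hcon
  push Not at hcon
  have hm0 : 0 < ‖m‖ := by rw [hm]; exact hl0
  have hm1 : ‖m‖ < 1 := by rw [hm]; exact hl1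
  have hmne : m ≠ 0 := norm_pos_iff.mp hm0
  have hseq : ∀ k : ℕ, ∃ f : DA, ‖f‖ = 1 ∧ ‖T f - m • f‖ ≤ 1 / ((k:ℝ) + 1) := by
    intro k
    have hk : (0:ℝ) < 1 / ((k:ℝ) + 1) := by positivity
    obtain ⟨f, hf⟩ := hcon _ hk
    have hf0 : 0 < ‖f‖ := by
      by_contra hc
      have h0 : ‖f‖ = 0 := le_antisymm (not_lt.mp hc) (norm_nonneg _)
      rw [h0, mul_zero] at hf
      exact absurd hf (not_lt.mpr (norm_nonneg _))
    set c : ℂ := ((‖f‖⁻¹ : ℝ) : ℂ) with hc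
    have hcn : ‖c‖ = ‖f‖⁻¹ := by
      rw [hc, Complex.norm_real, Real.norm_eq_abs, abs_of_pos (inv_pos.mpr hf0)]
    refine ⟨c • f, ?_, ?_⟩
    · rw [norm_smul, hcn]; exact inv_mul_cancel₀ hf0.ne'
    · have e : T (c • f) - m • (c • f) = c • (T f - m • f) := by
        rw [map_smul, smul_sub, smul_comm m c f]
      rw [e, norm_smul, hcn, inv_mul_le_iff₀ hf0]
      linarith [hf.le]
  choose f hf1 hf2 using hseq
  set U : Ultrafilter ℕ := hyperfilter ℕ with hU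
  obtain ⟨F, hFd, hF1, hFt⟩ := aux_limit U f (fun k => (hf1 k).le)
  have heps : ∀ k : ℕ, (0:ℝ) ≤ 1 / ((k:ℝ) + 1) := fun k => by positivity
  have heig : ∀ z : Pt, ‖(z:ℂ)‖ < 1 → F (Φ z) = m * F z := by
    intro z _
    have h1 : Tendsto (fun k => ext (f k).1 (Φ z) - m * ext (f k).1 z) (U : Filter ℕ)
        (𝓝 (F (Φ z) - m * F z)) := (hFt _).sub ((hFt _).const_mul m)
    have h2 : Tendsto (fun k => ext (f k).1 (Φ z) - m * ext (f k).1 z) (U : Filter ℕ) (𝓝 0) := by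
      rw [tendsto_zero_iff_norm_tendsto_zero]
      have hsmall : Tendsto (fun k : ℕ => 1 / ((k:ℝ) + 1)) (U : Filter ℕ) (𝓝 0) :=
        tendsto_one_div_add_atTop_nhds_zero_nat.mono_left Nat.hyperfilter_le_atTop
      refine squeeze_zero (fun k => norm_nonneg _) (fun k => ?_) hsmall
      rw [ext_apply, ext_apply]
      have := aux_it h m hm1.le (f k) _ (heps k) (hf2 k) 1 z
      simpa using this
    exact sub_eq_zero.mp (tendsto_nhds_unique h1 h2)
  have hF0 := no_eigen h a ha hin b hb hlim m hm0 hm1 F hFd (fun z _ => hF1 z) heig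
  choose y hy1 hy2 using fun k => aux_half (f k) (hf1 k)
  set x : ℕ → Pt := fun k => Φ^[N] (y k) with hx
  have hx1 : ∀ k, ‖(x k:ℂ)‖ < 1 := fun k => aux_iter_in hin N _ (hy1 k)
  set ρ : ℝ := ‖m‖ with hρ
  set c1 : ℝ := ρ ^ N / 3 with hc1d
  have hc1 : 0 < c1 := by positivity
  have hfx : ∀ᶠ k in (U : Filter ℕ), c1 ≤ ‖(f k).1 (x k)‖ := by
    filter_upwards [aux_small N (ρ ^ N / 6) (by positivity)] with k hk
    have h1 := aux_it h m hm1.le (f k) _ (heps k) (hf2 k) N (y k)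
    have h2 : ρ ^ N * (1 / 2) ≤ ‖m ^ N * (f k).1 (y k)‖ := by
      rw [norm_mul, norm_pow]
      exact mul_le_mul_of_nonneg_left (hy2 k) (by positivity)
    have h3 := norm_sub_norm_le (m ^ N * (f k).1 (y k)) ((f k).1 (Φ^[N] (y k)))
    rw [norm_sub_rev] at h3
    show ρ ^ N / 3 ≤ ‖(f k).1 (Φ^[N] (y k))‖
    linarith
  obtain ⟨x0, ⟨z, hz⟩, hx0⟩ := aux_ulim U (isCompact_range (h.cont.iterate N)) x
    (fun k => ⟨y k, rfl⟩)
  have hx0t' : Tendsto (fun k => (x k : ℂ)) (U : Filter ℕ) (𝓝 (x0:ℂ)) :=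
    (continuous_subtype_val.tendsto x0).comp hx0
  have hx0a : x0 = a := by
    rcases hN z with h1 | h1
    · rw [← hz]; exact h1
    · exfalso
      rw [hz] at h1
      have hFx0 : F x0 = 0 := hF0 _ (by simpa using h1)
      have e1 : ∀ᶠ k in (U : Filter ℕ), ‖ext (f k).1 x0‖ < c1 / 2 := by
        have := (Metric.tendsto_nhds.mp (hFt x0)) (c1 / 2) (by positivity)
        rw [hFx0] at this
        simpa [dist_eq_norm] using this
      set R : ℝ := 1 - ‖(x0:ℂ)‖ with hR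
      have hRpos : 0 < R := by rw [hR]; linarith
      have e2 : ∀ᶠ k in (U : Filter ℕ), ‖(x k:ℂ) - x0‖ < min R (c1 * R / 4) := by
        have := (Metric.tendsto_nhds.mp hx0t') (min R (c1 * R / 4)) (lt_min hRpos (by positivity))
        simpa [dist_eq_norm] using this
      obtain ⟨k, hk1, hk2, hk3⟩ := (hfx.and (e1.and e2)).exists
      have h4 := aux_lipD (f k) (hf1 k).le x0 (x k) h1 (lt_of_lt_of_le hk3 (min_le_left _ _))
      have h5 : 2 / (1 - ‖(x0:ℂ)‖) * ‖(x k:ℂ) - x0‖ ≤ c1 / 2 := by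
        calc 2 / (1 - ‖(x0:ℂ)‖) * ‖(x k:ℂ) - x0‖ ≤ 2 / R * (c1 * R / 4) := by
              rw [← hR]
              exact mul_le_mul_of_nonneg_left (lt_of_lt_of_le hk3 (min_le_right _ _)).le
                (by positivity)
          _ = c1 / 2 := by field_simp; ring
      have h6 := norm_sub_norm_le (ext (f k).1 (x k)) (ext (f k).1 x0)
      rw [ext_apply (f k).1 (x k)] at h4 h6
      linarith
  subst hx0a
  have hne : ∀ w : ℂ, ‖w‖ < 1 → w ≠ (x0:ℂ) := by
    rintro w hw rfl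
    rw [ha] at hw
    exact lt_irrefl _ hw
  have hre : ∀ w : ℂ, ‖w‖ < 1 → 0 < (Cay x0 w).re := by
    intro w hw
    rw [cay_re x0 w ha (hne w hw)]
    have h1 : 0 < ‖(x0:ℂ) - w‖ := norm_pos_iff.mpr (sub_ne_zero.mpr (hne w hw).symm)
    have h2 : 0 < 1 - ‖w‖ ^ 2 := by nlinarith [norm_nonneg w]
    positivity
  have hp1 : ∀ w : ℂ, ‖w‖ < 1 → 0 < ‖Cay x0 w + 1‖ := by
    intro w hw
    rw [norm_pos_iff]
    intro h0
    have := congrArg Complex.re h0
    simp only [Complex.add_re, Complex.one_re, Complex.zero_re] at this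
    linarith [hre w hw]
  have hXd : ∀ w : ℂ, ‖w‖ < 1 → ‖w - x0‖ = 2 / ‖Cay x0 w + 1‖ := by
    intro w hw
    have h1 := ic_sub x0 (Cay x0 w) ha (norm_pos_iff.mp (hp1 w hw))
    rwa [ic_cay x0 w ha (hne w hw)] at h1
  set X : ℕ → ℂ := fun k => Cay x0 (x k) with hX
  have hXinf : ∀ R : ℝ, ∀ᶠ k in (U : Filter ℕ), R < ‖X k + 1‖ := by
    intro R
    have hR' : 0 < |R| + 1 := by positivity
    have e := (Metric.tendsto_nhds.mp hx0t') (2 / (|R| + 1)) (by positivity)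
    filter_upwards [e] with k hk
    rw [dist_eq_norm, hXd _ (hx1 k), div_lt_div_iff₀ (hp1 _ (hx1 k)) hR'] at hk
    show R < ‖Cay x0 (x k) + 1‖
    linarith [le_abs_self R]
  have hstep : ∀ w : ℕ → Pt, (∀ k, ‖(w k:ℂ)‖ < 1) →
      Tendsto (fun k => (w k:ℂ)) (U : Filter ℕ) (𝓝 (x0:ℂ)) → ∀ ε : ℝ, 0 < ε →
      ∀ᶠ k in (U : Filter ℕ), ‖Cay x0 (Φ (w k)) - Cay x0 (w k) - b‖ < ε := by
    intro w hw ht ε hε
    obtain ⟨δ, hδ, hd⟩ := hlim ε hε
    filter_upwards [Metric.tendsto_nhds.mp ht δ hδ] with k hk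
    exact (hd (w k) (hne _ (hw k)) (by rwa [dist_eq_norm] at hk)).2
  have hΦa : Φ x0 = x0 := by
    have h1 : Tendsto (fun k => Φ (x k)) (U : Filter ℕ) (𝓝 (Φ x0)) :=
      (h.cont.tendsto x0).comp hx0
    have h2 : Tendsto (fun k => ((Φ (x k) : Pt):ℂ)) (U : Filter ℕ) (𝓝 (x0:ℂ)) := by
      rw [Metric.tendsto_nhds]
      intro ε hε
      filter_upwards [hstep x hx1 hx0t' 1 one_pos, hXinf (2 / ε + ‖b‖ + 1)] with k hk1 hk2
      rw [dist_eq_norm, hXd _ (hin _ (hx1 k))]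
      have h3 : 2 / ε < ‖Cay x0 (Φ (x k)) + 1‖ := by
        have h4 : ‖X k + 1‖ ≤ ‖Cay x0 (Φ (x k)) + 1‖ + ‖Cay x0 (Φ (x k)) - X k - b‖ + ‖b‖ := by
          have e : X k + 1 = (Cay x0 (Φ (x k)) + 1) - (Cay x0 (Φ (x k)) - X k - b) - b := by ring
          calc ‖X k + 1‖ = ‖(Cay x0 (Φ (x k)) + 1) - (Cay x0 (Φ (x k)) - X k - b) - b‖ := by
                rw [← e]
            _ ≤ ‖(Cay x0 (Φ (x k)) + 1) - (Cay x0 (Φ (x k)) - X k - b)‖ + ‖b‖ := norm_sub_le _ _
            _ ≤ ‖Cay x0 (Φ (x k)) + 1‖ + ‖Cay x0 (Φ (x k)) - X k - b‖ + ‖b‖ := by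
                gcongr; exact norm_sub_le _ _
        have h5 : ‖Cay x0 (Φ (x k)) - X k - b‖ < 1 := hk1
        linarith
      have h6 : 0 < ‖Cay x0 (Φ (x k)) + 1‖ := lt_trans (by positivity) h3
      rw [div_lt_iff₀ h6]
      rw [div_lt_iff₀ hε] at h3
      linarith
    have h3 : Tendsto (fun k => ((Φ (x k) : Pt):ℂ)) (U : Filter ℕ) (𝓝 ((Φ x0 : Pt):ℂ)) :=
      (continuous_subtype_val.tendsto _).comp h1
    exact Subtype.ext (tendsto_nhds_unique h3 h2)
  have hΦja : ∀ j, Φ^[j] x0 = x0 := Function.iterate_fixed hΦa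
  have hwt : ∀ j, Tendsto (fun k => ((Φ^[j] (x k) : Pt):ℂ)) (U : Filter ℕ) (𝓝 (x0:ℂ)) := by
    intro j
    have h1 : Tendsto (fun k => Φ^[j] (x k)) (U : Filter ℕ) (𝓝 (Φ^[j] x0)) :=
      ((h.cont.iterate j).tendsto x0).comp hx0
    rw [hΦja j] at h1
    exact (continuous_subtype_val.tendsto _).comp h1
  have hwin : ∀ j k, ‖((Φ^[j] (x k) : Pt):ℂ)‖ < 1 := fun j k => aux_iter_in hin j _ (hx1 k)
  have hCj : ∀ (j : ℕ) (ε : ℝ), 0 < ε →
      ∀ᶠ k in (U : Filter ℕ), ‖Cay x0 (Φ^[j] (x k)) - X k - j * b‖ < ε := by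
    intro j
    induction j with
    | zero =>
      intro ε hε
      refine Filter.Eventually.of_forall (fun k => ?_)
      simp [hX, hε]
    | succ j ih =>
      intro ε hε
      filter_upwards [ih (ε / 2) (half_pos hε),
        hstep (fun k => Φ^[j] (x k)) (hwin j) (hwt j) (ε / 2) (half_pos hε)] with k h1 h2
      rw [Function.iterate_succ_apply']
      have e : Cay x0 (Φ (Φ^[j] (x k))) - X k - ((j + 1 : ℕ) : ℂ) * b
          = (Cay x0 (Φ (Φ^[j] (x k))) - Cay x0 (Φ^[j] (x k)) - b)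
            + (Cay x0 (Φ^[j] (x k)) - X k - j * b) := by push_cast; ring
      rw [e]
      calc _ ≤ ‖Cay x0 (Φ (Φ^[j] (x k))) - Cay x0 (Φ^[j] (x k)) - b‖
            + ‖Cay x0 (Φ^[j] (x k)) - X k - j * b‖ := norm_add_le _ _
        _ < ε := by linarith
  have hρ1 : 0 < 1 - ρ := by linarith
  by_cases hcase : ∀ A : ℝ, ∀ᶠ k in (U : Filter ℕ), A < (X k).re
  · -- case (i)
    have hgap : 0 < (1 - ρ) * c1 := by positivity
    set A : ℝ := max (‖b‖ + 1) (4 * (‖b‖ + 1) / ((1 - ρ) * c1)) with hAd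
    obtain ⟨k, hk1, hk2, hk3, hk4⟩ := (hfx.and ((hcase A).and ((hstep x hx1 hx0t' 1 one_pos).and
      (aux_small 1 ((1 - ρ) * c1 / 2) (by positivity))))).exists
    have hXre : 0 < (X k).re := hre _ (hx1 k)
    have hballre : ∀ w ∈ ball (X k) (X k).re, 0 < w.re := by
      intro w hw
      rw [mem_ball, dist_eq_norm] at hw
      have := Complex.abs_re_le_norm (w - X k)
      rw [Complex.sub_re] at this
      have := (abs_le.mp this).1
      linarith
    have hd : DifferentiableOn ℂ (fun w => ext (f k).1 (ic x0 w)) (ball (X k) (X k).re) := by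
      refine DifferentiableOn.comp (t := ball (0:ℂ) 1) (differentiableOn_da (f k)) ?_ ?_
      · intro w hw
        have hw0 : w + 1 ≠ 0 := by
          intro h0
          have := congrArg Complex.re h0
          simp only [Complex.add_re, Complex.one_re, Complex.zero_re] at this
          linarith [hballre w hw]
        have h1 : DifferentiableAt ℂ (fun w : ℂ => (x0:ℂ) * (w - 1)) w := by fun_prop
        have h2 : DifferentiableAt ℂ (fun w : ℂ => w + 1) w := by fun_prop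
        exact (h1.div h2 hw0).differentiableWithinAt
      · intro w hw
        rw [mem_ball, dist_zero_right]
        exact ic_norm x0 w ha (hballre w hw)
    have hCX : ‖Cay x0 (Φ (x k)) - X k‖ ≤ ‖b‖ + 1 := by
      have e : Cay x0 (Φ (x k)) - X k = (Cay x0 (Φ (x k)) - X k - b) + b := by ring
      rw [e]
      have h5 : ‖Cay x0 (Φ (x k)) - X k - b‖ < 1 := hk3
      calc _ ≤ ‖Cay x0 (Φ (x k)) - X k - b‖ + ‖b‖ := norm_add_le _ _
        _ ≤ ‖b‖ + 1 := by linarith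
    have hmem : Cay x0 (Φ (x k)) ∈ ball (X k) (X k).re := by
      rw [mem_ball, dist_eq_norm]
      have := le_max_left (‖b‖ + 1) (4 * (‖b‖ + 1) / ((1 - ρ) * c1))
      linarith
    have hL : ‖ext (f k).1 (ic x0 (Cay x0 (Φ (x k)))) - ext (f k).1 (ic x0 (X k))‖
        ≤ 2 / (X k).re * ‖Cay x0 (Φ (x k)) - X k‖ :=
      aux_lip _ _ _ hXre hd (fun w _ => aux_ext_le (f k) (hf1 k).le _) _ hmem
    rw [ic_cay x0 _ ha (hne _ (hin _ (hx1 k))), show ic x0 (X k) = x k from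
      ic_cay x0 _ ha (hne _ (hx1 k)), ext_apply, ext_apply] at hL
    have hL2 : 2 / (X k).re * ‖Cay x0 (Φ (x k)) - X k‖ < (1 - ρ) * c1 / 2 := by
      have h7 : 4 * (‖b‖ + 1) / ((1 - ρ) * c1) < (X k).re :=
        lt_of_le_of_lt (le_max_right _ _) hk2
      rw [div_lt_iff₀ hgap] at h7
      calc 2 / (X k).re * ‖Cay x0 (Φ (x k)) - X k‖ ≤ 2 / (X k).re * (‖b‖ + 1) :=
            mul_le_mul_of_nonneg_left hCX (by positivity)
        _ = 2 * (‖b‖ + 1) / (X k).re := by ring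
        _ < (1 - ρ) * c1 / 2 := by
            rw [div_lt_iff₀ hXre]; linarith
    have h8 := aux_it h m hm1.le (f k) _ (heps k) (hf2 k) 1 (x k)
    simp only [Function.iterate_one, pow_one, Nat.cast_one] at h8
    have h9 : (1 - ρ) * c1 ≤ ‖(1 - m) * (f k).1 (x k)‖ := by
      rw [norm_mul]
      refine mul_le_mul ?_ hk1 hc1.le (norm_nonneg _)
      have := norm_sub_norm_le (1:ℂ) m
      rw [norm_one] at this
      exact this
    have h10 : ‖(1 - m) * (f k).1 (x k)‖ ≤ ‖(f k).1 (Φ (x k)) - m * (f k).1 (x k)‖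
        + ‖(f k).1 (Φ (x k)) - (f k).1 (x k)‖ := by
      have e : (1 - m) * (f k).1 (x k) = ((f k).1 (Φ (x k)) - m * (f k).1 (x k))
          - ((f k).1 (Φ (x k)) - (f k).1 (x k)) := by ring
      rw [e]; exact norm_sub_le _ _
    linarith
  · -- case (ii)
    push Not at hcase
    obtain ⟨A, hA⟩ := hcase
    have hA' : ∀ᶠ k in (U : Filter ℕ), (X k).re ≤ A := hA
    set A1 : ℝ := |A| + 1 with hA1
    have hbpos : 0 < ‖b‖ := norm_pos_iff.mpr hb0
    have hbim : |b.im| = ‖b‖ := by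
      have : b = (b.im : ℂ) * Complex.I := by
        apply Complex.ext <;> simp [hb]
      conv_rhs => rw [this]
      rw [norm_mul, Complex.norm_I, mul_one, Complex.norm_real, Real.norm_eq_abs]
    obtain ⟨B, hB, hBI⟩ := interp2 x0 ha A1 (‖b‖ / 2) (by positivity) (by positivity)
    obtain ⟨C, hC, hCI⟩ := crit2 h l hl
    obtain ⟨J, hJ⟩ := exists_nat_gt (4 * C * B / c1)
    have hJ' : 4 * C * B < ((J:ℝ) + 1) * c1 := by
      rw [div_lt_iff₀ hc1] at hJ
      nlinarith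
    have hρpos : 0 < ρ := hm0
    have hgap : 0 < ρ ^ J * (((J:ℝ) + 1) * c1) - C * (B * (2 * ρ ^ (J + 1))) := by
      have h1 : ρ ^ (J + 1) ≤ ρ ^ J := by
        rw [pow_succ]
        exact mul_le_of_le_one_right (by positivity) (by linarith)
      have h2 : C * (B * (2 * ρ ^ (J + 1))) ≤ C * (B * (2 * ρ ^ J)) := by
        gcongr
      have h3 : 0 < ρ ^ J := by positivity
      have h4 : 0 < C * B := by positivity
      nlinarith
    set K : ℝ := ((J:ℝ) + 1) * J + C * (B * ((J:ℝ) + 1)) with hK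
    have hall : ∀ᶠ k in (U : Filter ℕ), ∀ j ∈ Finset.range (J + 1),
        ‖Cay x0 (Φ^[j] (x k)) - X k - j * b‖ < min 1 (‖b‖ / 4) := by
      rw [Filter.eventually_all_finset]
      intro j _
      exact hCj j _ (lt_min one_pos (by positivity))
    obtain ⟨k, hk1, hk2, hk3, hk4⟩ := (hfx.and (hA'.and (hall.and (aux_small K _ hgap)))).exists
    set ε : ℝ := 1 / ((k:ℝ) + 1) with hε
    have hε0 : 0 ≤ ε := heps k
    have herr : ∀ j ≤ J, ‖Cay x0 (Φ^[j] (x k)) - X k - j * b‖ < min 1 (‖b‖ / 4) :=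
      fun j hj => hk3 j (Finset.mem_range.mpr (by omega))
    obtain ⟨G, hG1, hG2⟩ := hBI J (fun j => Φ^[j] (x k)) (fun j => (l / m) ^ j)
      (fun j _ => hwin j k)
      (by
        intro j hj
        have h1 := lt_of_lt_of_le (herr j hj) (min_le_left _ _)
        have h2 := Complex.abs_re_le_norm (Cay x0 (Φ^[j] (x k)) - X k - j * b)
        have h3 : (Cay x0 (Φ^[j] (x k)) - X k - j * b).re
            = (Cay x0 (Φ^[j] (x k))).re - (X k).re := by
          simp [hb]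
        rw [h3] at h2
        have h4 := (abs_le.mp h2).2
        have h5 := le_abs_self A
        show (Cay x0 (Φ^[j] (x k))).re ≤ |A| + 1
        linarith)
      (by
        intro i hi j hj
        by_cases hij : i = j
        · subst hij; simp
        · have h1 := lt_of_lt_of_le (herr i hi) (min_le_right _ _)
          have h2 := lt_of_lt_of_le (herr j hj) (min_le_right _ _)
          have h3 := Complex.abs_im_le_norm (Cay x0 (Φ^[i] (x k)) - X k - i * b)
          have h4 := Complex.abs_im_le_norm (Cay x0 (Φ^[j] (x k)) - X k - j * b)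
          have e1 : (Cay x0 (Φ^[i] (x k)) - X k - i * b).im
              = (Cay x0 (Φ^[i] (x k))).im - (X k).im - i * b.im := by simp
          have e2 : (Cay x0 (Φ^[j] (x k)) - X k - j * b).im
              = (Cay x0 (Φ^[j] (x k))).im - (X k).im - j * b.im := by simp
          rw [e1] at h3
          rw [e2] at h4
          have h5 : (1:ℝ) ≤ |(i:ℝ) - (j:ℝ)| := by
            have : (1:ℤ) ≤ |(i:ℤ) - (j:ℤ)| := Int.one_le_abs (sub_ne_zero.mpr (by exact_mod_cast hij))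
            exact_mod_cast this
          have h6 : |((i:ℝ) - j) * b.im| = |(i:ℝ) - j| * ‖b‖ := by rw [abs_mul, hbim]
          have h7 : |((i:ℝ) - j) * b.im| ≤ |(Cay x0 (Φ^[i] (x k))).im - (Cay x0 (Φ^[j] (x k))).im|
              + |(Cay x0 (Φ^[i] (x k))).im - (X k).im - i * b.im|
              + |(Cay x0 (Φ^[j] (x k))).im - (X k).im - j * b.im| := by
            have e : ((i:ℝ) - j) * b.im =
                ((Cay x0 (Φ^[i] (x k))).im - (Cay x0 (Φ^[j] (x k))).im)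
                - ((Cay x0 (Φ^[i] (x k))).im - (X k).im - i * b.im)
                + ((Cay x0 (Φ^[j] (x k))).im - (X k).im - j * b.im) := by ring
            rw [e]
            refine (abs_add_le _ _).trans ?_
            gcongr
            exact abs_sub _ _
          show ‖b‖ / 2 * |(i:ℝ) - (j:ℝ)| ≤ |(Cay x0 (Φ^[i] (x k))).im - (Cay x0 (Φ^[j] (x k))).im|
          rw [h6] at h7
          nlinarith)
      (by
        intro j _
        simp only [norm_pow, norm_div]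
        rw [← hm, div_self hm0.ne', one_pow])
    have hcr := hCI (f k * G) J (x k)
    -- left side
    have hsum : ∑ j ∈ Finset.range (J + 1), l ^ (J - j) * (f k * G).1 (Φ^[j] (x k))
        = ((J:ℂ) + 1) * (l ^ J * (f k).1 (x k)) + ∑ j ∈ Finset.range (J + 1),
          l ^ (J - j) * (l / m) ^ j * ((f k).1 (Φ^[j] (x k)) - m ^ j * (f k).1 (x k)) := by
      have e0 : ((J:ℂ) + 1) * (l ^ J * (f k).1 (x k))
          = ∑ _j ∈ Finset.range (J + 1), l ^ J * (f k).1 (x k) := by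
        rw [Finset.sum_const, Finset.card_range, nsmul_eq_mul]; push_cast; ring
      rw [e0, ← Finset.sum_add_distrib]
      refine Finset.sum_congr rfl (fun j hj => ?_)
      have hjJ : j ≤ J := by have := Finset.mem_range.mp hj; omega
      have hg : G.1 (Φ^[j] (x k)) = (l / m) ^ j := hG2 j hjJ
      have hpow : l ^ J = l ^ (J - j) * (l / m) ^ j * m ^ j := by
        rw [mul_assoc, ← mul_pow, div_mul_cancel₀ l hmne, ← pow_add, Nat.sub_add_cancel hjJ]
      rw [mul_apply, hg, hpow]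
      ring
    have hlow : ρ ^ J * (((J:ℝ) + 1) * c1) - ((J:ℝ) + 1) * J * ε ≤
        ‖∑ j ∈ Finset.range (J + 1), l ^ (J - j) * (f k * G).1 (Φ^[j] (x k))‖ := by
      rw [hsum]
      have h1 : ‖∑ j ∈ Finset.range (J + 1),
          l ^ (J - j) * (l / m) ^ j * ((f k).1 (Φ^[j] (x k)) - m ^ j * (f k).1 (x k))‖
          ≤ ((J:ℝ) + 1) * J * ε := by
        refine (norm_sum_le _ _).trans ?_
        have : ∀ j ∈ Finset.range (J + 1),
            ‖l ^ (J - j) * (l / m) ^ j * ((f k).1 (Φ^[j] (x k)) - m ^ j * (f k).1 (x k))‖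
            ≤ J * ε := by
          intro j hj
          have hjJ : j ≤ J := by have := Finset.mem_range.mp hj; omega
          have h2 := aux_it h m hm1.le (f k) _ (heps k) (hf2 k) j (x k)
          rw [norm_mul, norm_mul, norm_pow, norm_pow, norm_div, ← hm, div_self hm0.ne', one_pow,
            mul_one]
          have h3 : ‖m‖ ^ (J - j) ≤ 1 := pow_le_one₀ (norm_nonneg _) hm1.le
          have h4 : (j:ℝ) ≤ J := by exact_mod_cast hjJ
          calc ‖m‖ ^ (J - j) * ‖(f k).1 (Φ^[j] (x k)) - m ^ j * (f k).1 (x k)‖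
              ≤ 1 * (j * ε) := mul_le_mul h3 h2 (norm_nonneg _) zero_le_one
            _ ≤ J * ε := by rw [one_mul]; exact mul_le_mul_of_nonneg_right h4 hε0
        refine (Finset.sum_le_sum this).trans ?_
        rw [Finset.sum_const, Finset.card_range, nsmul_eq_mul]
        push_cast
        apply le_of_eq; ring
      have h2 : ρ ^ J * (((J:ℝ) + 1) * c1) ≤ ‖((J:ℂ) + 1) * (l ^ J * (f k).1 (x k))‖ := by
        have e : ‖((J:ℂ) + 1)‖ = (J:ℝ) + 1 := by
          have : ((J:ℂ) + 1) = (((J:ℝ) + 1 : ℝ) : ℂ) := by push_cast; ring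
          rw [this, Complex.norm_real, Real.norm_eq_abs, abs_of_pos (by positivity)]
        rw [norm_mul, norm_mul, norm_pow, e, ← hm]
        have h3 : 0 ≤ ((J:ℝ) + 1) * ‖m‖ ^ J := by positivity
        calc ρ ^ J * (((J:ℝ) + 1) * c1) = (((J:ℝ) + 1) * ‖m‖ ^ J) * c1 := by rw [hρ]; ring
          _ ≤ (((J:ℝ) + 1) * ‖m‖ ^ J) * ‖(f k).1 (x k)‖ := mul_le_mul_of_nonneg_left hk1 h3
          _ = ((J:ℝ) + 1) * (‖m‖ ^ J * ‖(f k).1 (x k)‖) := by ring
      have h3 := norm_sub_norm_le (((J:ℂ) + 1) * (l ^ J * (f k).1 (x k)))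
        (-(∑ j ∈ Finset.range (J + 1),
          l ^ (J - j) * (l / m) ^ j * ((f k).1 (Φ^[j] (x k)) - m ^ j * (f k).1 (x k))))
      rw [norm_neg, sub_neg_eq_add] at h3
      linarith
    have hT1 : ‖(T ^ (J + 1)) (f k * G)‖ ≤ (ρ ^ (J + 1) + ((J:ℝ) + 1) * ε) * B := by
      refine norm_le_of (by positivity) (fun z => ?_)
      rw [h.pow, mul_apply, norm_mul]
      refine mul_le_mul ?_ ((norm_apply_le G _).trans hG1) (norm_nonneg _) (by positivity)
      have h2 := aux_it h m hm1.le (f k) _ (heps k) (hf2 k) (J + 1) z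
      have h3 := norm_sub_norm_le ((f k).1 (Φ^[J + 1] z)) (m ^ (J + 1) * (f k).1 z)
      have h4 : ‖m ^ (J + 1) * (f k).1 z‖ ≤ ρ ^ (J + 1) := by
        rw [norm_mul, norm_pow]
        exact mul_le_of_le_one_right (by positivity) ((norm_apply_le (f k) z).trans (hf1 k).le)
      push_cast at h2
      linarith
    have hT2 : ‖f k * G‖ ≤ B := by
      refine norm_le_of hB.le (fun z => ?_)
      rw [mul_apply, norm_mul]
      calc ‖(f k).1 z‖ * ‖G.1 z‖ ≤ 1 * B :=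
            mul_le_mul ((norm_apply_le (f k) z).trans (hf1 k).le) ((norm_apply_le G _).trans hG1)
              (norm_nonneg _) zero_le_one
        _ = B := one_mul B
    have hfin : ρ ^ J * (((J:ℝ) + 1) * c1) - ((J:ℝ) + 1) * J * ε ≤
        C * ((ρ ^ (J + 1) + ((J:ℝ) + 1) * ε) * B + ρ ^ (J + 1) * B) := by
      refine hlow.trans (hcr.trans ?_)
      refine mul_le_mul_of_nonneg_left ?_ hC.le
      refine add_le_add hT1 ?_
      rw [← hm]
      exact mul_le_mul_of_nonneg_left hT2 (by positivity)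
    have hk5 : (((J:ℝ) + 1) * J + C * (B * ((J:ℝ) + 1))) * ε
        < ρ ^ J * (((J:ℝ) + 1) * c1) - C * (B * (2 * ρ ^ (J + 1))) := hk4
    nlinarith [hfin, hk5]

end Pool.Agent.Helper203.DS
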