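import Pool.Agent.Helper203.DS.Base
import Pool.Agent.Helper203.DS.Zero

open Metric Set Filter Topology

noncomputable section

namespace Pool.Agent.Helper203.DS

theorem Wop_small_abs {E : Type*} [NormedAddCommGroup E] [NormedSpace ℂ E] [CompleteSpace E]
    (W : E →L[ℂ] E) (l : ℂ) (n : ℕ) (c : ℝ) (hc0 : 0 ≤ c) (hc : c < ‖l‖ ^ n)
    (h : ∀ f, ‖W^[n] f‖ ≤ c * ‖f‖) : Function.Bijective (fun f : E => W f - l • f) := by
  have hWn : ‖W ^ n‖ ≤ c := by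
    refine ContinuousLinearMap.opNorm_le_bound _ hc0 fun f => ?_
    rw [FunLike.coe_pow_eq_iterate]
    exact h f
  have h1 : l ^ n ∈ resolventSet ℂ (W ^ n) := by
    apply spectrum.mem_resolventSet_of_norm_lt_mul
    rw [norm_pow l n]
    refine lt_of_le_of_lt ?_ hc
    have h1 : ‖(1 : E →L[ℂ] E)‖ ≤ 1 := ContinuousLinearMap.norm_id_le
    calc ‖W ^ n‖ * ‖(1 : E →L[ℂ] E)‖ ≤ c * 1 := mul_le_mul hWn h1 (norm_nonneg _) hc0
      _ = c := mul_one c
  have h2 : l ∉ spectrum ℂ W := by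
    intro h3
    exact spectrum.pow_mem_pow W n h3 h1
  have h3 : IsUnit (algebraMap ℂ (E →L[ℂ] E) l - W) := by
    by_contra h4
    exact h2 h4
  have h4 : IsUnit (W - algebraMap ℂ (E →L[ℂ] E) l) := by
    have := h3.neg
    rwa [neg_sub] at this
  have h5 := ContinuousLinearMap.isUnit_iff_bijective.1 h4
  exact h5

theorem Wop_small_max (f : DA) (M : ℝ) (hM : 0 ≤ M) (h : ∀ z : Pt, ‖(z:ℂ)‖ = 1 → ‖f.1 z‖ ≤ M) :
    ‖f‖ ≤ M := by
  apply norm_le_of hM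
  intro z
  rw [← ext_apply f.1 z]
  have hcl : closure (Metric.ball (0:ℂ) 1) = Metric.closedBall (0:ℂ) 1 := closure_ball _ one_ne_zero
  have hd : DiffContOnCl ℂ (ext f.1) (Metric.ball (0:ℂ) 1) := by
    refine ⟨differentiableOn_da f, ?_⟩
    rw [hcl]
    exact continuousOn_da f
  refine Complex.norm_le_of_forall_mem_frontier_norm_le Metric.isBounded_ball hd ?_ ?_
  · intro w hw
    rw [frontier_ball _ one_ne_zero] at hw
    have hw1 : ‖w‖ = 1 := by simpa using hw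
    have hw2 : w ∈ Metric.closedBall (0:ℂ) 1 := by simp [hw1]
    rw [ext_of_mem _ hw2]
    exact h ⟨w, hw2⟩ hw1
  · rw [hcl]
    exact z.2

theorem Wop_small {T : DA →L[ℂ] DA} {Φ : Pt → Pt} (h : IsComp T Φ) (a : Pt) (ha : ‖(a:ℂ)‖ < 1)
    (hconv : Tendsto (fun n => (T ^ n) Z) atTop (𝓝 (algebraMap ℂ DA (a:ℂ)))) (q : DA)
    (hq : T Z - algebraMap ℂ DA (a:ℂ) = (Z - algebraMap ℂ DA (a:ℂ)) * q) (l : ℂ) (hl : l ≠ 0) :
    ∃ N : ℕ, Function.Bijective (fun f : DA => Wop T q N f - l • f) := by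
  have hq1 : ∀ z : Pt, ((Φ z : Pt) : ℂ) - a = ((z : ℂ) - a) * q.1 z := by
    intro z
    have h1 := congrArg (fun f : DA => f.1 z) hq
    simpa [h.eq] using h1
  let Q : ℕ → DA := fun n => ∏ j ∈ Finset.range n, (T ^ j) q
  have hQ : ∀ n z, (Q n).1 z = ∏ j ∈ Finset.range n, q.1 (Φ^[j] z) := by
    intro n z
    show (∏ j ∈ Finset.range n, (T ^ j) q : DA).1 z = _
    rw [prod_apply]
    exact Finset.prod_congr rfl fun j _ => h.pow j q z
  have hQ2 : ∀ n (z : Pt), ((z : ℂ) - a) * (Q n).1 z = ((Φ^[n] z : Pt) : ℂ) - a := by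
    intro n z
    rw [hQ]
    induction n with
    | zero => simp
    | succ n ih =>
      rw [Finset.prod_range_succ, ← mul_assoc, ih, Function.iterate_succ_apply', hq1]
  have ha' : 0 < 1 - ‖(a:ℂ)‖ := by linarith
  have hQn : ∀ n, ‖Q n‖ ≤ ‖(T ^ n) Z - algebraMap ℂ DA (a:ℂ)‖ / (1 - ‖(a:ℂ)‖) := by
    intro n
    refine Wop_small_max _ _ (by positivity) ?_
    intro z hz
    rw [le_div_iff₀ ha']
    have h1 : 1 - ‖(a:ℂ)‖ ≤ ‖(z:ℂ) - a‖ := by
      have := norm_sub_norm_le (z:ℂ) a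
      rw [hz] at this
      exact this
    have h2 : ‖((z : ℂ) - a) * (Q n).1 z‖ ≤ ‖(T ^ n) Z - algebraMap ℂ DA (a:ℂ)‖ := by
      rw [hQ2]
      have h3 := norm_apply_le ((T ^ n) Z - algebraMap ℂ DA (a:ℂ)) z
      rw [sub_apply, h.pow, Z_apply, algMap_apply] at h3
      exact h3
    rw [norm_mul] at h2
    calc ‖(Q n).1 z‖ * (1 - ‖(a:ℂ)‖) ≤ ‖(Q n).1 z‖ * ‖(z:ℂ) - a‖ :=
          mul_le_mul_of_nonneg_left h1 (norm_nonneg _)
      _ = ‖(z:ℂ) - a‖ * ‖(Q n).1 z‖ := mul_comm _ _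
      _ ≤ _ := h2
  have hW : ∀ (N n : ℕ) (f : DA) (z : Pt), (((Wop T q N)^[n]) f).1 z = (Q n).1 z ^ N * f.1 (Φ^[n] z) := by
    intro N n
    induction n with
    | zero => intro f z; rw [hQ]; simp
    | succ n ih =>
      intro f z
      have e : ((Wop T q N)^[n + 1]) f = ((Wop T q N)^[n]) (Wop T q N f) := Function.iterate_succ_apply _ _ _
      have e2 : ∀ w : Pt, (Wop T q N f).1 w = q.1 w ^ N * f.1 (Φ w) := by
        intro w
        show (q ^ N * T f).1 w = _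
        rw [mul_apply, pow_apply, h.eq]
      rw [e, ih, e2, hQ, hQ, Finset.prod_range_succ, Function.iterate_succ_apply', mul_pow, mul_assoc]
  have hT0 : Tendsto (fun n => ‖(T ^ n) Z - algebraMap ℂ DA (a:ℂ)‖) atTop (𝓝 0) :=
    tendsto_iff_norm_sub_tendsto_zero.1 hconv
  have hT1 : ∀ᶠ n in atTop, ‖(T ^ n) Z - algebraMap ℂ DA (a:ℂ)‖ < (1 - ‖(a:ℂ)‖) / 2 :=
    hT0.eventually (gt_mem_nhds (by positivity))
  obtain ⟨n, hn1, hn2⟩ := (hT1.and (Filter.eventually_ge_atTop 1)).exists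
  have hQn2 : ‖Q n‖ ≤ 1 / 2 := by
    refine (hQn n).trans ?_
    rw [div_le_iff₀ ha']
    linarith
  have hl' : 0 < ‖l‖ ^ n := pow_pos (norm_pos_iff.2 hl) n
  obtain ⟨N, hN⟩ := exists_pow_lt_of_lt_one hl' (by norm_num : (1 / 2 : ℝ) < 1)
  refine ⟨N, ?_⟩
  refine Wop_small_abs (Wop T q N) l n ((1 / 2 : ℝ) ^ N) (by positivity) hN ?_
  intro f
  refine norm_le_of (by positivity) fun z => ?_
  rw [hW, norm_mul, norm_pow]
  exact mul_le_mul (pow_le_pow_left₀ (norm_nonneg _) ((norm_apply_le _ _).trans hQn2) N)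
    (norm_apply_le _ _) (norm_nonneg _) (by positivity)

end Pool.Agent.Helper203.DS
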