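import Pool.Agent.Helper203.DS.Base

open Metric Set Filter Topology

noncomputable section

namespace Pool.Agent.Helper203.DS

/-- product of the distances of integer nodes -/
theorem lagr_fact (i k : ℕ) : ∏ j ∈ (Finset.range (i + k + 1)).erase i, |(i:ℝ) - (j:ℝ)| =
    (i.factorial : ℝ) * (k.factorial : ℝ) := by
  induction k with
  | zero =>
    have h1 : (Finset.range (i + 0 + 1)).erase i = Finset.range i := by
      rw [add_zero, Finset.range_add_one, Finset.erase_insert Finset.notMem_range_self]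
    rw [h1, Nat.factorial_zero, Nat.cast_one, mul_one]
    rw [← Finset.prod_range_reflect]
    rw [← Finset.prod_range_add_one_eq_factorial]
    push_cast
    apply Finset.prod_congr rfl
    intro j hj
    have hj' : j < i := Finset.mem_range.mp hj
    have h2 : ((i - 1 - j : ℕ) : ℝ) = (i:ℝ) - 1 - (j:ℝ) := by
      rw [Nat.sub_sub, Nat.cast_sub (by omega)]
      push_cast
      ring
    rw [h2]
    have h3 : (i:ℝ) - ((i:ℝ) - 1 - (j:ℝ)) = (j:ℝ) + 1 := by ring
    rw [h3, abs_of_nonneg (by positivity)]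
  | succ k ih =>
    have h1 : (Finset.range (i + (k + 1) + 1)).erase i =
        insert (i + k + 1) ((Finset.range (i + k + 1)).erase i) := by
      ext j
      simp only [Finset.mem_erase, Finset.mem_range, Finset.mem_insert]
      omega
    have h2 : (i + k + 1) ∉ (Finset.range (i + k + 1)).erase i := by
      simp
    rw [h1, Finset.prod_insert h2, ih]
    have h3 : |(i:ℝ) - ((i + k + 1 : ℕ) : ℝ)| = (k:ℝ) + 1 := by
      push_cast
      rw [show (i:ℝ) - ((i:ℝ) + (k:ℝ) + 1) = -((k:ℝ) + 1) by ring, abs_neg,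
        abs_of_nonneg (by positivity)]
    rw [h3, Nat.factorial_succ]
    push_cast
    ring

theorem lagr_sum (n : ℕ) : ∑ i ∈ Finset.range (n + 1), (1 : ℝ) / ((i.factorial : ℝ) * ((n - i).factorial : ℝ))
    = 2 ^ n / (n.factorial : ℝ) := by
  have h1 : ∀ i ∈ Finset.range (n + 1), (1 : ℝ) / ((i.factorial : ℝ) * ((n - i).factorial : ℝ)) =
      (n.choose i : ℝ) / (n.factorial : ℝ) := by
    intro i hi
    have hi' : i ≤ n := by
      have := Finset.mem_range.mp hi
      omega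
    have h2 := Nat.choose_mul_factorial_mul_factorial hi'
    have h3 : ((n.choose i : ℕ) : ℝ) * (i.factorial : ℝ) * ((n - i).factorial : ℝ) = (n.factorial : ℝ) := by
      exact_mod_cast h2
    have h4 : (0:ℝ) < (i.factorial : ℝ) := by exact_mod_cast Nat.factorial_pos i
    have h5 : (0:ℝ) < ((n - i).factorial : ℝ) := by exact_mod_cast Nat.factorial_pos _
    have h6 : (0:ℝ) < (n.factorial : ℝ) := by exact_mod_cast Nat.factorial_pos n
    rw [div_eq_div_iff (by positivity) (by positivity)]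
    rw [← h3]
    ring
  rw [Finset.sum_congr rfl h1, ← Finset.sum_div]
  congr 1
  have := Nat.sum_range_choose n
  exact_mod_cast this

theorem lagr_interp (n : ℕ) (hn : 1 ≤ n) (δ : ℝ) (hδ : 0 < δ) (x z : ℂ) (v : ℕ → ℂ)
    (hv : ∀ j, j ≤ n → ‖v j - x‖ = (j:ℝ) * δ) (hz : ‖z - x‖ ≤ (n:ℝ) * δ) (P : Polynomial ℂ)
    (hP : P.degree < ((n + 1 : ℕ) : WithBot ℕ)) (A : ℝ) (hA : 0 ≤ A)
    (hPv : ∀ j, j ≤ n → ‖P.eval (v j)‖ ≤ A) : ‖P.eval z‖ ≤ 12 ^ n * A := by
  have hinj : Set.InjOn v (Finset.range (n + 1) : Finset ℕ) := by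
    intro i hi j hj hij
    have hi' : i ≤ n := by
      have := Finset.mem_range.mp (Finset.mem_coe.mp hi)
      omega
    have hj' : j ≤ n := by
      have := Finset.mem_range.mp (Finset.mem_coe.mp hj)
      omega
    have h1 := hv i hi'
    have h2 := hv j hj'
    rw [hij, h2] at h1
    have h3 := mul_right_cancel₀ (ne_of_gt hδ) h1
    exact_mod_cast h3.symm
  have hPe := Lagrange.eq_interpolate (s := Finset.range (n + 1)) (v := v) hinj
    (by rw [Finset.card_range]; exact hP)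
  have hn0 : (0:ℝ) < n := by exact_mod_cast hn
  have heval : P.eval z = ∑ i ∈ Finset.range (n + 1), P.eval (v i) *
      ∏ j ∈ (Finset.range (n + 1)).erase i, ((v i - v j)⁻¹ * (z - v j)) := by
    conv_lhs => rw [hPe]
    rw [Lagrange.interpolate_apply, Polynomial.eval_finsetSum]
    apply Finset.sum_congr rfl
    intro i _
    rw [Polynomial.eval_mul, Polynomial.eval_C, Lagrange.basis, Polynomial.eval_prod]
    congr 1
    apply Finset.prod_congr rfl
    intro j _
    simp [Lagrange.basisDivisor]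
  rw [heval]
  have hterm : ∀ i ∈ Finset.range (n + 1), ‖P.eval (v i) *
      ∏ j ∈ (Finset.range (n + 1)).erase i, ((v i - v j)⁻¹ * (z - v j))‖ ≤
      A * ((2 * (n:ℝ)) ^ n * (1 / ((i.factorial : ℝ) * ((n - i).factorial : ℝ)))) := by
    intro i hi
    have hi' : i ≤ n := by
      have := Finset.mem_range.mp hi
      omega
    rw [norm_mul, norm_prod]
    refine mul_le_mul (hPv i hi') ?_ (Finset.prod_nonneg fun _ _ => norm_nonneg _) hA
    have h1 : ∏ j ∈ (Finset.range (n + 1)).erase i, ‖(v i - v j)⁻¹ * (z - v j)‖ ≤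
        ∏ j ∈ (Finset.range (n + 1)).erase i, (2 * (n:ℝ)) * |(i:ℝ) - (j:ℝ)|⁻¹ := by
      apply Finset.prod_le_prod (fun _ _ => norm_nonneg _)
      intro j hj
      rw [Finset.mem_erase, Finset.mem_range] at hj
      have hj' : j ≤ n := by omega
      have hij : |(i:ℝ) - (j:ℝ)| > 0 := by
        rw [gt_iff_lt, abs_pos, sub_ne_zero]
        exact_mod_cast (Ne.symm hj.1)
      have h2 : |(i:ℝ) - (j:ℝ)| * δ ≤ ‖v i - v j‖ := by
        have h3 := abs_norm_sub_norm_le (v i - x) (v j - x)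
        rw [hv i hi', hv j hj'] at h3
        have h4 : v i - x - (v j - x) = v i - v j := by ring
        rw [h4] at h3
        rw [← sub_mul, abs_mul, abs_of_pos hδ] at h3
        exact h3
      have h5 : ‖z - v j‖ ≤ (2 * (n:ℝ)) * δ := by
        have h6 : z - v j = (z - x) - (v j - x) := by ring
        rw [h6]
        refine (norm_sub_le _ _).trans ?_
        rw [hv j hj']
        have h7 : (j:ℝ) ≤ n := by exact_mod_cast hj'
        nlinarith
      rw [norm_mul, norm_inv]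
      have h8 : ‖v i - v j‖⁻¹ ≤ (|(i:ℝ) - (j:ℝ)| * δ)⁻¹ :=
        inv_anti₀ (by positivity) h2
      calc ‖v i - v j‖⁻¹ * ‖z - v j‖ ≤ (|(i:ℝ) - (j:ℝ)| * δ)⁻¹ * ((2 * (n:ℝ)) * δ) :=
            mul_le_mul h8 h5 (norm_nonneg _) (by positivity)
        _ = (2 * (n:ℝ)) * |(i:ℝ) - (j:ℝ)|⁻¹ := by
            rw [mul_inv]
            field_simp
    refine h1.trans (le_of_eq ?_)
    rw [Finset.prod_mul_distrib, Finset.prod_const, Finset.card_erase_of_mem hi,
      Finset.card_range, Nat.add_sub_cancel, Finset.prod_inv_distrib]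
    have h9 := lagr_fact i (n - i)
    have h10 : i + (n - i) = n := by omega
    rw [h10] at h9
    rw [h9, one_div]
  refine (norm_sum_le _ _).trans ((Finset.sum_le_sum hterm).trans ?_)
  rw [← Finset.mul_sum, ← Finset.mul_sum, lagr_sum, mul_comm]
  refine mul_le_mul_of_nonneg_right ?_ hA
  have h1 := Real.pow_div_factorial_le_exp (n:ℝ) hn0.le n
  have h2 : (2 * (n:ℝ)) ^ n * (2 ^ n / (n.factorial : ℝ)) = 4 ^ n * ((n:ℝ) ^ n / (n.factorial : ℝ)) := by
    rw [mul_pow, show (4:ℝ) ^ n = 2 ^ n * 2 ^ n by rw [← mul_pow]; norm_num]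
    ring
  rw [h2]
  have h3 : Real.exp (n:ℝ) ≤ 3 ^ n := by
    have h4 : Real.exp (n:ℝ) = Real.exp 1 ^ n := by
      rw [← Real.exp_nat_mul, mul_one]
    rw [h4]
    exact pow_le_pow_left₀ (Real.exp_pos 1).le (by linarith [Real.exp_one_lt_d9]) n
  calc (4:ℝ) ^ n * ((n:ℝ) ^ n / (n.factorial : ℝ)) ≤ 4 ^ n * 3 ^ n :=
        mul_le_mul_of_nonneg_left (h1.trans h3) (by positivity)
    _ = 12 ^ n := by rw [← mul_pow]; norm_num

theorem lagrange_two_const (ρ : ℝ) (hρ : 0 < ρ) (x : ℂ) (g : ℂ → ℂ)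
    (hg : DifferentiableOn ℂ g (ball x ρ)) (m M : ℝ) (hm : 0 < m) (hmM : m ≤ M)
    (hM : ∀ z ∈ ball x ρ, ‖g z‖ ≤ M) (E : Set ℂ)
    (hE : ∀ t : ℝ, 0 ≤ t → t < ρ → ∃ z ∈ E, dist z x = t)
    (hgE : ∀ z ∈ E, z ∈ ball x ρ → ‖g z‖ ≤ m) :
    ∀ z ∈ ball x (ρ / 256), ‖g z‖ ^ 2 ≤ 10 ^ 6 * m * M := by
  intro z hz
  have hM0 : 0 < M := lt_of_lt_of_le hm hmM
  have hx : x ∈ ball x ρ := mem_ball_self hρ
  have hzρ : z ∈ ball x ρ := by
    rw [mem_ball] at hz ⊢
    linarith
  have hgz := hM z hzρ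
  obtain ⟨n, hn1, hn2⟩ := exists_nat_pow_near_of_lt_one (x := m / M) (y := (1:ℝ) / 256)
    (by positivity) (by rw [div_le_one hM0]; exact hmM) (by norm_num) (by norm_num)
  rcases Nat.eq_zero_or_pos n with hn0 | hnpos
  · subst hn0
    rw [zero_add, pow_one, lt_div_iff₀ hM0] at hn1
    have h1 : ‖g z‖ ^ 2 ≤ M ^ 2 := pow_le_pow_left₀ (norm_nonneg _) hgz 2
    nlinarith
  -- Taylor polynomial
  set R : ℝ := 3 / 4 * ρ with hR
  have hR0 : 0 < R := by rw [hR]; linarith
  have hdcc : DiffContOnCl ℂ g (ball x R) := by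
    refine hg.diffContOnCl_ball ?_
    exact closedBall_subset_ball (by rw [hR]; linarith)
  have hcoef : ∀ k : ℕ, ‖iteratedDeriv k g x‖ ≤ k.factorial * M / R ^ k := by
    intro k
    refine Complex.norm_iteratedDeriv_le_of_forall_mem_sphere_norm_le k hR0 hdcc ?_
    intro w hw
    apply hM
    rw [mem_sphere] at hw
    rw [mem_ball, hw, hR]
    linarith
  let f : ℂ → ℕ → ℂ := fun w k => (k.factorial : ℂ)⁻¹ • (w - x) ^ k • iteratedDeriv k g x
  have hf : ∀ w, w ∈ ball x ρ → HasSum (f w) (g w) := fun w hw =>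
    Complex.hasSum_taylorSeries_on_ball hg hw
  let P : Polynomial ℂ := ∑ k ∈ Finset.range (n + 1),
    Polynomial.C ((k.factorial : ℂ)⁻¹ * iteratedDeriv k g x) * (Polynomial.X - Polynomial.C x) ^ k
  have hPev : ∀ w, P.eval w = ∑ k ∈ Finset.range (n + 1), f w k := by
    intro w
    simp only [P, f, Polynomial.eval_finsetSum, Polynomial.eval_mul, Polynomial.eval_C,
      Polynomial.eval_pow, Polynomial.eval_sub, Polynomial.eval_X, smul_eq_mul]
    apply Finset.sum_congr rfl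
    intro k _
    ring
  have hPdeg : P.degree < ((n + 1 : ℕ) : WithBot ℕ) := by
    have h1 : P.natDegree ≤ n := by
      refine Polynomial.natDegree_sum_le_of_forall_le _ _ ?_
      intro k hk
      have hk' : k ≤ n := by
        have := Finset.mem_range.mp hk
        omega
      refine (Polynomial.natDegree_C_mul_le _ _).trans ?_
      refine Polynomial.natDegree_pow_le.trans ?_
      rw [Polynomial.natDegree_X_sub_C, mul_one]
      exact hk'
    refine lt_of_le_of_lt (Polynomial.degree_le_of_natDegree_le h1) ?_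
    exact_mod_cast Nat.lt_succ_self n
  have hrem : ∀ w, ‖w - x‖ ≤ ρ / 256 → ‖g w - P.eval w‖ ≤ 2 * M * (1 / 192) ^ (n + 1) := by
    intro w hw
    have hwb : w ∈ ball x ρ := by
      rw [mem_ball, dist_eq_norm]
      linarith
    have h1 := (hasSum_nat_add_iff' (n + 1)).mpr (hf w hwb)
    rw [← hPev] at h1
    have hgeo : HasSum (fun k : ℕ => M * (1 / 192 : ℝ) ^ (n + 1) * (1 / 192 : ℝ) ^ k)
        (M * (1 / 192 : ℝ) ^ (n + 1) * (1 - 1 / 192)⁻¹) :=
      (hasSum_geometric_of_lt_one (by norm_num) (by norm_num)).mul_left _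
    have h2 := h1.norm_le_of_bounded hgeo (by
      intro k
      simp only [f, smul_eq_mul]
      rw [norm_mul, norm_mul, norm_inv, norm_pow]
      have hfac : (0:ℝ) < ((k + (n + 1)).factorial : ℝ) := by exact_mod_cast Nat.factorial_pos _
      have e1 : ‖((k + (n + 1)).factorial : ℂ)‖ = ((k + (n + 1)).factorial : ℝ) := by
        rw [Complex.norm_natCast]
      rw [e1]
      have e2 : ‖w - x‖ ^ (k + (n + 1)) ≤ (ρ / 256) ^ (k + (n + 1)) :=
        pow_le_pow_left₀ (norm_nonneg _) hw _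
      calc ((k + (n + 1)).factorial : ℝ)⁻¹ * (‖w - x‖ ^ (k + (n + 1)) *
            ‖iteratedDeriv (k + (n + 1)) g x‖)
          ≤ ((k + (n + 1)).factorial : ℝ)⁻¹ * ((ρ / 256) ^ (k + (n + 1)) *
            (((k + (n + 1)).factorial : ℝ) * M / R ^ (k + (n + 1)))) := by
            refine mul_le_mul_of_nonneg_left ?_ (by positivity)
            exact mul_le_mul e2 (hcoef _) (norm_nonneg _) (by positivity)
        _ = M * ((ρ / 256) / R) ^ (k + (n + 1)) := by
            rw [div_pow (ρ / 256) R]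
            field_simp
        _ = M * (1 / 192 : ℝ) ^ (k + (n + 1)) := by
            have e3 : (ρ / 256) / R = 1 / 192 := by
              rw [hR]
              field_simp
              norm_num
            rw [e3]
        _ = M * (1 / 192 : ℝ) ^ (n + 1) * (1 / 192 : ℝ) ^ k := by
            rw [pow_add]
            ring)
    refine h2.trans ?_
    have h3 : (1 - 1 / 192 : ℝ)⁻¹ ≤ 2 := by norm_num
    have h4 : 0 ≤ M * (1 / 192 : ℝ) ^ (n + 1) := by positivity
    nlinarith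
  -- nodes
  have hnR : (0:ℝ) < n := by exact_mod_cast hnpos
  set δ : ℝ := ρ / (256 * n) with hδ
  have hδ0 : 0 < δ := by rw [hδ]; positivity
  have hnδ : (n:ℝ) * δ = ρ / 256 := by
    rw [hδ]
    field_simp
  have hnode : ∀ j : ℕ, ∃ w : ℂ, j ≤ n → w ∈ E ∧ dist w x = (j:ℝ) * δ := by
    intro j
    by_cases hj : j ≤ n
    · have hj' : (j:ℝ) ≤ n := by exact_mod_cast hj
      obtain ⟨w, hw1, hw2⟩ := hE ((j:ℝ) * δ) (by positivity) (by
        have : (j:ℝ) * δ ≤ (n:ℝ) * δ := mul_le_mul_of_nonneg_right hj' hδ0.le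
        rw [hnδ] at this
        linarith)
      exact ⟨w, fun _ => ⟨hw1, hw2⟩⟩
    · exact ⟨0, fun h => absurd h hj⟩
  choose v hv using hnode
  have hvn : ∀ j, j ≤ n → ‖v j - x‖ = (j:ℝ) * δ := by
    intro j hj
    rw [← dist_eq_norm]
    exact (hv j hj).2
  have hvle : ∀ j, j ≤ n → ‖v j - x‖ ≤ ρ / 256 := by
    intro j hj
    rw [hvn j hj, ← hnδ]
    have hj' : (j:ℝ) ≤ n := by exact_mod_cast hj
    exact mul_le_mul_of_nonneg_right hj' hδ0.le
  have hPv : ∀ j, j ≤ n → ‖P.eval (v j)‖ ≤ m + 2 * M * (1 / 192) ^ (n + 1) := by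
    intro j hj
    have h1 := hrem (v j) (hvle j hj)
    have h2 : ‖g (v j)‖ ≤ m := by
      apply hgE _ (hv j hj).1
      rw [mem_ball, dist_eq_norm]
      linarith [hvle j hj]
    have h3 : P.eval (v j) = g (v j) - (g (v j) - P.eval (v j)) := by ring
    rw [h3]
    exact (norm_sub_le _ _).trans (add_le_add h2 h1)
  have hzx : ‖z - x‖ ≤ (n:ℝ) * δ := by
    rw [hnδ, ← dist_eq_norm]
    exact (mem_ball.mp hz).le
  have hPz := lagr_interp n hnpos δ hδ0 x z v hvn hzx P hPdeg _ (by positivity) hPv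
  have hremz := hrem z (by rw [← hnδ]; exact hzx)
  have hgz2 : ‖g z‖ ≤ 12 ^ n * (m + 2 * M * (1 / 192) ^ (n + 1)) + 2 * M * (1 / 192) ^ (n + 1) := by
    have h3 : g z = P.eval z + (g z - P.eval z) := by ring
    rw [h3]
    exact (norm_add_le _ _).trans (add_le_add hPz hremz)
  have hmle : m ≤ M * (1 / 256) ^ n := by
    rw [div_le_iff₀ hM0] at hn2
    linarith
  have hu : (12:ℝ) ^ n * (1 / 256) ^ n ≤ (1 / 16) ^ n := by
    rw [← mul_pow]
    exact pow_le_pow_left₀ (by norm_num) (by norm_num) n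
  have hv1 : (12:ℝ) ^ n * (1 / 192) ^ n = (1 / 16) ^ n := by
    rw [← mul_pow]
    norm_num
  have hw1 : (1 / 192 : ℝ) ^ n ≤ (1 / 16) ^ n := pow_le_pow_left₀ (by norm_num) (by norm_num) n
  have hgz3 : ‖g z‖ ≤ 2 * M * (1 / 16) ^ n := by
    refine hgz2.trans ?_
    have e1 : (12:ℝ) ^ n * m ≤ M * (1 / 16) ^ n := by
      calc (12:ℝ) ^ n * m ≤ 12 ^ n * (M * (1 / 256) ^ n) :=
            mul_le_mul_of_nonneg_left hmle (by positivity)
        _ = M * (12 ^ n * (1 / 256) ^ n) := by ring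
        _ ≤ M * (1 / 16) ^ n := mul_le_mul_of_nonneg_left hu hM0.le
    have e2 : (12:ℝ) ^ n * (2 * M * (1 / 192) ^ (n + 1)) = M / 96 * (1 / 16) ^ n := by
      rw [← hv1, pow_succ]
      ring
    have e3 : 2 * M * (1 / 192 : ℝ) ^ (n + 1) ≤ M / 96 * (1 / 16) ^ n := by
      rw [pow_succ]
      calc 2 * M * ((1 / 192 : ℝ) ^ n * (1 / 192)) = M / 96 * (1 / 192) ^ n := by ring
        _ ≤ M / 96 * (1 / 16) ^ n := mul_le_mul_of_nonneg_left hw1 (by positivity)
    have e4 : 0 ≤ M * (1 / 16 : ℝ) ^ n := by positivity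
    rw [mul_add, e2]
    linarith
  have hsq : ‖g z‖ ^ 2 ≤ (2 * M * (1 / 16) ^ n) ^ 2 := pow_le_pow_left₀ (norm_nonneg _) hgz3 2
  have h16 : ((1 / 16 : ℝ) ^ n) ^ 2 = (1 / 256) ^ n := by
    rw [← pow_mul, mul_comm, pow_mul]
    norm_num
  have hfin : (2 * M * (1 / 16) ^ n) ^ 2 = 4 * M ^ 2 * (1 / 256) ^ n := by
    rw [mul_pow, h16]
    ring
  rw [hfin] at hsq
  have hn3 : (1 / 256 : ℝ) ^ n * M < 256 * m := by
    rw [lt_div_iff₀ hM0, pow_succ] at hn1
    linarith
  have hn4 : 4 * M ^ 2 * (1 / 256 : ℝ) ^ n ≤ 1024 * (m * M) := by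
    have : 4 * M * ((1 / 256 : ℝ) ^ n * M) ≤ 4 * M * (256 * m) :=
      mul_le_mul_of_nonneg_left hn3.le (by positivity)
    nlinarith
  have hmM0 : 0 < m * M := by positivity
  nlinarith

end Pool.Agent.Helper203.DS
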