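import Pool.Agent.Helper203.DS.Base
import Pool.Agent.Helper203.DS.KKm
import Pool.Agent.Helper203.DS.Seq

open Metric Set Filter Topology

noncomputable section

namespace Pool.Agent.Helper203.DS

theorem lemmaK_summable (X : ℕ → Pt) (r : ℝ) (hr0 : 0 < r) (hr1 : r < 1) (g : DA) :
    Summable (fun k => r ^ k * ‖g.1 (X k)‖ ^ 2) := by
  have h1 : Summable (fun k : ℕ => r ^ k * ‖g‖ ^ 2) :=
    (summable_geometric_of_lt_one hr0.le hr1).mul_right _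
  refine Summable.of_nonneg_of_le (fun k => by positivity) (fun k => ?_) h1
  exact mul_le_mul_of_nonneg_left (pow_le_pow_left₀ (norm_nonneg _) (norm_apply_le g (X k)) 2)
    (by positivity)

theorem lemmaK_E_le (X : ℕ → Pt) (r : ℝ) (hr0 : 0 < r) (hr1 : r < 1) (g : DA) :
    ∑' k, r ^ k * ‖g.1 (X k)‖ ^ 2 ≤ (1 - r)⁻¹ * ‖g‖ ^ 2 := by
  have h1 : Summable (fun k : ℕ => r ^ k * ‖g‖ ^ 2) :=
    (summable_geometric_of_lt_one hr0.le hr1).mul_right _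
  have h2 : ∑' k : ℕ, r ^ k * ‖g‖ ^ 2 = (1 - r)⁻¹ * ‖g‖ ^ 2 := by
    rw [tsum_mul_right, tsum_geometric_of_lt_one hr0.le hr1]
  rw [← h2]
  refine (lemmaK_summable X r hr0 hr1 g).tsum_le_tsum (fun k => ?_) h1
  exact mul_le_mul_of_nonneg_left (pow_le_pow_left₀ (norm_nonneg _) (norm_apply_le g (X k)) 2)
    (by positivity)

theorem lemmaK {T : DA →L[ℂ] DA} {Φ : Pt → Pt} (h : IsComp T Φ) (l : ℂ) (hl : ‖l‖ < 1)
    (S : DA →L[ℂ] DA) (hS : Res T l S) (q : ℝ) (hq : 1 < q) :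
    ∃ C : ℝ, ∀ x ∈ KK Φ, ∀ (f : DA) (n : ℕ), ‖((S ^ n) f).1 x‖ ≤ C * q ^ n * ‖f‖ := by
  obtain ⟨r, hr0, hr1, hseq⟩ := seq_ineq l hl q hq
  have h1r : 0 < 1 - r := by linarith
  refine ⟨Real.sqrt (1 - r)⁻¹, ?_⟩
  intro x hx f n
  obtain ⟨X, hX0, hX1, -⟩ := backward_orbit h.cont x hx
  have step : ∀ g : DA, ∑' k, r ^ k * ‖(S g).1 (X k)‖ ^ 2 ≤
      q ^ 2 * ∑' k, r ^ k * ‖g.1 (X k)‖ ^ 2 := by
    intro g
    obtain ⟨h', hg, hSg⟩ := hS.rep g
    have hu := hseq (fun k => (T h').1 (X k)) ⟨‖T h'‖, fun k => norm_apply_le _ _⟩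
    have hsh : ∀ k, (T h').1 (X (k + 1)) = h'.1 (X k) := by
      intro k; rw [h.eq, hX1]
    have e1 : ∀ k, g.1 (X k) = (T h').1 (X k) - l * (T h').1 (X (k + 1)) := by
      intro k
      rw [hsh]
      conv_lhs => rw [hg]
      rw [sub_apply, smul_apply]
    have e2 : ∀ k, (S g).1 (X k) =
        (T h').1 (X (k + 1)) - (starRingEnd ℂ) l * (T h').1 (X k) := by
      intro k
      rw [hsh, hSg, sub_apply, smul_apply]
    simp only [e1, e2]
    exact hu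
  have hiter : ∀ m : ℕ, ∑' k, r ^ k * ‖((S ^ m) f).1 (X k)‖ ^ 2 ≤
      q ^ (2 * m) * ∑' k, r ^ k * ‖f.1 (X k)‖ ^ 2 := by
    intro m
    induction m with
    | zero => simp
    | succ m ih =>
      have e : (S ^ (m + 1)) f = S ((S ^ m) f) := by rw [pow_succ']; rfl
      rw [e]
      refine (step _).trans ?_
      have := mul_le_mul_of_nonneg_left ih (by positivity : (0 : ℝ) ≤ q ^ 2)
      refine this.trans (le_of_eq ?_)
      ring
  have h0 : ‖((S ^ n) f).1 (X 0)‖ ^ 2 ≤ ∑' k, r ^ k * ‖((S ^ n) f).1 (X k)‖ ^ 2 := by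
    have := (lemmaK_summable X r hr0 hr1 ((S ^ n) f)).le_tsum 0 (fun k _ => by positivity)
    simpa using this
  have h3 : ‖((S ^ n) f).1 x‖ ^ 2 ≤ (Real.sqrt (1 - r)⁻¹ * q ^ n * ‖f‖) ^ 2 := by
    rw [← hX0]
    refine (h0.trans (hiter n)).trans ?_
    have h4 := mul_le_mul_of_nonneg_left (lemmaK_E_le X r hr0 hr1 f)
      (by positivity : (0 : ℝ) ≤ q ^ (2 * n))
    refine h4.trans (le_of_eq ?_)
    rw [mul_pow, mul_pow, Real.sq_sqrt (by positivity)]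
    ring
  exact (pow_le_pow_iff_left₀ (norm_nonneg _) (by positivity) two_ne_zero).1 h3

end Pool.Agent.Helper203.DS
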