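import Pool.Agent.Helper203.DS.Base

open Metric Set Filter Topology

noncomputable section

namespace Pool.Agent.Helper203.DS

/-- the operator `A0` -/
def vvA (S : DA →L[ℂ] DA) (l : ℂ) : DA →L[ℂ] DA := S + (starRingEnd ℂ) l • (1 : DA →L[ℂ] DA)

theorem vvA_comm (S : DA →L[ℂ] DA) (l : ℂ) (j : ℕ) (f : DA) :
    vvA S l ((S ^ j) f) = (S ^ j) (vvA S l f) := by
  have h : S ((S ^ j) f) = (S ^ j) (S f) := by
    have h1 : S * S ^ j = S ^ j * S := by rw [← pow_succ, ← pow_succ']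
    exact congrArg (fun T : DA →L[ℂ] DA => T f) h1
  have e : ∀ g : DA, vvA S l g = S g + (starRingEnd ℂ) l • g := fun g => rfl
  rw [e, e, map_add, map_smul, h]

theorem vv_term {S : DA →L[ℂ] DA} {l : ℂ} {β C : ℝ} {B : Set Pt} (hA : Adm S l β C B) (k : ℕ)
    (C' : ℝ) (hC : 0 ≤ C')
    (hb : ∀ z ∈ B, ∀ (f : DA) (n : ℕ), ‖VV S l k z ((S ^ n) f)‖ ≤ C' * β ^ n * ‖f‖)
    (z : Pt) (hz : z ∈ B) (f : DA) (n j : ℕ) :
    ‖(-l) ^ j * VV S l k z ((S + (starRingEnd ℂ) l • (1 : DA →L[ℂ] DA)) ((S ^ j) ((S ^ n) f)))‖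
      ≤ (C' * ‖vvA S l‖ * ‖f‖ * β ^ n) * (β * ‖l‖) ^ j := by
  have hβ : 0 < β := lt_trans one_pos hA.one_lt
  have h1 : (S ^ j) ((S ^ n) f) = (S ^ (j + n)) f := by rw [pow_add]; rfl
  have h2 : (S + (starRingEnd ℂ) l • (1 : DA →L[ℂ] DA)) ((S ^ (j + n)) f)
      = (S ^ (j + n)) (vvA S l f) := vvA_comm S l (j + n) f
  rw [h1, h2, norm_mul, norm_pow, norm_neg]
  have h3 := hb z hz (vvA S l f) (j + n)
  have h4 : ‖vvA S l f‖ ≤ ‖vvA S l‖ * ‖f‖ := (vvA S l).le_opNorm f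
  calc ‖l‖ ^ j * ‖VV S l k z ((S ^ (j + n)) (vvA S l f))‖
      ≤ ‖l‖ ^ j * (C' * β ^ (j + n) * (‖vvA S l‖ * ‖f‖)) := by
        apply mul_le_mul_of_nonneg_left _ (by positivity)
        exact h3.trans (mul_le_mul_of_nonneg_left h4 (by positivity))
    _ = (C' * ‖vvA S l‖ * ‖f‖ * β ^ n) * (β * ‖l‖) ^ j := by
        rw [pow_add, mul_pow]
        ring

theorem vv_hasSum {S : DA →L[ℂ] DA} {l : ℂ} {β C : ℝ} {B : Set Pt} (hA : Adm S l β C B)
    (D : ℝ) : HasSum (fun j : ℕ => D * (β * ‖l‖) ^ j) (D * (1 - β * ‖l‖)⁻¹) := by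
  have hβ : 0 < β := lt_trans one_pos hA.one_lt
  exact (hasSum_geometric_of_lt_one (by positivity) hA.small).mul_left D

theorem vv_bound_nonneg {S : DA →L[ℂ] DA} {l : ℂ} {β C : ℝ} {B : Set Pt} (hA : Adm S l β C B)
    (k : ℕ) :
    ∃ C' : ℝ, 0 ≤ C' ∧ ∀ z ∈ B, ∀ (f : DA) (n : ℕ),
      ‖VV S l k z ((S ^ n) f)‖ ≤ C' * β ^ n * ‖f‖ := by
  have hβ : 0 < β := lt_trans one_pos hA.one_lt
  induction k with
  | zero =>
    refine ⟨|C|, abs_nonneg _, fun z hz f n => ?_⟩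
    refine (hA.bound z hz f n).trans ?_
    have : 0 ≤ β ^ n * ‖f‖ := by positivity
    have h2 := le_abs_self C
    nlinarith
  | succ k ih =>
    obtain ⟨C', hC, hb⟩ := ih
    have h1 : 0 < 1 - β * ‖l‖ := by have := hA.small; linarith
    refine ⟨C' * ‖vvA S l‖ * (1 - β * ‖l‖)⁻¹, by positivity, fun z hz f n => ?_⟩
    have h := tsum_of_norm_bounded (vv_hasSum hA (C' * ‖vvA S l‖ * ‖f‖ * β ^ n))
      (vv_term hA k C' hC hb z hz f n)
    refine (le_of_eq ?_).trans (h.trans (le_of_eq ?_))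
    · rfl
    · ring

theorem vv_summable {S : DA →L[ℂ] DA} {l : ℂ} {β C : ℝ} {B : Set Pt} (hA : Adm S l β C B)
    (k : ℕ) (z : Pt) (hz : z ∈ B) (f : DA) :
    Summable (fun n : ℕ =>
      (-l) ^ n * VV S l k z ((S + (starRingEnd ℂ) l • (1 : DA →L[ℂ] DA)) ((S ^ n) f))) := by
  obtain ⟨C', hC, hb⟩ := vv_bound_nonneg hA k
  refine Summable.of_norm_bounded (vv_hasSum hA (C' * ‖vvA S l‖ * ‖f‖ * β ^ 0)).summable
    (fun n => ?_)
  exact vv_term hA k C' hC hb z hz f 0 n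

theorem VV_bound {S : DA →L[ℂ] DA} {l : ℂ} {β C : ℝ} {B : Set Pt} (hA : Adm S l β C B) (k : ℕ) :
    ∃ C' : ℝ, ∀ z ∈ B, ∀ (f : DA) (n : ℕ), ‖VV S l k z ((S ^ n) f)‖ ≤ C' * β ^ n * ‖f‖ := by
  obtain ⟨C', _, h⟩ := vv_bound_nonneg hA k
  exact ⟨C', h⟩

theorem VV_add {S : DA →L[ℂ] DA} {l : ℂ} {β C : ℝ} {B : Set Pt} (hA : Adm S l β C B) (k : ℕ)
    (z : Pt) (hz : z ∈ B) (f g : DA) : VV S l k z (f + g) = VV S l k z f + VV S l k z g := by
  induction k generalizing f g with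
  | zero => exact add_apply f g z
  | succ k ih =>
    show ∑' n : ℕ, (-l) ^ n *
      VV S l k z ((S + (starRingEnd ℂ) l • (1 : DA →L[ℂ] DA)) ((S ^ n) (f + g))) = _
    have h1 := (vv_summable hA k z hz f).tsum_add (vv_summable hA k z hz g)
    refine Eq.trans ?_ h1
    refine tsum_congr fun n => ?_
    rw [map_add, map_add, ih, mul_add]

theorem VV_smul {S : DA →L[ℂ] DA} {l : ℂ} (k : ℕ) (z : Pt) (c : ℂ) (f : DA) :
    VV S l k z (c • f) = c * VV S l k z f := by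
  induction k generalizing f with
  | zero => exact smul_apply c f z
  | succ k ih =>
    show ∑' n : ℕ, (-l) ^ n *
      VV S l k z ((S + (starRingEnd ℂ) l • (1 : DA →L[ℂ] DA)) ((S ^ n) (c • f))) = c *
      ∑' n : ℕ, (-l) ^ n *
      VV S l k z ((S + (starRingEnd ℂ) l • (1 : DA →L[ℂ] DA)) ((S ^ n) f))
    rw [← tsum_mul_left]
    refine tsum_congr fun n => ?_
    rw [map_smul, map_smul, ih]
    ring

theorem VV_approx {S : DA →L[ℂ] DA} {l : ℂ} {β C : ℝ} {B : Set Pt} (hA : Adm S l β C B) (k : ℕ)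
    (f : DA) (ε : ℝ) (hε : 0 < ε) : ∃ g : DA, ∀ z ∈ B, ‖VV S l k z f - g.1 z‖ ≤ ε := by
  have hβ : 0 < β := lt_trans one_pos hA.one_lt
  induction k generalizing f ε with
  | zero =>
    refine ⟨f, fun z _ => ?_⟩
    show ‖f.1 z - f.1 z‖ ≤ ε
    rw [sub_self, norm_zero]
    exact hε.le
  | succ k ih =>
    obtain ⟨C', hC, hb⟩ := vv_bound_nonneg hA k
    have hr0 : 0 ≤ β * ‖l‖ := by positivity
    have hr1 := hA.small
    have hl1 : ‖l‖ ≤ 1 := by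
      have h1 := hA.one_lt
      have h2 := norm_nonneg l
      nlinarith
    set D := C' * ‖vvA S l‖ * ‖f‖ * β ^ 0 with hD
    have ht : Filter.Tendsto (fun J : ℕ => (D * (1 - β * ‖l‖)⁻¹) * (β * ‖l‖) ^ J)
        Filter.atTop (nhds 0) := by
      have := (tendsto_pow_atTop_nhds_zero_of_lt_one hr0 hr1).const_mul (D * (1 - β * ‖l‖)⁻¹)
      rwa [mul_zero] at this
    obtain ⟨J, hJ⟩ := (ht.eventually (gt_mem_nhds (half_pos hε))).exists
    have hδ : 0 < ε / 2 / (J + 1) := by positivity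
    choose g hg using fun j : ℕ => ih ((S + (starRingEnd ℂ) l • (1 : DA →L[ℂ] DA)) ((S ^ j) f))
      (ε / 2 / (J + 1)) hδ
    refine ⟨∑ j ∈ Finset.range J, (-l) ^ j • g j, fun z hz => ?_⟩
    have hs := vv_summable hA k z hz f
    have hsplit := hs.sum_add_tsum_nat_add J
    have htail : ‖∑' j : ℕ, (-l) ^ (j + J) *
        VV S l k z ((S + (starRingEnd ℂ) l • (1 : DA →L[ℂ] DA)) ((S ^ (j + J)) f))‖ ≤ ε / 2 := by
      have h1 := tsum_of_norm_bounded (vv_hasSum hA (D * (β * ‖l‖) ^ J)) (f := fun j : ℕ =>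
        (-l) ^ (j + J) *
        VV S l k z ((S + (starRingEnd ℂ) l • (1 : DA →L[ℂ] DA)) ((S ^ (j + J)) f))) (fun j => by
          refine (vv_term hA k C' hC hb z hz f 0 (j + J)).trans (le_of_eq ?_)
          rw [← hD, pow_add]
          ring)
      refine h1.trans (le_of_eq_of_le ?_ hJ.le)
      ring
    show ‖(∑' n : ℕ, (-l) ^ n *
      VV S l k z ((S + (starRingEnd ℂ) l • (1 : DA →L[ℂ] DA)) ((S ^ n) f))) -
      (∑ j ∈ Finset.range J, (-l) ^ j • g j : DA).1 z‖ ≤ ε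
    rw [← hsplit, sum_apply, add_sub_right_comm, ← Finset.sum_sub_distrib]
    have hfin : ‖∑ j ∈ Finset.range J, ((-l) ^ j *
        VV S l k z ((S + (starRingEnd ℂ) l • (1 : DA →L[ℂ] DA)) ((S ^ j) f)) -
        ((-l) ^ j • g j : DA).1 z)‖ ≤ ε / 2 := by
      refine (norm_sum_le _ _).trans ?_
      have hterm : ∀ j ∈ Finset.range J, ‖(-l) ^ j *
        VV S l k z ((S + (starRingEnd ℂ) l • (1 : DA →L[ℂ] DA)) ((S ^ j) f)) -
        ((-l) ^ j • g j : DA).1 z‖ ≤ ε / 2 / (J + 1) := by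
        intro j _
        rw [smul_apply, ← mul_sub, norm_mul, norm_pow, norm_neg]
        have h1 : ‖l‖ ^ j ≤ 1 := pow_le_one₀ (norm_nonneg _) hl1
        calc ‖l‖ ^ j * ‖VV S l k z ((S + (starRingEnd ℂ) l • (1 : DA →L[ℂ] DA)) ((S ^ j) f)) -
              (g j).1 z‖ ≤ 1 * (ε / 2 / (J + 1)) :=
              mul_le_mul h1 (hg j z hz) (norm_nonneg _) (by norm_num)
          _ = _ := one_mul _
      refine (Finset.sum_le_sum hterm).trans ?_
      rw [Finset.sum_const, Finset.card_range, nsmul_eq_mul, mul_div_assoc', div_le_iff₀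
        (by positivity)]
      nlinarith
    refine (norm_add_le _ _).trans ?_
    linarith

end Pool.Agent.Helper203.DS
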