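import Pool.Agent.Helper203.DS.Base
import Pool.Agent.Helper203.DS.LemK
import Pool.Agent.Helper203.DS.VV1

open Metric Set Filter Topology

noncomputable section

namespace Pool.Agent.Helper203.DS

theorem tele_geo (a : ℕ → ℂ) (D r : ℝ) (hr0 : 0 ≤ r) (hr : r < 1) (h : ∀ n, ‖a n‖ ≤ D * r ^ n) :
    ∑' n, (a n - a (n + 1)) = a 0 := by
  have hs : Summable a :=
    Summable.of_norm_bounded ((summable_geometric_of_lt_one hr0 hr).mul_left D) h
  have hs' : Summable (fun n => a (n + 1)) := (summable_nat_add_iff 1).2 hs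
  rw [hs.tsum_sub hs', hs.tsum_eq_zero_add]
  ring

theorem res_A0 {T S : DA →L[ℂ] DA} {l : ℂ} (hS : Res T l S) (g : DA) :
    (S + (starRingEnd ℂ) l • (1 : DA →L[ℂ] DA)) (T g) = g + l • S g := by
  have := congrArg (fun A : DA →L[ℂ] DA => A g) hS.key
  simpa using this

theorem res_comm {T S : DA →L[ℂ] DA} {l : ℂ} (hS : Res T l S) (g : DA) : S (T g) = T (S g) := by
  have := congrArg (fun A : DA →L[ℂ] DA => A g) hS.comm
  simpa using this

theorem res_comm_pow {T S : DA →L[ℂ] DA} {l : ℂ} (hS : Res T l S) (n : ℕ) (g : DA) :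
    (S ^ n) (T g) = T ((S ^ n) g) := by
  induction n generalizing g with
  | zero => simp
  | succ n ih =>
    have e : ∀ x, (S ^ (n + 1)) x = (S ^ n) (S x) := fun x => by rw [pow_succ]; rfl
    rw [e, e, res_comm hS, ih]

theorem res_T_A0 {T S : DA →L[ℂ] DA} {l : ℂ} (hS : Res T l S) (g : DA) :
    T ((S + (starRingEnd ℂ) l • (1 : DA →L[ℂ] DA)) g) = g + l • S g := by
  rw [← res_A0 hS g]
  have e : ∀ x, (S + (starRingEnd ℂ) l • (1 : DA →L[ℂ] DA)) x =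
      S x + (starRingEnd ℂ) l • x := fun x => by simp
  rw [e, e, map_add, map_smul, res_comm hS]

theorem S_succ (S : DA →L[ℂ] DA) (n : ℕ) (g : DA) : S ((S ^ n) g) = (S ^ (n + 1)) g := by
  rw [pow_succ']; rfl

theorem VV_T {T S : DA →L[ℂ] DA} {l : ℂ} (hS : Res T l S) {β C : ℝ} {B : Set Pt}
    (hA : Adm S l β C B) (k : ℕ) (z : Pt) (hz : z ∈ B) (f : DA) :
    VV S l (k + 1) z (T f) = VV S l k z f := by
  obtain ⟨C', hC'⟩ := VV_bound hA k
  have hβ : 0 ≤ β := le_trans zero_le_one hA.one_lt.le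
  have h1 : VV S l (k + 1) z (T f) =
      ∑' n : ℕ, ((-l) ^ n * VV S l k z ((S ^ n) f) -
        (-l) ^ (n + 1) * VV S l k z ((S ^ (n + 1)) f)) := by
    show ∑' n : ℕ, (-l) ^ n * VV S l k z ((S + (starRingEnd ℂ) l • (1 : DA →L[ℂ] DA))
      ((S ^ n) (T f))) = _
    congr 1
    ext n
    rw [res_comm_pow hS, res_A0 hS, VV_add hA k z hz, VV_smul, S_succ]
    ring
  rw [h1, tele_geo (fun n => (-l) ^ n * VV S l k z ((S ^ n) f)) (C' * ‖f‖) (β * ‖l‖)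
    (mul_nonneg hβ (norm_nonneg _)) hA.small]
  · simp
  · intro n
    rw [norm_mul, norm_pow, norm_neg, mul_pow]
    have h2 := hC' z hz f n
    have h3 : 0 ≤ ‖l‖ ^ n := pow_nonneg (norm_nonneg _) _
    calc ‖l‖ ^ n * ‖VV S l k z ((S ^ n) f)‖ ≤ ‖l‖ ^ n * (C' * β ^ n * ‖f‖) :=
          mul_le_mul_of_nonneg_left h2 h3
      _ = C' * ‖f‖ * (β ^ n * ‖l‖ ^ n) := by ring

theorem VV_K {T S : DA →L[ℂ] DA} {Φ : Pt → Pt} (h : IsComp T Φ) {l : ℂ} (hl : ‖l‖ < 1)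
    (hS : Res T l S) (X : ℕ → Pt) (hX : ∀ k, Φ (X (k + 1)) = X k) (hXK : ∀ k, X k ∈ KK Φ) (k : ℕ)
    (f : DA) : VV S l k (X 0) f = f.1 (X k) := by
  induction k generalizing f with
  | zero => rfl
  | succ k ih =>
    have hl0 : 0 ≤ ‖l‖ := norm_nonneg l
    obtain ⟨C, hC⟩ := lemmaK h l hl S hS (2 / (1 + ‖l‖)) (by
      rw [lt_div_iff₀ (by linarith)]; linarith)
    have h1 : VV S l (k + 1) (X 0) f =
        ∑' n : ℕ, ((-l) ^ n * ((S ^ n) f).1 (X (k + 1)) -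
          (-l) ^ (n + 1) * ((S ^ (n + 1)) f).1 (X (k + 1))) := by
      show ∑' n : ℕ, (-l) ^ n * VV S l k (X 0) ((S + (starRingEnd ℂ) l • (1 : DA →L[ℂ] DA))
        ((S ^ n) f)) = _
      congr 1
      ext n
      rw [ih, ← hX k, ← h.eq, res_T_A0 hS, add_apply, smul_apply, S_succ]
      ring
    rw [h1, tele_geo (fun n => (-l) ^ n * ((S ^ n) f).1 (X (k + 1))) (C * ‖f‖)
      (2 / (1 + ‖l‖) * ‖l‖) (by positivity) (by
        rw [div_mul_eq_mul_div, div_lt_one (by linarith)]; linarith)]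
    · simp
    · intro n
      rw [norm_mul, norm_pow, norm_neg, mul_pow]
      have h2 := hC (X (k + 1)) (hXK _) f n
      have h3 : 0 ≤ ‖l‖ ^ n := pow_nonneg (norm_nonneg _) _
      calc ‖l‖ ^ n * ‖((S ^ n) f).1 (X (k + 1))‖
          ≤ ‖l‖ ^ n * (C * (2 / (1 + ‖l‖)) ^ n * ‖f‖) := mul_le_mul_of_nonneg_left h2 h3
        _ = C * ‖f‖ * ((2 / (1 + ‖l‖)) ^ n * ‖l‖ ^ n) := by ring

end Pool.Agent.Helper203.DS
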