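import Pool.Agent.Helper203.DS.Base
import Pool.Agent.Helper203.DS.KKm
import Pool.Agent.Helper203.DS.VV1
import Pool.Agent.Helper203.DS.VV2

open Metric Set Filter Topology

noncomputable section

namespace Pool.Agent.Helper203.DS

theorem j21877_zero (x : Pt) (K : Set Pt) (ρ ρ0 C0 : ℝ) (hC0 : 0 < C0)
    (tc : ∀ (g : DA) (m M : ℝ), 0 < m → m ≤ M →
      (∀ z : Pt, dist z x < ρ → ‖g.1 z‖ ≤ M) → (∀ z ∈ K, dist z x < ρ → ‖g.1 z‖ ≤ m) →
      ∀ z : Pt, dist z x < ρ0 → ‖g.1 z‖ ^ 3 ≤ C0 * m * M ^ 2)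
    (F : Pt → ℂ) (K0 K1 : ℝ) (hK0 : 0 ≤ K0) (hK1 : 0 < K1)
    (hb : ∀ z : Pt, dist z x < ρ → ‖F z‖ ≤ K0) (hz : ∀ z ∈ K, dist z x < ρ → F z = 0)
    (ha : ∀ ε : ℝ, 0 < ε → ε ≤ 1 → ∃ G : DA, ∀ z : Pt, dist z x < ρ → ‖F z - G.1 z‖ ≤ K1 * ε)
    (z : Pt) (h0 : dist z x < ρ0) (h1 : dist z x < ρ) : F z = 0 := by
  by_contra hne
  have hd : 0 < ‖F z‖ := norm_pos_iff.2 hne
  obtain ⟨d, hdef⟩ : ∃ d, d = ‖F z‖ := ⟨_, rfl⟩
  rw [← hdef] at hd
  obtain ⟨M, hM⟩ : ∃ M, M = K0 + K1 := ⟨_, rfl⟩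
  have hMpos : 0 < M := by rw [hM]; linarith
  have hD : 0 < C0 * K1 * M ^ 2 := by positivity
  obtain ⟨ε, hε⟩ : ∃ ε, ε = min 1 (min (d / (2 * K1)) ((d / 2) ^ 3 / (2 * (C0 * K1 * M ^ 2)))) :=
    ⟨_, rfl⟩
  have hεpos : 0 < ε := by
    rw [hε]
    refine lt_min one_pos (lt_min (by positivity) (by positivity))
  have hε1 : ε ≤ 1 := by rw [hε]; exact min_le_left _ _
  have hε2 : ε ≤ d / (2 * K1) := by
    rw [hε]; exact (min_le_right _ _).trans (min_le_left _ _)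
  have hε3 : ε ≤ (d / 2) ^ 3 / (2 * (C0 * K1 * M ^ 2)) := by
    rw [hε]; exact (min_le_right _ _).trans (min_le_right _ _)
  obtain ⟨G, hG⟩ := ha ε hεpos hε1
  have hm : 0 < K1 * ε := by positivity
  have hK1ε : K1 * ε ≤ K1 := by nlinarith
  have hmM : K1 * ε ≤ M := by rw [hM]; linarith
  have hGM : ∀ y : Pt, dist y x < ρ → ‖G.1 y‖ ≤ M := by
    intro y hy
    have e1 : G.1 y = F y - (F y - G.1 y) := by ring
    rw [e1]
    refine (norm_sub_le _ _).trans ?_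
    have := hb y hy
    have := hG y hy
    rw [hM]
    linarith
  have hGm : ∀ y ∈ K, dist y x < ρ → ‖G.1 y‖ ≤ K1 * ε := by
    intro y hyK hy
    have e1 := hG y hy
    rw [hz y hyK hy, zero_sub, norm_neg] at e1
    exact e1
  have key := tc G (K1 * ε) M hm hmM hGM hGm z h0
  have hGz : d / 2 ≤ ‖G.1 z‖ := by
    have e1 := hG z h1
    have e2 : ‖F z‖ ≤ ‖F z - G.1 z‖ + ‖G.1 z‖ := by
      have e3 : F z = (F z - G.1 z) + G.1 z := by ring
      calc ‖F z‖ = ‖(F z - G.1 z) + G.1 z‖ := by rw [← e3]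
        _ ≤ _ := norm_add_le _ _
    rw [le_div_iff₀ (by positivity)] at hε2
    rw [← hdef] at e2
    nlinarith
  have hcube : (d / 2) ^ 3 ≤ ‖G.1 z‖ ^ 3 := pow_le_pow_left₀ (by positivity) hGz 3
  rw [le_div_iff₀ (by positivity)] at hε3
  have hpos3 : 0 < (d / 2) ^ 3 := by positivity
  nlinarith

theorem VV_mul {T S : DA →L[ℂ] DA} {Φ : Pt → Pt} (h : IsComp T Φ) {l : ℂ} (hl : ‖l‖ < 1)
    (hS : Res T l S) (x : Pt) (hTC : TC (KK Φ) x) (ρ : ℝ) (hρ : 0 < ρ) (β C : ℝ)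
    (hA : Adm S l β C {z : Pt | dist z x < ρ}) :
    ∃ ρ' : ℝ, 0 < ρ' ∧ ρ' ≤ ρ ∧ ∀ (k : ℕ) (z : Pt), dist z x < ρ' →
      VV S l k z 1 = 1 ∧ ∀ f g : DA, VV S l k z (f * g) = VV S l k z f * VV S l k z g := by
  obtain ⟨ρ0, hρ0, C0, hC0, tc⟩ := hTC ρ hρ
  refine ⟨min ρ0 ρ, lt_min hρ0 hρ, min_le_right _ _, fun k z hz => ?_⟩
  have hz0 : dist z x < ρ0 := lt_of_lt_of_le hz (min_le_left _ _)
  have hz1 : dist z x < ρ := lt_of_lt_of_le hz (min_le_right _ _)
  obtain ⟨C', hC'⟩ := VV_bound hA k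
  have hbd : ∀ y : Pt, dist y x < ρ → ∀ f : DA, ‖VV S l k y f‖ ≤ |C'| * ‖f‖ := by
    intro y hy f
    have e1 := hC' y hy f 0
    rw [pow_zero, pow_zero, mul_one] at e1
    have e2 : ((1 : DA →L[ℂ] DA)) f = f := rfl
    rw [e2] at e1
    refine e1.trans (mul_le_mul_of_nonneg_right (le_abs_self _) (norm_nonneg _))
  have hK : ∀ y ∈ KK Φ, ∃ p : Pt, ∀ f : DA, VV S l k y f = f.1 p := by
    intro y hy
    obtain ⟨X, hX0, hX1, hX2⟩ := backward_orbit h.cont y hy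
    refine ⟨X k, fun f => ?_⟩
    rw [← hX0]
    exact VV_K h hl hS X hX1 hX2 k f
  constructor
  · have := j21877_zero x (KK Φ) ρ ρ0 C0 hC0 tc (fun y => VV S l k y 1 - 1)
      (|C'| * ‖(1 : DA)‖ + 1) 1 (by positivity) one_pos ?_ ?_ ?_ z hz0 hz1
    · exact sub_eq_zero.1 this
    · intro y hy
      refine (norm_sub_le _ _).trans ?_
      rw [norm_one]
      have := hbd y hy 1
      linarith
    · intro y hyK hy
      obtain ⟨p, hp⟩ := hK y hyK
      show VV S l k y 1 - 1 = 0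
      rw [hp, one_apply, sub_self]
    · intro ε hε _
      obtain ⟨g, hg⟩ := VV_approx hA k 1 ε hε
      refine ⟨g - 1, fun y hy => ?_⟩
      have e1 := hg y hy
      have e2 : VV S l k y 1 - 1 - (g - 1).1 y = VV S l k y 1 - g.1 y := by
        rw [sub_apply, one_apply]; ring
      show ‖VV S l k y 1 - 1 - (g - 1).1 y‖ ≤ 1 * ε
      rw [e2, one_mul]
      exact e1
  · intro f g
    obtain ⟨a, hadef⟩ : ∃ a, a = |C'| * ‖f‖ := ⟨_, rfl⟩
    obtain ⟨b, hbdef⟩ : ∃ b, b = |C'| * ‖g‖ := ⟨_, rfl⟩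
    have ha0 : 0 ≤ a := by rw [hadef]; positivity
    have hb0 : 0 ≤ b := by rw [hbdef]; positivity
    have := j21877_zero x (KK Φ) ρ ρ0 C0 hC0 tc
      (fun y => VV S l k y (f * g) - VV S l k y f * VV S l k y g)
      (|C'| * ‖f * g‖ + a * b) (a + b + 2) (by positivity) (by positivity) ?_ ?_ ?_ z hz0 hz1
    · exact sub_eq_zero.1 this
    · intro y hy
      refine (norm_sub_le _ _).trans ?_
      rw [norm_mul]
      have e1 := hbd y hy (f * g)
      have e2 := hbd y hy f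
      have e3 := hbd y hy g
      rw [← hadef] at e2
      rw [← hbdef] at e3
      have e4 := mul_le_mul e2 e3 (norm_nonneg _) ha0
      linarith
    · intro y hyK hy
      obtain ⟨p, hp⟩ := hK y hyK
      show VV S l k y (f * g) - VV S l k y f * VV S l k y g = 0
      rw [hp, hp, hp, mul_apply, sub_self]
    · intro ε hε hε1
      obtain ⟨g1, hg1⟩ := VV_approx hA k (f * g) ε hε
      obtain ⟨g2, hg2⟩ := VV_approx hA k f ε hε
      obtain ⟨g3, hg3⟩ := VV_approx hA k g ε hε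
      refine ⟨g1 - g2 * g3, fun y hy => ?_⟩
      have e1 := hg1 y hy
      have e2 := hg2 y hy
      have e3 := hg3 y hy
      have f2 := hbd y hy f
      have f3 := hbd y hy g
      rw [← hadef] at f2
      rw [← hbdef] at f3
      have e4 : VV S l k y (f * g) - VV S l k y f * VV S l k y g - (g1 - g2 * g3).1 y =
          (VV S l k y (f * g) - g1.1 y) - ((VV S l k y f - g2.1 y) * VV S l k y g +
            g2.1 y * (VV S l k y g - g3.1 y)) := by
        rw [sub_apply, mul_apply]; ring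
      show ‖VV S l k y (f * g) - VV S l k y f * VV S l k y g - (g1 - g2 * g3).1 y‖
        ≤ (a + b + 2) * ε
      rw [e4]
      have e5 : ‖g2.1 y‖ ≤ a + 1 := by
        have e6 : g2.1 y = VV S l k y f - (VV S l k y f - g2.1 y) := by ring
        rw [e6]
        refine (norm_sub_le _ _).trans ?_
        linarith
      have e7 : ‖(VV S l k y f - g2.1 y) * VV S l k y g‖ ≤ ε * b := by
        rw [norm_mul]
        exact mul_le_mul e2 f3 (norm_nonneg _) hε.le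
      have e8 : ‖g2.1 y * (VV S l k y g - g3.1 y)‖ ≤ (a + 1) * ε := by
        rw [norm_mul]
        exact mul_le_mul e5 e3 (norm_nonneg _) (by positivity)
      refine (norm_sub_le _ _).trans ?_
      have e9 := norm_add_le ((VV S l k y f - g2.1 y) * VV S l k y g)
        (g2.1 y * (VV S l k y g - g3.1 y))
      linarith

end Pool.Agent.Helper203.DS
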