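import Pool.Agent.Helper203.DS.Base
import Pool.Agent.Helper203.DS.Unit1
import Pool.Agent.Helper203.DS.Zero

open Metric Set Filter Topology

noncomputable section

namespace Pool.Agent.Helper203.DS

theorem exists_orbit {T : DA →L[ℂ] DA} {Φ : Pt → Pt} (h : IsComp T Φ) (hu : IsUnit T) (N : ℕ)
    (hN : ∀ j, 0 < j → j < N → T ^ j ≠ 1) :
    ∃ z : Pt, (∀ i, ‖(Φ^[i] z : ℂ)‖ = 1) ∧
      ∀ i j, i < N → j < N → Φ^[i] z = Φ^[j] z → i = j := by
  have hg : ∀ j ∈ Finset.Ioo 0 N, (T ^ j) Z - Z ≠ 0 := by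
    intro j hj h0
    rw [Finset.mem_Ioo] at hj
    apply hN j hj.1 hj.2
    have hfix : ∀ z : Pt, Φ^[j] z = z := by
      intro z
      apply Subtype.ext
      have h1 := congrArg (fun f : DA => f.1 z) h0
      simp only [sub_apply, zero_apply, h.pow, Z_apply] at h1
      exact sub_eq_zero.mp h1
    apply ContinuousLinearMap.ext
    intro f
    apply da_ext
    intro z
    rw [h.pow, hfix]
    rfl
  have hprod : ∏ j ∈ Finset.Ioo 0 N, ((T ^ j) Z - Z) ≠ 0 := by
    apply Finset.prod_induction _ (fun x : DA => x ≠ 0)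
    · intro a b ha hb hab
      rcases eq_zero_or_of_mul a b hab with h1 | h1
      · exact ha h1
      · exact hb h1
    · exact one_ne_zero
    · exact hg
  obtain ⟨z, hz1, hz2⟩ : ∃ z : Pt, ‖(z:ℂ)‖ = 1 ∧
      (∏ j ∈ Finset.Ioo 0 N, ((T ^ j) Z - Z)).1 z ≠ 0 := by
    by_contra hcon
    push Not at hcon
    exact hprod (eq_zero_of_sphere _ hcon)
  have hne : ∀ j, 0 < j → j < N → Φ^[j] z ≠ z := by
    intro j hj hjN heq
    rw [prod_apply] at hz2
    have h1 := Finset.prod_ne_zero_iff.mp hz2 j (Finset.mem_Ioo.mpr ⟨hj, hjN⟩)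
    apply h1
    rw [sub_apply, h.pow, heq, sub_self]
  obtain ⟨_, Ψ, _, _, _, hΨ, _⟩ := inv_comp h hu
  have hinj : Function.Injective Φ := Function.LeftInverse.injective hΨ
  have hlt : ∀ i j, i < j → j < N → Φ^[i] z ≠ Φ^[j] z := by
    intro i j hij hj heq
    obtain ⟨d, rfl⟩ := Nat.exists_eq_add_of_lt hij
    rw [show i + d + 1 = i + (d + 1) by ring, Function.iterate_add_apply] at heq
    have h1 := hinj.iterate i heq
    exact hne (d + 1) (Nat.succ_pos d) (by omega) h1.symm
  refine ⟨z, ?_, ?_⟩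
  · intro i
    induction i with
    | zero => exact hz1
    | succ i ih =>
      rw [Function.iterate_succ_apply']
      exact map_sphere h hu _ ih
  · intro i j hi hj heq
    rcases lt_trichotomy i j with h1 | h1 | h1
    · exact absurd heq (hlt i j h1 hj)
    · exact h1
    · exact absurd heq.symm (hlt j i h1 hi)

end Pool.Agent.Helper203.DS
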