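import Pool.Agent.Helper203.DS.Defs3
import Pool.Agent.Helper203.DS.CayL

open Metric Set Filter Topology

noncomputable section

namespace Pool.Agent.Helper203.DS

theorem window (a : ℂ) (ha : ‖a‖ = 1) (c : ℝ) (hc : 0 ≤ c) (R : ℝ) (hR : 0 < R) (Y : ℝ) :
    ∃ f : DA, ∀ z : Pt, ((z:ℂ) = a → f.1 z = 0) ∧ ((z:ℂ) ≠ a →
      f.1 z = Complex.exp (-(c * (Cay a z - Y * Complex.I))) *
        ((R:ℂ) / (R + (Cay a z - Y * Complex.I))) ^ 2) := by
  classical
  set F : ℂ → ℂ := fun z => if z = a then 0 else
    Complex.exp (-(c * (Cay a z - Y * Complex.I))) *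
        ((R:ℂ) / (R + (Cay a z - Y * Complex.I))) ^ 2 with hF
  have hre : ∀ z ∈ Metric.closedBall (0:ℂ) 1, z ≠ a → 0 ≤ (Cay a z).re := by
    intro z hz hza
    rw [cay_re a z ha hza]
    have h1 : ‖z‖ ≤ 1 := by simpa using hz
    have h2 : ‖z‖ ^ 2 ≤ 1 := by
      have := norm_nonneg z
      nlinarith
    exact div_nonneg (by linarith) (sq_nonneg _)
  have hne : ∀ z ∈ Metric.closedBall (0:ℂ) 1, z ≠ a →
      (R:ℂ) + (Cay a z - Y * Complex.I) ≠ 0 := by
    intro z hz hza h0
    have h1 := congrArg Complex.re h0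
    simp at h1
    have := hre z hz hza
    linarith
  have hdiff : ∀ z ∈ Metric.closedBall (0:ℂ) 1, z ≠ a → DifferentiableAt ℂ (fun z =>
      Complex.exp (-(c * (Cay a z - Y * Complex.I))) *
        ((R:ℂ) / (R + (Cay a z - Y * Complex.I))) ^ 2) z := by
    intro z hz hza
    have h1 : DifferentiableAt ℂ (fun z => Cay a z) z := by
      unfold Cay
      apply DifferentiableAt.div
      · fun_prop
      · fun_prop
      · exact sub_ne_zero.2 (Ne.symm hza)
    have h2 : DifferentiableAt ℂ (fun z => (R:ℂ) + (Cay a z - Y * Complex.I)) z := by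
      fun_prop
    have h3 : DifferentiableAt ℂ (fun z => (R:ℂ) / ((R:ℂ) + (Cay a z - Y * Complex.I))) z :=
      DifferentiableAt.div (differentiableAt_const _) h2 (hne z hz hza)
    have h4 : DifferentiableAt ℂ (fun z => Complex.exp (-(c * (Cay a z - Y * Complex.I)))) z := by
      fun_prop
    exact h4.mul (h3.pow 2)
  have hev : ∀ z, z ≠ a → F =ᶠ[nhds z] (fun z =>
      Complex.exp (-(c * (Cay a z - Y * Complex.I))) *
        ((R:ℂ) / (R + (Cay a z - Y * Complex.I))) ^ 2) := by
    intro z hza
    filter_upwards [isOpen_ne.mem_nhds hza] with w hw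
    have hw' : w ≠ a := hw
    simp only [hF, if_neg hw']
  have hda : ∀ z ∈ Metric.closedBall (0:ℂ) 1, z ≠ a → DifferentiableAt ℂ F z := by
    intro z hz hza
    exact (hdiff z hz hza).congr_of_eventuallyEq (hev z hza)
  have hcont : ContinuousOn F (Metric.closedBall (0:ℂ) 1) := by
    intro z hz
    by_cases hza : z = a
    · subst hza
      have hFz : F z = 0 := by simp [hF]
      unfold ContinuousWithinAt
      rw [hFz]
      set h : ℂ → ℂ := fun w => (R:ℂ) * (z - w) / (((R:ℂ) - Y * Complex.I) * (z - w) + (z + w))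
        with hh
      have hz0 : z ≠ 0 := by
        intro h0
        rw [h0] at ha
        simp at ha
      have hcz : ContinuousAt h z := by
        apply ContinuousAt.div
        · fun_prop
        · fun_prop
        · have : ((R:ℂ) - Y * Complex.I) * (z - z) + (z + z) = 2 * z := by ring
          rw [this]
          exact mul_ne_zero two_ne_zero hz0
      have hhz : h z = 0 := by simp [hh]
      have hc2 : Tendsto (fun w => ‖h w‖ ^ 2) (nhdsWithin z (Metric.closedBall 0 1)) (nhds 0) := by
        have h1 : ContinuousAt (fun w => ‖h w‖ ^ 2) z := hcz.norm.pow 2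
        have h2 : Tendsto (fun w => ‖h w‖ ^ 2) (nhds z) (nhds 0) := by
          have := h1.tendsto
          simpa [hhz] using this
        exact h2.mono_left nhdsWithin_le_nhds
      refine squeeze_zero_norm' ?_ hc2
      filter_upwards [self_mem_nhdsWithin] with w hw
      by_cases hwz : w = z
      · rw [hwz, hFz]
        simp
      · have h1 : F w = Complex.exp (-(c * (Cay z w - Y * Complex.I))) *
          ((R:ℂ) / (R + (Cay z w - Y * Complex.I))) ^ 2 := by simp only [hF, if_neg hwz]
        have h2 : (R:ℂ) / (R + (Cay z w - Y * Complex.I)) = h w := by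
          have hzw : z - w ≠ 0 := sub_ne_zero.2 (Ne.symm hwz)
          have h3 : (R:ℂ) + (Cay z w - Y * Complex.I) =
            (((R:ℂ) - Y * Complex.I) * (z - w) + (z + w)) / (z - w) := by
            unfold Cay
            field_simp
            ring
          rw [h3, div_div_eq_mul_div]
        rw [h1, h2, norm_mul, norm_pow]
        have h4 : ‖Complex.exp (-(c * (Cay z w - Y * Complex.I)))‖ ≤ 1 := by
          rw [Complex.norm_exp, Real.exp_le_one_iff]
          have h5 := hre w hw hwz
          simp
          exact mul_nonneg hc h5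
        calc ‖Complex.exp (-(c * (Cay z w - Y * Complex.I)))‖ * ‖h w‖ ^ 2
            ≤ 1 * ‖h w‖ ^ 2 := by
              apply mul_le_mul_of_nonneg_right h4 (by positivity)
          _ = ‖h w‖ ^ 2 := one_mul _
    · exact (hda z hz hza).continuousAt.continuousWithinAt
  have hdiffon : DifferentiableOn ℂ F (Metric.ball (0:ℂ) 1) := by
    intro z hz
    have hza : z ≠ a := by
      intro h0
      rw [h0, mem_ball_zero_iff, ha] at hz
      exact lt_irrefl _ hz
    exact (hda z (Metric.ball_subset_closedBall hz) hza).differentiableWithinAt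
  obtain ⟨f, hf⟩ := exists_da F hcont hdiffon
  refine ⟨f, fun z => ⟨fun hz => ?_, fun hz => ?_⟩⟩
  · rw [hf, hz]
    simp [hF]
  · rw [hf]
    simp only [hF, if_neg hz]

end Pool.Agent.Helper203.DS
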