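import Pool.Agent.Helper203.DS.Defs3
import Pool.Agent.Helper203.DS.CayL
import Pool.Agent.Helper203.DS.KKm
import Pool.Agent.Helper203.DS.Window

open Metric Set Filter Topology

noncomputable section

namespace Pool.Agent.Helper203.DS

theorem unif251 {T : DA →L[ℂ] DA} {Φ : Pt → Pt} (h : IsComp T Φ) (a : Pt)
    (hK : KK Φ ⊆ {a}) (δ : ℝ) (hδ : 0 < δ) :
    ∃ M : ℕ, ∀ n ≥ M, ∀ z, ‖(Φ^[n] z : ℂ) - a‖ < δ := by
  have hconv := conv_of_singleton h a hK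
  rw [Metric.tendsto_atTop] at hconv
  obtain ⟨M, hM⟩ := hconv δ hδ
  refine ⟨M, fun n hn z => ?_⟩
  have h1 := hM n hn
  rw [dist_eq_norm] at h1
  have h2 := norm_apply_le ((T^n) Z - algebraMap ℂ DA (a:ℂ)) z
  have h3 : ((T^n) Z - algebraMap ℂ DA (a:ℂ)).1 z = (Φ^[n] z : ℂ) - a := by
    rw [sub_apply, h.pow, Z_apply, algMap_apply]
  rw [h3] at h2
  exact lt_of_le_of_lt h2 h1

theorem phi_fix251 {T : DA →L[ℂ] DA} {Φ : Pt → Pt} (h : IsComp T Φ) (a : Pt)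
    (hK : KK Φ ⊆ {a}) : Φ a = a := by
  have h1 : Tendsto (fun n => Φ^[n] a) atTop (𝓝 a) := by
    rw [Metric.tendsto_atTop]
    intro ε hε
    obtain ⟨M, hM⟩ := unif251 h a hK ε hε
    refine ⟨M, fun n hn => ?_⟩
    have := hM n hn a
    rw [Subtype.dist_eq, dist_eq_norm]
    exact this
  have h2 : Tendsto (fun n => Φ^[n+1] a) atTop (𝓝 (Φ a)) := by
    simp_rw [Function.iterate_succ_apply']
    exact (h.cont.tendsto a).comp h1
  exact tendsto_nhds_unique h2 (h1.comp (tendsto_add_atTop_nat 1))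

theorem near_of_cay251 (a x : ℂ) (ha : ‖a‖ = 1) (hx : ‖x‖ ≤ 1) (hxa : x ≠ a) (δ : ℝ)
    (hδ : 0 < δ) (hc : 2 / δ < ‖Cay a x‖) : ‖x - a‖ < δ := by
  have hne : a - x ≠ 0 := sub_ne_zero.2 (Ne.symm hxa)
  have hpos : 0 < ‖a - x‖ := norm_pos_iff.2 hne
  have h1 : ‖Cay a x‖ * ‖a - x‖ ≤ 2 := by
    unfold Cay
    rw [norm_div, div_mul_cancel₀ _ hpos.ne']
    calc ‖a + x‖ ≤ ‖a‖ + ‖x‖ := norm_add_le _ _
      _ ≤ 2 := by linarith
  rw [norm_sub_rev]
  by_contra hcon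
  push Not at hcon
  have h2 : 2 < ‖Cay a x‖ * δ := by rwa [div_lt_iff₀ hδ] at hc
  have h3 : ‖Cay a x‖ * δ ≤ ‖Cay a x‖ * ‖a - x‖ :=
    mul_le_mul_of_nonneg_left hcon (norm_nonneg _)
  linarith

theorem cay_re_nonneg251 (a x : ℂ) (ha : ‖a‖ = 1) (hx : ‖x‖ ≤ 1) (hxa : x ≠ a) :
    0 ≤ (Cay a x).re := by
  rw [cay_re a x ha hxa]
  apply div_nonneg
  · have := norm_nonneg x
    nlinarith
  · positivity

theorem r_le251 (R : ℝ) (v : ℂ) (hv : 0 ≤ v.re) : R ≤ ‖(R:ℂ) + v‖ := by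
  calc R ≤ ((R:ℂ) + v).re := by simp; linarith
    _ ≤ ‖(R:ℂ) + v‖ := Complex.re_le_norm _

theorem q_le_one251 (R : ℝ) (hR : 0 < R) (v : ℂ) (hv : 0 ≤ v.re) :
    ‖(R:ℂ) / (R + v)‖ ≤ 1 := by
  have h1 := r_le251 R v hv
  rw [norm_div, Complex.norm_real, Real.norm_eq_abs, abs_of_pos hR]
  exact div_le_one_of_le₀ h1 (norm_nonneg _)

theorem sq_diff251 (R : ℝ) (hR : 0 < R) (u v : ℂ) (hu : 0 ≤ u.re) (hv : 0 ≤ v.re) :
    ‖((R:ℂ) / (R + v)) ^ 2 - ((R:ℂ) / (R + u)) ^ 2‖ ≤ 2 * ‖v - u‖ / R := by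
  have h1 := r_le251 R v hv
  have h2 := r_le251 R u hu
  have hv0 : (R:ℂ) + v ≠ 0 := by
    rw [← norm_pos_iff]; linarith
  have hu0 : (R:ℂ) + u ≠ 0 := by
    rw [← norm_pos_iff]; linarith
  have h3 : ‖(R:ℂ) / (R + v) - (R:ℂ) / (R + u)‖ ≤ ‖v - u‖ / R := by
    have e1 : (R:ℂ) / (R + v) - (R:ℂ) / (R + u) = -((R:ℂ) * (v - u)) / ((R + v) * (R + u)) := by
      field_simp
      ring
    rw [e1, norm_div, norm_neg, norm_mul, norm_mul, Complex.norm_real, Real.norm_eq_abs,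
      abs_of_pos hR, div_le_div_iff₀ (by positivity) hR]
    have : R * R ≤ ‖(R:ℂ) + v‖ * ‖(R:ℂ) + u‖ := mul_le_mul h1 h2 hR.le (norm_nonneg _)
    nlinarith [norm_nonneg (v - u)]
  have h4 : ‖(R:ℂ) / (R + v) + (R:ℂ) / (R + u)‖ ≤ 2 := by
    refine (norm_add_le _ _).trans ?_
    linarith [q_le_one251 R hR v hv, q_le_one251 R hR u hu]
  have e2 : ((R:ℂ) / (R + v)) ^ 2 - ((R:ℂ) / (R + u)) ^ 2 =
      ((R:ℂ) / (R + v) - (R:ℂ) / (R + u)) * ((R:ℂ) / (R + v) + (R:ℂ) / (R + u)) := by ring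
  rw [e2, norm_mul]
  calc ‖(R:ℂ) / (R + v) - (R:ℂ) / (R + u)‖ * ‖(R:ℂ) / (R + v) + (R:ℂ) / (R + u)‖
      ≤ (‖v - u‖ / R) * 2 := mul_le_mul h3 h4 (norm_nonneg _) (by positivity)
    _ = 2 * ‖v - u‖ / R := by ring

theorem pt_bound251 (c R : ℝ) (hc : 0 ≤ c) (hR : 0 < R) (b u e : ℂ) (hb : 0 < b.re)
    (hu : 0 ≤ u.re) (hv : 0 ≤ (u + b + e).re) :
    ‖Complex.exp (-(c * (u + b + e))) * ((R:ℂ) / (R + (u + b + e))) ^ 2 -
      Complex.exp (-(c * b)) * (Complex.exp (-(c * u)) * ((R:ℂ) / (R + u)) ^ 2)‖ ≤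
      ‖Complex.exp (-(c * e)) - 1‖ * ‖(R:ℂ) / (R + (u + b + e))‖ ^ 2 + 2 * (‖b‖ + ‖e‖) / R := by
  have e1 : Complex.exp (-(c * (u + b + e))) = Complex.exp (-(c * (u + b))) *
      Complex.exp (-(c * e)) := by
    rw [← Complex.exp_add]; ring_nf
  have e2 : Complex.exp (-(c * b)) * (Complex.exp (-(c * u)) * ((R:ℂ) / (R + u)) ^ 2) =
      Complex.exp (-(c * (u + b))) * ((R:ℂ) / (R + u)) ^ 2 := by
    rw [← mul_assoc, ← Complex.exp_add]; ring_nf
  have e3 : Complex.exp (-(c * (u + b + e))) * ((R:ℂ) / (R + (u + b + e))) ^ 2 -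
      Complex.exp (-(c * b)) * (Complex.exp (-(c * u)) * ((R:ℂ) / (R + u)) ^ 2) =
      Complex.exp (-(c * (u + b))) * ((Complex.exp (-(c * e)) - 1) *
        ((R:ℂ) / (R + (u + b + e))) ^ 2 + (((R:ℂ) / (R + (u + b + e))) ^ 2 -
        ((R:ℂ) / (R + u)) ^ 2)) := by
    rw [e1, e2]; ring
  rw [e3, norm_mul]
  have h1 : ‖Complex.exp (-(c * (u + b)))‖ ≤ 1 := by
    rw [Complex.norm_exp]
    apply Real.exp_le_one_iff.2
    have : (-(↑c * (u + b)) : ℂ).re = -(c * (u.re + b.re)) := by simp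
    rw [this]
    have : 0 ≤ c * (u.re + b.re) := mul_nonneg hc (by linarith)
    linarith
  have h2 := sq_diff251 R hR u (u + b + e) hu hv
  have h3 : ‖u + b + e - u‖ ≤ ‖b‖ + ‖e‖ := by
    have : u + b + e - u = b + e := by ring
    rw [this]; exact norm_add_le _ _
  calc ‖Complex.exp (-(c * (u + b)))‖ * ‖(Complex.exp (-(c * e)) - 1) *
        ((R:ℂ) / (R + (u + b + e))) ^ 2 + (((R:ℂ) / (R + (u + b + e))) ^ 2 -
        ((R:ℂ) / (R + u)) ^ 2)‖
      ≤ 1 * ‖(Complex.exp (-(c * e)) - 1) *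
        ((R:ℂ) / (R + (u + b + e))) ^ 2 + (((R:ℂ) / (R + (u + b + e))) ^ 2 -
        ((R:ℂ) / (R + u)) ^ 2)‖ := mul_le_mul_of_nonneg_right h1 (norm_nonneg _)
    _ ≤ ‖Complex.exp (-(c * e)) - 1‖ * ‖(R:ℂ) / (R + (u + b + e))‖ ^ 2 +
        2 * ‖u + b + e - u‖ / R := by
        rw [one_mul]
        refine (norm_add_le _ _).trans ?_
        rw [norm_mul, norm_pow]
        linarith
    _ ≤ _ := by
        gcongr

set_option maxHeartbeats 4000000 in
theorem spiral_mem {T : DA →L[ℂ] DA} {Φ : Pt → Pt} (h : IsComp T Φ) (a : Pt) (ha : ‖(a:ℂ)‖ = 1)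
    (hK : KK Φ ⊆ {a}) (N : ℕ) (hN : ∀ z : Pt, Φ^[N] z = a ∨ ‖(Φ^[N] z : ℂ)‖ < 1)
    (b : ℂ) (hb : 0 < b.re) (hlim : LimB a b Φ) (c : ℝ) (hc : 0 ≤ c) :
    Complex.exp (-(c * b)) ∈ spectrum ℂ T := by
  by_contra hns
  rw [spectrum.notMem_iff] at hns
  obtain ⟨S, hS⟩ := hns
  have hbd : ∃ C : ℝ, 0 < C ∧ ∀ g : DA, ‖g‖ ≤ C * ‖T g - Complex.exp (-(c * b)) • g‖ := by
    refine ⟨‖(↑S⁻¹ : DA →L[ℂ] DA)‖ + 1, by positivity, fun g => ?_⟩
    have h1 : (↑S⁻¹ : DA →L[ℂ] DA) ((↑S : DA →L[ℂ] DA) g) = g := by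
      have h0 : (↑S⁻¹ * ↑S : DA →L[ℂ] DA) = 1 := S.inv_mul
      calc (↑S⁻¹ : DA →L[ℂ] DA) ((↑S : DA →L[ℂ] DA) g) = ((↑S⁻¹ * ↑S : DA →L[ℂ] DA)) g := rfl
        _ = g := by rw [h0]; rfl
    have h2 : (↑S : DA →L[ℂ] DA) g = -(T g - Complex.exp (-(c * b)) • g) := by
      rw [hS, Algebra.algebraMap_eq_smul_one]
      show Complex.exp (-(c * b)) • g - T g = _
      abel
    calc ‖g‖ = ‖(↑S⁻¹ : DA →L[ℂ] DA) ((↑S : DA →L[ℂ] DA) g)‖ := by rw [h1]
      _ ≤ ‖(↑S⁻¹ : DA →L[ℂ] DA)‖ * ‖(↑S : DA →L[ℂ] DA) g‖ := ContinuousLinearMap.le_opNorm _ _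
      _ = ‖(↑S⁻¹ : DA →L[ℂ] DA)‖ * ‖T g - Complex.exp (-(c * b)) • g‖ := by rw [h2, norm_neg]
      _ ≤ _ := by
        apply mul_le_mul_of_nonneg_right _ (norm_nonneg _)
        linarith
  obtain ⟨C, hC0, hC⟩ := hbd
  obtain ⟨δ0, hδ0, hL0⟩ := hlim 1 one_pos
  obtain ⟨m, hM⟩ := unif251 h a hK δ0 hδ0
  have hm : ∀ z, ‖(Φ^[m] z : ℂ) - a‖ < δ0 := hM m le_rfl
  have hfix := phi_fix251 h a hK
  set κ : ℝ := Real.exp (-(c * (1 + m * (b.re + 1)))) / 4 with hκdef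
  have hκ : 0 < κ := by positivity
  set θ : ℝ := κ / (2 * C) with hθdef
  have hθ : 0 < θ := by positivity
  have hm0 : (0:ℝ) ≤ m := Nat.cast_nonneg m
  have hb0 : 0 ≤ ‖b‖ := norm_nonneg b
  set R : ℝ := (‖b‖ + 1) * (1 + m) + 1 + 4 * (‖b‖ + 1) / θ with hRdef
  have hR0 : 0 < R := by positivity
  have hR1 : ‖b‖ + 1 ≤ R := by
    have : 0 ≤ 4 * (‖b‖ + 1) / θ := by positivity
    nlinarith
  have hR2 : 1 + m * (‖b‖ + 1) ≤ R := by
    have : 0 ≤ 4 * (‖b‖ + 1) / θ := by positivity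
    nlinarith
  have hR3 : 2 * (‖b‖ + 1) / R ≤ θ / 2 := by
    have h1 : 4 * (‖b‖ + 1) / θ ≤ R := by
      have : 0 ≤ (‖b‖ + 1) * (1 + m) + 1 := by positivity
      linarith
    rw [div_le_iff₀ hθ] at h1
    rw [div_le_iff₀ hR0]
    linarith
  set x : ℝ := 2 * (Real.exp c + 1) / θ with hxdef
  have hx0 : 0 < x := by positivity
  set K : ℝ := 3 + x with hKdef
  -- continuity of exp
  obtain ⟨η, hη, hexp⟩ : ∃ η : ℝ, 0 < η ∧ ∀ e : ℂ, ‖e‖ < η →
      ‖Complex.exp (-(c * e)) - 1‖ < θ / 2 := by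
    have hcont : Continuous fun e : ℂ => Complex.exp (-(c * e)) := by fun_prop
    have h1 := Metric.continuousAt_iff.1 (hcont.continuousAt (x := 0)) (θ / 2) (by positivity)
    obtain ⟨η, hη, h2⟩ := h1
    refine ⟨η, hη, fun e he => ?_⟩
    have h3 := h2 (x := e) (by rwa [dist_zero_right])
    rw [dist_eq_norm] at h3
    simpa using h3
  obtain ⟨δ1, hδ1, hL1⟩ := hlim η hη
  set Y : ℝ := K * R + 2 / δ1 + 1 + m * (‖b‖ + 1) + 2 / δ0 with hYdef
  have hKR : 0 < K * R := by positivity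
  have hd1 : 0 < 2 / δ1 := by positivity
  have hd0 : 0 < 2 / δ0 := by positivity
  have hmb : 0 ≤ m * (‖b‖ + 1) := by positivity
  have hY0 : 0 < Y := by positivity
  obtain ⟨f, hf⟩ := window (a:ℂ) ha c hc R hR0 Y
  -- upper bound
  have hup : ‖T ((T ^ m) f) - Complex.exp (-(c * b)) • (T ^ m) f‖ ≤ θ := by
    refine norm_le_of hθ.le fun z => ?_
    have e1 : (T ((T ^ m) f) - Complex.exp (-(c * b)) • (T ^ m) f).1 z =
        f.1 (Φ (Φ^[m] z)) - Complex.exp (-(c * b)) * f.1 (Φ^[m] z) := by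
      rw [sub_apply, smul_apply, h.eq, h.pow, h.pow, ← Function.iterate_succ_apply,
        Function.iterate_succ_apply']
    rw [e1]
    set y : Pt := Φ^[m] z with hy
    by_cases hya : (y:ℂ) = a
    · have hya' : y = a := Subtype.ext hya
      rw [hya', hfix, (hf a).1 rfl]
      simpa using hθ.le
    · have hnear : ‖(y:ℂ) - a‖ < δ0 := hm z
      obtain ⟨hne, he1⟩ := hL0 y hya hnear
      have hy1 : ‖(y:ℂ)‖ ≤ 1 := mem_closedBall_zero_iff.1 y.2
      have hPy1 : ‖(Φ y:ℂ)‖ ≤ 1 := mem_closedBall_zero_iff.1 (Φ y).2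
      have hw := cay_re_nonneg251 a y ha hy1 hya
      have hw' := cay_re_nonneg251 a (Φ y) ha hPy1 hne
      set u : ℂ := Cay a y - Y * Complex.I with hu
      set e : ℂ := Cay a (Φ y) - Cay a y - b with he
      have hue : Cay a (Φ y) - Y * Complex.I = u + b + e := by rw [hu, he]; ring
      have hure : 0 ≤ u.re := by rw [hu]; simpa using hw
      have hvre : 0 ≤ (u + b + e).re := by rw [← hue]; simpa using hw'
      rw [(hf (Φ y)).2 hne, (hf y).2 hya, hue]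
      refine (pt_bound251 c R hc hR0 b u e hb hure hvre).trans ?_
      have h5 : 2 * (‖b‖ + ‖e‖) / R ≤ θ / 2 := by
        refine le_trans ?_ hR3
        gcongr
      have hq1 := q_le_one251 R hR0 (u + b + e) hvre
      suffices h6 : ‖Complex.exp (-(c * e)) - 1‖ * ‖(R:ℂ) / (R + (u + b + e))‖ ^ 2 ≤ θ / 2 by
        linarith
      by_cases hcase : ‖u‖ ≤ K * R
      · have hwbig : 2 / δ1 < ‖Cay (a:ℂ) y‖ := by
          have h7 : ‖(Y:ℂ) * Complex.I‖ = Y := by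
            rw [norm_mul, Complex.norm_I, mul_one, Complex.norm_real, Real.norm_eq_abs,
              abs_of_pos hY0]
          have h8 : ‖(Y:ℂ) * Complex.I‖ ≤ ‖Cay (a:ℂ) y‖ + ‖u‖ := by
            have : (Y:ℂ) * Complex.I = Cay a y - u := by rw [hu]; ring
            rw [this]
            exact norm_sub_le _ _
          rw [h7] at h8
          linarith
        have hyn := near_of_cay251 a y ha hy1 hya δ1 hδ1 hwbig
        have he2 := (hL1 y hya hyn).2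
        have h9 := (hexp e he2).le
        have h10 : ‖(R:ℂ) / (R + (u + b + e))‖ ^ 2 ≤ 1 := by
          apply pow_le_one₀ (norm_nonneg _) hq1
        calc ‖Complex.exp (-(c * e)) - 1‖ * ‖(R:ℂ) / (R + (u + b + e))‖ ^ 2
            ≤ (θ / 2) * 1 := mul_le_mul h9 h10 (by positivity) (by positivity)
          _ = θ / 2 := mul_one _
      · push Not at hcase
        have h7 : ‖Complex.exp (-(c * e)) - 1‖ ≤ Real.exp c + 1 := by
          refine (norm_sub_le _ _).trans ?_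
          rw [norm_one]
          have : ‖Complex.exp (-(c * e))‖ ≤ Real.exp c := by
            rw [Complex.norm_exp]
            apply Real.exp_le_exp.2
            have h8 : (-(↑c * e) : ℂ).re = -(c * e.re) := by simp
            rw [h8]
            have h9 : -e.re ≤ ‖e‖ := by
              have := Complex.abs_re_le_norm e
              exact (neg_le_abs _).trans this
            nlinarith
          linarith
        have h8 : (K - 2) * R ≤ ‖(R:ℂ) + (u + b + e)‖ := by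
          have h9 : ‖u‖ ≤ ‖(R:ℂ) + (u + b + e)‖ + (R + ‖b‖ + ‖e‖) := by
            have e2 : u = ((R:ℂ) + (u + b + e)) - ((R:ℂ) + b + e) := by ring
            calc ‖u‖ = ‖((R:ℂ) + (u + b + e)) - ((R:ℂ) + b + e)‖ := by rw [← e2]
              _ ≤ ‖(R:ℂ) + (u + b + e)‖ + ‖(R:ℂ) + b + e‖ := norm_sub_le _ _
              _ ≤ ‖(R:ℂ) + (u + b + e)‖ + (R + ‖b‖ + ‖e‖) := by
                have h10 : ‖(R:ℂ) + b + e‖ ≤ ‖(R:ℂ)‖ + ‖b‖ + ‖e‖ := norm_add₃_le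
                have h11 : ‖(R:ℂ)‖ = R := by
                  rw [Complex.norm_real, Real.norm_eq_abs, abs_of_pos hR0]
                rw [h11] at h10
                linarith
          nlinarith
        have hK2 : K - 2 = 1 + x := by rw [hKdef]; ring
        have hpos : 0 < (K - 2) * R := by rw [hK2]; positivity
        have h9 : ‖(R:ℂ) / (R + (u + b + e))‖ ≤ 1 / (1 + x) := by
          rw [norm_div, Complex.norm_real, Real.norm_eq_abs, abs_of_pos hR0]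
          rw [div_le_div_iff₀ (lt_of_lt_of_le hpos h8) (by positivity)]
          rw [hK2] at h8
          linarith
        have h10 : ‖(R:ℂ) / (R + (u + b + e))‖ ^ 2 ≤ 1 / x := by
          calc ‖(R:ℂ) / (R + (u + b + e))‖ ^ 2 ≤ (1 / (1 + x)) ^ 2 := by
                gcongr
            _ ≤ 1 / x := by
                rw [div_pow, one_pow]
                apply one_div_le_one_div_of_le hx0
                nlinarith
        calc ‖Complex.exp (-(c * e)) - 1‖ * ‖(R:ℂ) / (R + (u + b + e))‖ ^ 2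
            ≤ (Real.exp c + 1) * (1 / x) := mul_le_mul h7 h10 (by positivity) (by positivity)
          _ = θ / 2 := by
              rw [hxdef]
              field_simp
  -- lower bound
  set w0 : ℂ := 1 + Y * Complex.I with hw0
  have hw0re : w0.re = 1 := by rw [hw0]; simp
  have hw01 : w0 + 1 ≠ 0 := by
    intro h0
    have := congrArg Complex.re h0
    rw [Complex.add_re, hw0re] at this
    norm_num at this
  have hz0n : ‖ic a w0‖ < 1 := ic_norm a w0 ha (by rw [hw0re]; norm_num)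
  set z0 : Pt := ⟨ic a w0, mem_closedBall_zero_iff.2 hz0n.le⟩ with hz0
  have hz0a : (z0:ℂ) ≠ a := by
    intro h0
    have h1 : ‖(z0:ℂ)‖ < 1 := hz0n
    rw [h0, ha] at h1
    exact lt_irrefl _ h1
  have hw0n : Y ≤ ‖w0‖ := by
    have : w0.im = Y := by rw [hw0]; simp
    calc Y = w0.im := this.symm
      _ ≤ |w0.im| := le_abs_self _
      _ ≤ ‖w0‖ := Complex.abs_im_le_norm _
  have hind : ∀ j : ℕ, j ≤ m → (Φ^[j] z0 : ℂ) ≠ a ∧ ‖Cay a (Φ^[j] z0) - w0 - j * b‖ ≤ j := by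
    intro j
    induction j with
    | zero =>
      intro _
      refine ⟨by simpa using hz0a, ?_⟩
      have : Cay a (z0:ℂ) = w0 := cay_ic a w0 ha hw01
      simp [this]
    | succ j ih =>
      intro hj
      obtain ⟨h1, h2⟩ := ih (by omega)
      have hjm : (j:ℝ) ≤ m := by exact_mod_cast (by omega : j ≤ m)
      have hj0 : (0:ℝ) ≤ j := Nat.cast_nonneg j
      have hbig : 2 / δ0 < ‖Cay a (Φ^[j] z0 : ℂ)‖ := by
        have h3 : ‖w0‖ ≤ ‖Cay a (Φ^[j] z0 : ℂ)‖ + (j + j * ‖b‖) := by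
          have e2 : w0 = Cay a (Φ^[j] z0 : ℂ) - (Cay a (Φ^[j] z0 : ℂ) - w0 - j * b) - j * b := by
            ring
          calc ‖w0‖ = ‖Cay a (Φ^[j] z0 : ℂ) - (Cay a (Φ^[j] z0 : ℂ) - w0 - j * b) - j * b‖ := by
                rw [← e2]
            _ ≤ ‖Cay a (Φ^[j] z0 : ℂ) - (Cay a (Φ^[j] z0 : ℂ) - w0 - j * b)‖ + ‖(j:ℂ) * b‖ :=
                norm_sub_le _ _
            _ ≤ ‖Cay a (Φ^[j] z0 : ℂ)‖ + ‖Cay a (Φ^[j] z0 : ℂ) - w0 - j * b‖ + ‖(j:ℂ) * b‖ := by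
                gcongr
                exact norm_sub_le _ _
            _ ≤ ‖Cay a (Φ^[j] z0 : ℂ)‖ + (j + j * ‖b‖) := by
                rw [norm_mul, Complex.norm_natCast]
                linarith
        have h4 : j + j * ‖b‖ ≤ m * (‖b‖ + 1) := by nlinarith
        linarith
      have hy1 : ‖(Φ^[j] z0:ℂ)‖ ≤ 1 := mem_closedBall_zero_iff.1 (Φ^[j] z0).2
      have hyn := near_of_cay251 a (Φ^[j] z0) ha hy1 h1 δ0 hδ0 hbig
      obtain ⟨h5, h6⟩ := hL0 (Φ^[j] z0) h1 hyn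
      rw [Function.iterate_succ_apply']
      refine ⟨h5, ?_⟩
      have e3 : Cay a (Φ (Φ^[j] z0) : ℂ) - w0 - ((j + 1 : ℕ) : ℂ) * b =
          (Cay a (Φ (Φ^[j] z0) : ℂ) - Cay a (Φ^[j] z0 : ℂ) - b) +
          (Cay a (Φ^[j] z0 : ℂ) - w0 - j * b) := by
        push_cast; ring
      rw [e3]
      refine (norm_add_le _ _).trans ?_
      push_cast
      linarith
  obtain ⟨hma, hmn⟩ := hind m le_rfl
  have hlow : κ ≤ ‖f.1 (Φ^[m] z0)‖ := by
    rw [(hf (Φ^[m] z0)).2 hma]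
    set v : ℂ := Cay a (Φ^[m] z0) - Y * Complex.I with hv
    have hv1 : ‖v - 1 - m * b‖ ≤ m := by
      have : v - 1 - m * b = Cay a (Φ^[m] z0) - w0 - m * b := by rw [hv, hw0]; ring
      rw [this]; exact hmn
    have hvre : v.re ≤ 1 + m * (b.re + 1) := by
      have h1 : (v - 1 - m * b).re ≤ m := (Complex.re_le_norm _).trans hv1
      have h2 : (v - 1 - m * b).re = v.re - 1 - m * b.re := by simp
      rw [h2] at h1
      linarith
    have hvn : ‖v‖ ≤ R := by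
      have e4 : v = (v - 1 - m * b) + (1 + m * b) := by ring
      have h1 : ‖v‖ ≤ ‖v - 1 - m * b‖ + ‖1 + m * b‖ := by
        calc ‖v‖ = ‖(v - 1 - m * b) + (1 + m * b)‖ := by rw [← e4]
          _ ≤ _ := norm_add_le _ _
      have h2 : ‖1 + m * b‖ ≤ 1 + m * ‖b‖ := by
        refine (norm_add_le _ _).trans ?_
        rw [norm_one, norm_mul, Complex.norm_natCast]
      linarith
    rw [norm_mul, norm_pow]
    have h3 : Real.exp (-(c * (1 + m * (b.re + 1)))) ≤ ‖Complex.exp (-(c * v))‖ := by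
      rw [Complex.norm_exp]
      apply Real.exp_le_exp.2
      have h4 : (-(↑c * v) : ℂ).re = -(c * v.re) := by simp
      rw [h4]
      have := mul_le_mul_of_nonneg_left hvre hc
      linarith
    have hPm1 : ‖(Φ^[m] z0:ℂ)‖ ≤ 1 := mem_closedBall_zero_iff.1 (Φ^[m] z0).2
    have hvre0 : 0 ≤ v.re := by
      have := cay_re_nonneg251 a (Φ^[m] z0) ha hPm1 hma
      rw [hv]; simpa using this
    have h5 : 1 / 2 ≤ ‖(R:ℂ) / (R + v)‖ := by
      have h6 := r_le251 R v hvre0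
      rw [norm_div, Complex.norm_real, Real.norm_eq_abs, abs_of_pos hR0]
      rw [div_le_div_iff₀ (by norm_num) (by linarith)]
      have h7 : ‖(R:ℂ) + v‖ ≤ R + R := by
        refine (norm_add_le _ _).trans ?_
        rw [Complex.norm_real, Real.norm_eq_abs, abs_of_pos hR0]
        linarith
      linarith
    calc κ = Real.exp (-(c * (1 + m * (b.re + 1)))) * (1 / 2) ^ 2 := by rw [hκdef]; ring
      _ ≤ ‖Complex.exp (-(c * v))‖ * ‖(R:ℂ) / (R + v)‖ ^ 2 := by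
        gcongr
  have hfin : ‖f.1 (Φ^[m] z0)‖ ≤ C * θ := by
    calc ‖f.1 (Φ^[m] z0)‖ = ‖((T ^ m) f).1 z0‖ := by rw [h.pow]
      _ ≤ ‖(T ^ m) f‖ := norm_apply_le _ _
      _ ≤ C * ‖T ((T ^ m) f) - Complex.exp (-(c * b)) • (T ^ m) f‖ := hC _
      _ ≤ C * θ := by gcongr
  have : C * θ = κ / 2 := by
    rw [hθdef]; field_simp
  linarith

end Pool.Agent.Helper203.DS
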