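import Pool.Agent.Helper203.DS.Defs3

open Metric Set Filter Topology

noncomputable section

namespace Pool.Agent.Helper203.DS

/-- the punctured neighbourhood filter pulled back to the disc -/
def FF (a : ℂ) : Filter Pt := Filter.comap (fun z : Pt => (z:ℂ)) (𝓝[≠] a)

theorem evFF (a : ℂ) (P : Pt → Prop) :
    (∀ᶠ z in FF a, P z) ↔ ∃ δ : ℝ, 0 < δ ∧ ∀ z : Pt, (z:ℂ) ≠ a → ‖(z:ℂ) - a‖ < δ → P z := by
  have hb := ((Metric.nhdsWithin_basis_ball (x := a) (s := {a}ᶜ)).comap (fun z : Pt => (z:ℂ)))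
  unfold FF
  rw [hb.eventually_iff]
  constructor
  · rintro ⟨δ, hδ, H⟩
    refine ⟨δ, hδ, fun z hz hz' => ?_⟩
    apply H
    refine ⟨?_, ?_⟩
    · rw [Metric.mem_ball, dist_eq_norm]; exact hz'
    · exact hz
  · rintro ⟨δ, hδ, H⟩
    refine ⟨δ, hδ, fun z hz => ?_⟩
    obtain ⟨h1, h2⟩ := hz
    rw [Metric.mem_ball, dist_eq_norm] at h1
    exact H z h2 h1

theorem tendV (a : ℂ) : Tendsto (fun z : Pt => (z:ℂ) - a) (FF a) (𝓝 0) := by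
  have h1 : Tendsto (fun z : Pt => (z:ℂ)) (FF a) (𝓝 a) :=
    (Filter.tendsto_comap (f := fun z : Pt => (z:ℂ)) (x := 𝓝[≠] a)).mono_right nhdsWithin_le_nhds
  have h2 := h1.sub_const a
  simpa using h2

theorem taycore (a α β : ℂ) (Φ : Pt → Pt) (h : Tay a α β Φ) :
    ∃ r : Pt → ℂ, Tendsto r (FF a) (𝓝 0) ∧ ∀ z : Pt, (z:ℂ) ≠ a →
      (Φ z : ℂ) - a = ((z:ℂ) - a) * (1 + α * ((z:ℂ) - a) + β * ((z:ℂ) - a) ^ 2
        + r z * ((z:ℂ) - a) ^ 2) := by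
  refine ⟨fun z => ((Φ z : ℂ) - (z + α * ((z:ℂ) - a) ^ 2 + β * ((z:ℂ) - a) ^ 3)) /
    ((z:ℂ) - a) ^ 3, ?_, ?_⟩
  · rw [Metric.tendsto_nhds]
    intro ε hε
    rw [evFF]
    obtain ⟨δ, hδ, H⟩ := h (ε / 2) (by linarith)
    refine ⟨δ, hδ, fun z hz hz' => ?_⟩
    have hv : 0 < ‖(z:ℂ) - a‖ := norm_pos_iff.2 (sub_ne_zero.2 hz)
    rw [dist_zero_right, norm_div, norm_pow, div_lt_iff₀ (by positivity)]
    have h1 := H z hz'
    have h2 : 0 < ‖(z:ℂ) - a‖ ^ 3 := by positivity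
    nlinarith
  · intro z hz
    have hv : (z:ℂ) - a ≠ 0 := sub_ne_zero.2 hz
    field_simp
    ring

theorem tendq (a α β : ℂ) (r : Pt → ℂ) (hr : Tendsto r (FF a) (𝓝 0)) :
    Tendsto (fun z : Pt => (1 + α * ((z:ℂ) - a) + β * ((z:ℂ) - a) ^ 2
        + r z * ((z:ℂ) - a) ^ 2)) (FF a) (𝓝 1) := by
  have hv := tendV a
  have h1 : Tendsto (fun z : Pt => (1 + α * ((z:ℂ) - a) + β * ((z:ℂ) - a) ^ 2
        + r z * ((z:ℂ) - a) ^ 2)) (FF a) (𝓝 (1 + α * 0 + β * 0 ^ 2 + 0 * 0 ^ 2)) :=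
    ((tendsto_const_nhds.add (hv.const_mul α)).add ((hv.pow 2).const_mul β)).add
      (hr.mul (hv.pow 2))
  simpa using h1

theorem tay_limB (a : ℂ) (ha : ‖a‖ = 1) (α β : ℂ) (Φ : Pt → Pt) (h : Tay a α β Φ) :
    LimB a (2 * a * α) Φ := by
  obtain ⟨r, hr, hV⟩ := taycore a α β Φ h
  have hv := tendV a
  have hq := tendq a α β r hr
  intro ε hε
  rw [← evFF a (fun z : Pt => (Φ z : ℂ) ≠ a ∧ ‖Cay a (Φ z) - Cay a z - 2 * a * α‖ < ε)]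
  have hq0 : ∀ᶠ z : Pt in FF a, (1 + α * ((z:ℂ) - a) + β * ((z:ℂ) - a) ^ 2
        + r z * ((z:ℂ) - a) ^ 2) ≠ 0 := hq.eventually_ne one_ne_zero
  have hne : ∀ᶠ z : Pt in FF a, (z:ℂ) ≠ a := by
    rw [evFF]; exact ⟨1, one_pos, fun z hz _ => hz⟩
  have hf : Tendsto (fun z : Pt => 2 * a * (α + β * ((z:ℂ) - a) + r z * ((z:ℂ) - a)) /
      (1 + α * ((z:ℂ) - a) + β * ((z:ℂ) - a) ^ 2 + r z * ((z:ℂ) - a) ^ 2)) (FF a)
      (𝓝 (2 * a * α)) := by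
    have h1 : Tendsto (fun z : Pt => 2 * a * (α + β * ((z:ℂ) - a) + r z * ((z:ℂ) - a)) /
      (1 + α * ((z:ℂ) - a) + β * ((z:ℂ) - a) ^ 2 + r z * ((z:ℂ) - a) ^ 2)) (FF a)
      (𝓝 (2 * a * (α + β * 0 + 0 * 0) / 1)) :=
      (((tendsto_const_nhds.add (hv.const_mul β)).add (hr.mul hv)).const_mul (2 * a)).div hq
        one_ne_zero
    simpa using h1
  have hf2 := (Metric.tendsto_nhds.1 hf) ε hε
  filter_upwards [hq0, hne, hf2] with z h1 h2 h3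
  have hv0 : (z:ℂ) - a ≠ 0 := sub_ne_zero.2 h2
  have hV0 : (Φ z : ℂ) - a ≠ 0 := by rw [hV z h2]; exact mul_ne_zero hv0 h1
  refine ⟨sub_ne_zero.1 hV0, ?_⟩
  rw [dist_eq_norm] at h3
  have e : Cay a (Φ z) - Cay a z = 2 * a * (α + β * ((z:ℂ) - a) + r z * ((z:ℂ) - a)) /
      (1 + α * ((z:ℂ) - a) + β * ((z:ℂ) - a) ^ 2 + r z * ((z:ℂ) - a) ^ 2) := by
    have e1 : Cay a (Φ z) - Cay a z
        = 2 * a * (((Φ z : ℂ) - a) - ((z:ℂ) - a)) / (((z:ℂ) - a) * ((Φ z : ℂ) - a)) := by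
      unfold Cay
      have g1 : a - (Φ z : ℂ) ≠ 0 := by
        intro hh; apply hV0; rw [← neg_sub, hh, neg_zero]
      have g2 : a - (z : ℂ) ≠ 0 := by
        intro hh; apply hv0; rw [← neg_sub, hh, neg_zero]
      rw [div_sub_div _ _ g1 g2, div_eq_div_iff (mul_ne_zero g1 g2) (mul_ne_zero hv0 hV0)]
      ring
    rw [e1, hV z h2, div_eq_div_iff (mul_ne_zero hv0 (mul_ne_zero hv0 h1)) h1]
    ring
  rw [e]
  exact h3

theorem tay_limC (a : ℂ) (ha : ‖a‖ = 1) (β : ℂ) (Φ : Pt → Pt) (h : Tay a 0 β Φ) :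
    LimC a (-4 * a ^ 2 * β) Φ := by
  obtain ⟨r, hr, hV⟩ := taycore a 0 β Φ h
  have hv := tendV a
  have hq := tendq a 0 β r hr
  intro ε hε
  rw [← evFF a (fun z : Pt => (Φ z : ℂ) ≠ a ∧
    ‖(Cay a (Φ z) - Cay a z) * Cay a z - -4 * a ^ 2 * β‖ < ε)]
  have hq0 : ∀ᶠ z : Pt in FF a, (1 + 0 * ((z:ℂ) - a) + β * ((z:ℂ) - a) ^ 2
        + r z * ((z:ℂ) - a) ^ 2) ≠ 0 := hq.eventually_ne one_ne_zero
  have hne : ∀ᶠ z : Pt in FF a, (z:ℂ) ≠ a := by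
    rw [evFF]; exact ⟨1, one_pos, fun z hz _ => hz⟩
  have hf : Tendsto (fun z : Pt => -(2 * a) * (β + r z) * (2 * a + ((z:ℂ) - a)) /
      (1 + 0 * ((z:ℂ) - a) + β * ((z:ℂ) - a) ^ 2 + r z * ((z:ℂ) - a) ^ 2)) (FF a)
      (𝓝 (-4 * a ^ 2 * β)) := by
    have h1 : Tendsto (fun z : Pt => -(2 * a) * (β + r z) * (2 * a + ((z:ℂ) - a)) /
      (1 + 0 * ((z:ℂ) - a) + β * ((z:ℂ) - a) ^ 2 + r z * ((z:ℂ) - a) ^ 2)) (FF a)
      (𝓝 (-(2 * a) * (β + 0) * (2 * a + 0) / 1)) :=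
      (((tendsto_const_nhds.add hr).const_mul (-(2 * a))).mul (tendsto_const_nhds.add hv)).div hq
        one_ne_zero
    have e : -(2 * a) * (β + 0) * (2 * a + 0) / 1 = -4 * a ^ 2 * β := by ring
    rw [e] at h1
    exact h1
  have hf2 := (Metric.tendsto_nhds.1 hf) ε hε
  filter_upwards [hq0, hne, hf2] with z h1 h2 h3
  have hv0 : (z:ℂ) - a ≠ 0 := sub_ne_zero.2 h2
  have hV0 : (Φ z : ℂ) - a ≠ 0 := by rw [hV z h2]; exact mul_ne_zero hv0 h1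
  refine ⟨sub_ne_zero.1 hV0, ?_⟩
  rw [dist_eq_norm] at h3
  have g2 : a - (z : ℂ) ≠ 0 := by
    intro hh; apply hv0; rw [← neg_sub, hh, neg_zero]
  have e1 : Cay a (Φ z) - Cay a z
      = 2 * a * (((Φ z : ℂ) - a) - ((z:ℂ) - a)) / (((z:ℂ) - a) * ((Φ z : ℂ) - a)) := by
    unfold Cay
    have g1 : a - (Φ z : ℂ) ≠ 0 := by
      intro hh; apply hV0; rw [← neg_sub, hh, neg_zero]
    rw [div_sub_div _ _ g1 g2, div_eq_div_iff (mul_ne_zero g1 g2) (mul_ne_zero hv0 hV0)]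
    ring
  have e2 : Cay a z = -(2 * a + ((z:ℂ) - a)) / ((z:ℂ) - a) := by
    unfold Cay
    rw [div_eq_div_iff g2 hv0]
    ring
  have e : (Cay a (Φ z) - Cay a z) * Cay a z
      = -(2 * a) * (β + r z) * (2 * a + ((z:ℂ) - a)) /
      (1 + 0 * ((z:ℂ) - a) + β * ((z:ℂ) - a) ^ 2 + r z * ((z:ℂ) - a) ^ 2) := by
    rw [e1, e2, hV z h2, div_mul_div_comm,
      div_eq_div_iff (mul_ne_zero (mul_ne_zero hv0 (mul_ne_zero hv0 h1)) hv0) h1]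
    ring
  rw [e]
  exact h3

end Pool.Agent.Helper203.DS
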