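import Pool.Agent.Helper203.DS.Para

/-!
# MP_ff3f8e_an, Q1: spectra of endomorphisms of the disc algebra

`DA` is the disc algebra (closed subalgebra of `C(closedBall 0 1, ℂ)` of the functions holomorphic in
the open disc), `Z` its coordinate function.  For every endomorphism `T` of the disc algebra the
spectrum is a multiplicative semigroup, except possibly when the iterates of `φ = T Z` shrink
uniformly to a boundary point `a` at which `φ` is not hyperbolic and has neither a third order Taylor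
expansion nor a second order one with nonzero second coefficient; in that case the spectrum meets every circle `|z| = ρ`, `0 ≤ ρ ≤ 1`.
-/

open Metric Set Filter Topology Pool.Agent.Helper203.DS

namespace Pool.Agent.Helper203.DS.TM

theorem idem_unit {A : Type*} [Ring A] [Algebra ℂ A] (T : A) (h : T * T = T) (l : ℂ)
    (h0 : l ≠ 0) (h1 : l ≠ 1) : IsUnit (algebraMap ℂ A l - T) := by
  have hne : l * (l - 1) ≠ 0 := mul_ne_zero h0 (sub_ne_zero.2 h1)
  obtain ⟨L, hL⟩ : ∃ L : A, L = algebraMap ℂ A l := ⟨_, rfl⟩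
  rw [← hL]
  have hc : L * T = T * L := by rw [hL]; exact Algebra.commutes l T
  have hLL : algebraMap ℂ A (l * (l - 1)) = L * L - L := by
    rw [map_mul, map_sub, map_one, ← hL, mul_sub, mul_one]
  have e1 : (L - T) * (L - 1 + T) = algebraMap ℂ A (l * (l - 1)) := by
    rw [hLL, mul_add, sub_mul, sub_mul, mul_sub, mul_sub, mul_one, mul_one, h, hc]
    abel
  have e2 : (L - 1 + T) * (L - T) = algebraMap ℂ A (l * (l - 1)) := by
    rw [hLL, add_mul, mul_sub, mul_sub, sub_mul, sub_mul, one_mul, one_mul, h, hc]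
    abel
  have hu : IsUnit (algebraMap ℂ A (l * (l - 1))) := (IsUnit.mk0 _ hne).map _
  have hr : IsUnit ((L - T) * (L - 1 + T)) := by rw [e1]; exact hu
  have hcomm : Commute (L - T) (L - 1 + T) := by
    show (L - T) * (L - 1 + T) = (L - 1 + T) * (L - T)
    rw [e1, e2]
  exact (hcomm.isUnit_mul_iff.1 hr).1

theorem idem_case (T : DA →L[ℂ] DA) (h : T * T = T) :
    ∀ l ∈ spectrum ℂ T, ∀ m ∈ spectrum ℂ T, l * m ∈ spectrum ℂ T := by
  have key : ∀ l ∈ spectrum ℂ T, l = 0 ∨ l = 1 := by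
    intro l hl
    by_contra hcon
    push Not at hcon
    exact hl (idem_unit T h l hcon.1 hcon.2)
  intro l hl m hm
  rcases key l hl with h0 | h1
  · have : l * m = l := by rw [h0]; ring
    rw [this]; exact hl
  · have : l * m = m := by rw [h1]; ring
    rw [this]; exact hm

/-- Bounded linear operators on the disc algebra. -/
abbrev Op : Type := DA →L[ℂ] DA

/-- `T` is an endomorphism of the algebra `DA`. -/
def Endo (T : Op) : Prop := ∀ f g : DA, T (f * g) = T f * T g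

/-- The spectrum of `T` as a bounded operator. -/
def Spec (T : Op) : Set ℂ := spectrum ℂ T

/-- `T ^ n Z` converges in norm to the constant `a`. -/
def ConvTo (T : Op) (a : ℂ) : Prop :=
  Tendsto (fun n : ℕ => (T ^ n) Z) atTop (𝓝 (algebraMap ℂ DA a))

/-- The real part of `(a + z) / (a - z)` (for `|a| = 1`); its level sets are the horocycles at `a`. -/
noncomputable def horo (a z : ℂ) : ℝ := (1 - ‖z‖ ^ 2) / ‖a - z‖ ^ 2

/-- `φ` moves every point of the open disc into a horodisc at `a` that is smaller by the fixed factor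
`β > 1`. -/
def HypAt (T : Op) (a : ℂ) : Prop :=
  ∃ β : ℝ, 1 < β ∧ ∀ z : Pt, ‖(z:ℂ)‖ < 1 → β * horo a z ≤ horo a ((T Z).1 z)

/-- `φ = T Z` has a third order Taylor expansion at `a` (relative to the closed disc). -/
def Taylor3 (T : Op) (a : ℂ) : Prop :=
  ∃ α β γ : ℂ, ∀ ε : ℝ, 0 < ε → ∃ δ : ℝ, 0 < δ ∧ ∀ z : Pt, ‖(z:ℂ) - a‖ < δ →
    ‖(T Z).1 z - (a + α * ((z:ℂ) - a) + β * ((z:ℂ) - a) ^ 2 + γ * ((z:ℂ) - a) ^ 3)‖ ≤
      ε * ‖(z:ℂ) - a‖ ^ 3

/-- `φ = T Z` has a second order Taylor expansion at `a` with nonzero second coefficient. -/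
def Taylor2 (T : Op) (a : ℂ) : Prop :=
  ∃ α β : ℂ, β ≠ 0 ∧ ∀ ε : ℝ, 0 < ε → ∃ δ : ℝ, 0 < δ ∧ ∀ z : Pt, ‖(z:ℂ) - a‖ < δ →
    ‖(T Z).1 z - (a + α * ((z:ℂ) - a) + β * ((z:ℂ) - a) ^ 2)‖ ≤ ε * ‖(z:ℂ) - a‖ ^ 2

/-- For some `a` of modulus one: `T Z` is not the constant `a`, `T ^ n Z` converges in norm to `a`,
and for some `N` every value of `T ^ N Z` other than `a` has modulus less than one. -/
def Shrink (T : Op) (a : ℂ) : Prop :=
  ‖a‖ = 1 ∧ T Z ≠ algebraMap ℂ DA a ∧ ConvTo T a ∧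
    ∃ N : ℕ, ∀ z : Pt, ((T ^ N) Z).1 z = a ∨ ‖((T ^ N) Z).1 z‖ < 1

/-- The case that is left out: shrinking, not hyperbolic, no Taylor expansion as above. -/
def Exc (T : Op) : Prop := ∃ a : ℂ, Shrink T a ∧ ¬ HypAt T a ∧ ¬ Taylor2 T a ∧ ¬ Taylor3 T a

/-- The closure of the spiral `exp (- c b)`, `0 ≤ c`. -/
def Spiral (b : ℂ) : Set ℂ := {l : ℂ | l = 0 ∨ ∃ c : ℝ, 0 ≤ c ∧ l = Complex.exp (-(c * b))}

theorem kk_sub {T : Op} {Φ : Pt → Pt} (h : IsComp T Φ) (a : Pt) (hconv : ConvTo T a) :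
    KK Φ ⊆ {a} := by
  intro z hz
  rw [Set.mem_singleton_iff]
  apply Subtype.ext
  have hle : ∀ n : ℕ, dist (z:ℂ) a ≤ dist ((T ^ n) Z) (algebraMap ℂ DA a) := by
    intro n
    obtain ⟨y, hy⟩ := Set.mem_iInter.1 hz n
    have h1 := norm_apply_le ((T ^ n) Z - algebraMap ℂ DA a) y
    rw [sub_apply, algMap_apply, h.pow, Z_apply, hy] at h1
    rw [dist_eq_norm, dist_eq_norm]
    exact h1
  have hlim : Tendsto (fun n : ℕ => dist ((T ^ n) Z) (algebraMap ℂ DA a)) atTop (𝓝 0) :=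
    tendsto_iff_dist_tendsto_zero.1 hconv
  have h0 : dist (z:ℂ) a ≤ 0 := ge_of_tendsto' hlim hle
  exact dist_le_zero.1 h0

/-- boundary attracting maps -/
theorem bdry_disc {T : Op} {Φ : Pt → Pt} (h : IsComp T Φ) (a : ℂ) (ha : ‖a‖ = 1)
    (hconv : ConvTo T a) (hne : T Z ≠ algebraMap ℂ DA a) (hpar : ¬ Exc T) :
    spectrum ℂ T = closedBall (0:ℂ) 1 ∨ ∃ b : ℂ, 0 < b.re ∧ spectrum ℂ T = Spiral b := by
  have hmem : a ∈ closedBall (0:ℂ) 1 := by rw [mem_closedBall_zero_iff]; exact ha.le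
  have hval : ∀ (n : ℕ) (z : Pt), ((T ^ n) Z).1 z = ((Φ^[n] z : Pt) : ℂ) := fun n z => by
    rw [h.pow, Z_apply]
  have hval1 : ∀ z : Pt, (T Z).1 z = (Φ z : ℂ) := fun z => by rw [h.eq, Z_apply]
  have hK : KK Φ ⊆ {(⟨a, hmem⟩ : Pt)} := kk_sub h ⟨a, hmem⟩ hconv
  by_cases hN : ∃ N : ℕ, ∀ z : Pt, ((T ^ N) Z).1 z = a ∨ ‖((T ^ N) Z).1 z‖ < 1
  · obtain ⟨N, hN'⟩ := hN
    have hnc : ∀ c : ℂ, T Z ≠ algebraMap ℂ DA c := by
      intro c hc
      apply hne
      have hP : ∀ z : Pt, (Φ z : ℂ) = c := by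
        intro z
        have := hval 1 z
        rw [pow_one, hc] at this
        simpa using this.symm
      have hpw : ∀ n : ℕ, (T ^ (n + 1)) Z = algebraMap ℂ DA c := by
        intro n
        refine da_ext fun z => ?_
        rw [hval, Function.iterate_succ_apply', hP, algMap_apply]
      have hl1 : Tendsto (fun n : ℕ => (T ^ (n + 1)) Z) atTop (𝓝 (algebraMap ℂ DA a)) :=
        hconv.comp (tendsto_add_atTop_nat 1)
      have hl2 : Tendsto (fun n : ℕ => (T ^ (n + 1)) Z) atTop (𝓝 (algebraMap ℂ DA c)) := by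
        simp only [hpw]; exact tendsto_const_nhds
      rw [hc]
      exact tendsto_nhds_unique hl2 hl1
    have hNΦ : ∀ z : Pt, Φ^[N] z = (⟨a, hmem⟩ : Pt) ∨ ‖(Φ^[N] z : ℂ)‖ < 1 := by
      intro z
      rcases hN' z with h1 | h1
      · left; apply Subtype.ext; rw [← hval]; exact h1
      · right; rw [← hval]; exact h1
    have hyp_case : HypAt T a → spectrum ℂ T = closedBall (0:ℂ) 1 := by
      rintro ⟨β, hβ, hyp⟩
      refine hyper_disc h ⟨a, hmem⟩ ha hK hnc N hNΦ β hβ (fun z hz => ?_)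
      have := hyp z hz
      rw [hval1] at this
      exact this
    by_cases hh : HypAt T a
    · exact Or.inl (hyp_case hh)
    · by_cases ht2 : Taylor2 T a
      · obtain ⟨α, β, hβ0, hT2⟩ := ht2
        have hfirst : ∀ ε : ℝ, 0 < ε → ∃ δ : ℝ, 0 < δ ∧ ∀ z : Pt, ‖(z:ℂ) - a‖ < δ →
            ‖(Φ z : ℂ) - a - α * ((z:ℂ) - a)‖ ≤ ε * ‖(z:ℂ) - a‖ := by
          intro ε hε
          obtain ⟨δ, hδ, hδ'⟩ := hT2 1 one_pos
          have hK0 : 0 < 1 + ‖β‖ := by positivity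
          refine ⟨min δ (ε / (1 + ‖β‖)), lt_min hδ (div_pos hε hK0), fun z hz => ?_⟩
          have hz1 : ‖(z:ℂ) - a‖ < δ := lt_of_lt_of_le hz (min_le_left _ _)
          have hz3 : ‖(z:ℂ) - a‖ < ε / (1 + ‖β‖) := lt_of_lt_of_le hz (min_le_right _ _)
          have h3 := hδ' z hz1
          rw [hval1, one_mul] at h3
          set v : ℂ := (z:ℂ) - a with hv
          have e : (Φ z : ℂ) - a - α * v =
              ((Φ z : ℂ) - (a + α * v + β * v ^ 2)) + β * v ^ 2 := by ring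
          have h4 : ‖(Φ z : ℂ) - a - α * v‖ ≤ (1 + ‖β‖) * ‖v‖ ^ 2 := by
            rw [e]
            refine (norm_add_le _ _).trans ?_
            rw [norm_mul, norm_pow]
            linarith
          refine h4.trans ?_
          have h6 : (1 + ‖β‖) * ‖v‖ ≤ ε := by
            have := (lt_div_iff₀ hK0).1 hz3
            linarith
          calc (1 + ‖β‖) * ‖v‖ ^ 2 = ((1 + ‖β‖) * ‖v‖) * ‖v‖ := by ring
            _ ≤ ε * ‖v‖ := mul_le_mul_of_nonneg_right h6 (norm_nonneg v)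
        rcases julia1 h ⟨a, hmem⟩ ha hK (inner_of_nonconst h hnc) α hfirst with h1 | ⟨B, hB, hB'⟩
        · subst h1
          have htay : LimB a (2 * a * β) Φ := by
            apply tay2_limB a ha
            intro ε hε
            obtain ⟨δ, hδ, hδ'⟩ := hT2 ε hε
            refine ⟨δ, hδ, fun z hz => ?_⟩
            have h3 := hδ' z hz
            rw [hval1] at h3
            have e : (a + 1 * ((z:ℂ) - a) + β * ((z:ℂ) - a) ^ 2) =
              (z + β * ((z:ℂ) - a) ^ 2) := by ring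
            rw [e] at h3
            exact h3
          have ha0 : a ≠ 0 := fun h0 => by rw [h0, norm_zero] at ha; exact zero_ne_one ha
          rcases limB_spec h ⟨a, hmem⟩ ha hK hnc N hNΦ _
            (mul_ne_zero (mul_ne_zero two_ne_zero ha0) hβ0) htay with ⟨hb, hs⟩ | hs
          · exact Or.inr ⟨_, hb, hs⟩
          · exact Or.inl hs
        · refine absurd ⟨B, hB, fun z hz => ?_⟩ hh
          have := hB' z hz
          rw [hval1]
          exact this
      have ht : Taylor3 T a := by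
        by_contra hcon
        exact hpar ⟨a, ⟨ha, hne, hconv, N, hN'⟩, hh, ht2, hcon⟩
      obtain ⟨α, β, γ, hT3⟩ := ht
      have hfirst : ∀ ε : ℝ, 0 < ε → ∃ δ : ℝ, 0 < δ ∧ ∀ z : Pt, ‖(z:ℂ) - a‖ < δ →
          ‖(Φ z : ℂ) - a - α * ((z:ℂ) - a)‖ ≤ ε * ‖(z:ℂ) - a‖ := by
        intro ε hε
        obtain ⟨δ, hδ, hδ'⟩ := hT3 1 one_pos
        have hK0 : 0 < 1 + ‖β‖ + ‖γ‖ := by positivity
        refine ⟨min δ (min 1 (ε / (1 + ‖β‖ + ‖γ‖))), lt_min hδ (lt_min one_pos (div_pos hε hK0)),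
          fun z hz => ?_⟩
        have hz1 : ‖(z:ℂ) - a‖ < δ := lt_of_lt_of_le hz (min_le_left _ _)
        have hz2 : ‖(z:ℂ) - a‖ < 1 :=
          lt_of_lt_of_le hz ((min_le_right _ _).trans (min_le_left _ _))
        have hz3 : ‖(z:ℂ) - a‖ < ε / (1 + ‖β‖ + ‖γ‖) :=
          lt_of_lt_of_le hz ((min_le_right _ _).trans (min_le_right _ _))
        have h3 := hδ' z hz1
        rw [hval1, one_mul] at h3
        set v : ℂ := (z:ℂ) - a with hv
        have e : (Φ z : ℂ) - a - α * v =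
            ((Φ z : ℂ) - (a + α * v + β * v ^ 2 + γ * v ^ 3)) + (β * v ^ 2 + γ * v ^ 3) := by ring
        have hv0 : 0 ≤ ‖v‖ := norm_nonneg v
        have h2 : ‖v‖ ^ 3 ≤ ‖v‖ ^ 2 := pow_le_pow_of_le_one hv0 hz2.le (by norm_num)
        have h4 : ‖(Φ z : ℂ) - a - α * v‖ ≤ (1 + ‖β‖ + ‖γ‖) * ‖v‖ ^ 2 := by
          rw [e]
          refine (norm_add_le _ _).trans ?_
          have h5 : ‖β * v ^ 2 + γ * v ^ 3‖ ≤ ‖β‖ * ‖v‖ ^ 2 + ‖γ‖ * ‖v‖ ^ 2 := by
            refine (norm_add_le _ _).trans ?_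
            rw [norm_mul, norm_mul, norm_pow, norm_pow]
            gcongr
          nlinarith [norm_nonneg β, norm_nonneg γ]
        refine h4.trans ?_
        have h6 : (1 + ‖β‖ + ‖γ‖) * ‖v‖ ≤ ε := by
          have := (lt_div_iff₀ hK0).1 hz3
          linarith
        calc (1 + ‖β‖ + ‖γ‖) * ‖v‖ ^ 2 = ((1 + ‖β‖ + ‖γ‖) * ‖v‖) * ‖v‖ := by ring
          _ ≤ ε * ‖v‖ := mul_le_mul_of_nonneg_right h6 hv0
      rcases julia1 h ⟨a, hmem⟩ ha hK (inner_of_nonconst h hnc) α hfirst with h1 | ⟨B, hB, hB'⟩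
      · subst h1
        have htay : Tay a β γ Φ := by
          intro ε hε
          obtain ⟨δ, hδ, hδ'⟩ := hT3 ε hε
          refine ⟨δ, hδ, fun z hz => ?_⟩
          have h3 := hδ' z hz
          rw [hval1] at h3
          have e : (a + 1 * ((z:ℂ) - a) + β * ((z:ℂ) - a) ^ 2 + γ * ((z:ℂ) - a) ^ 3) =
            (z + β * ((z:ℂ) - a) ^ 2 + γ * ((z:ℂ) - a) ^ 3) := by ring
          rw [e] at h3
          exact h3
        rcases taylor_spec h ⟨a, hmem⟩ ha hK hnc N hNΦ β γ htay with ⟨b, hb, hs⟩ | hs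
        · exact Or.inr ⟨b, hb, hs⟩
        · exact Or.inl hs
      · refine absurd ⟨B, hB, fun z hz => ?_⟩ hh
        have := hB' z hz
        rw [hval1]
        exact this
  · push Not at hN
    left
    apply boundary_disc h ⟨a, hmem⟩ hK
    intro N
    obtain ⟨z, hz1, hz2⟩ := hN N
    rw [hval] at hz1 hz2
    refine ⟨Φ^[N] z, ⟨z, rfl⟩, fun hh => hz1 (by rw [hh]), ?_⟩
    exact le_antisymm (mem_closedBall_zero_iff.1 (Φ^[N] z).2) hz2

theorem para_circles (T : Op) (hT : Endo T) (hp : ∃ a : ℂ, Shrink T a) (ρ : ℝ) (h0 : 0 ≤ ρ) (h1 : ρ ≤ 1) :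
    ∃ l ∈ spectrum ℂ T, ‖l‖ = ρ := by
  obtain ⟨a, ha, hne, hconv, N, hN⟩ := hp
  rcases T_one_cases T hT with hz | h1'
  · exfalso
    have hl1 : Tendsto (fun n : ℕ => (T ^ (n + 1)) Z) atTop (𝓝 (algebraMap ℂ DA a)) :=
      hconv.comp (tendsto_add_atTop_nat 1)
    have hl2 : Tendsto (fun n : ℕ => (T ^ (n + 1)) Z) atTop (𝓝 0) := by
      have : ∀ n : ℕ, (T ^ (n + 1)) Z = 0 := fun n => by rw [hz, zero_pow (Nat.succ_ne_zero n)]; rfl
      simp only [this]; exact tendsto_const_nhds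
    have e := tendsto_nhds_unique hl1 hl2
    have e2 := congrArg (fun f : DA => f.1 ⟨0, by simp⟩) e
    simp only [algMap_apply, zero_apply] at e2
    rw [e2] at ha
    simp at ha
  obtain ⟨Φ, h⟩ := exists_phi T hT h1'
  have hmem : a ∈ closedBall (0:ℂ) 1 := by rw [mem_closedBall_zero_iff]; exact ha.le
  have hval : ∀ (n : ℕ) (z : Pt), ((T ^ n) Z).1 z = ((Φ^[n] z : Pt) : ℂ) := fun n z => by
    rw [h.pow, Z_apply]
  have hK : KK Φ ⊆ {(⟨a, hmem⟩ : Pt)} := kk_sub h ⟨a, hmem⟩ hconv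
  have hnc : ∀ c : ℂ, T Z ≠ algebraMap ℂ DA c := by
    intro c hc
    apply hne
    have hP : ∀ z : Pt, (Φ z : ℂ) = c := by
      intro z
      have := hval 1 z
      rw [pow_one, hc] at this
      simpa using this.symm
    have hpw : ∀ n : ℕ, (T ^ (n + 1)) Z = algebraMap ℂ DA c := by
      intro n
      refine da_ext fun z => ?_
      rw [hval, Function.iterate_succ_apply', hP, algMap_apply]
    have hl1 : Tendsto (fun n : ℕ => (T ^ (n + 1)) Z) atTop (𝓝 (algebraMap ℂ DA a)) :=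
      hconv.comp (tendsto_add_atTop_nat 1)
    have hl2 : Tendsto (fun n : ℕ => (T ^ (n + 1)) Z) atTop (𝓝 (algebraMap ℂ DA c)) := by
      simp only [hpw]; exact tendsto_const_nhds
    rw [hc]
    exact tendsto_nhds_unique hl2 hl1
  rcases h0.eq_or_lt with h00 | h00
  · refine ⟨0, ?_, by rw [norm_zero]; exact h00⟩
    rw [spectrum.zero_mem_iff]
    intro hu
    have hiso := isometry_of_unit h hu
    have hn : ∀ n : ℕ, ‖(T ^ n) (Z - algebraMap ℂ DA a)‖ = ‖Z - algebraMap ℂ DA a‖ := by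
      intro n
      induction n with
      | zero => rfl
      | succ n ih =>
        rw [pow_succ', ← ih]
        exact hiso _
    have hTa : ∀ n : ℕ, (T ^ n) (Z - algebraMap ℂ DA a) = (T ^ n) Z - algebraMap ℂ DA a := by
      intro n
      refine da_ext fun z => ?_
      rw [h.pow, sub_apply, sub_apply, hval, Z_apply, algMap_apply, algMap_apply]
    have hlim : Tendsto (fun n : ℕ => ‖(T ^ n) (Z - algebraMap ℂ DA a)‖) atTop (𝓝 0) := by
      simp only [hTa]
      exact tendsto_iff_norm_sub_tendsto_zero.1 hconv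
    simp only [hn] at hlim
    have e := tendsto_nhds_unique hlim tendsto_const_nhds
    have e2 := norm_apply_le (Z - algebraMap ℂ DA a) ⟨0, by simp⟩
    rw [← e, sub_apply, Z_apply, algMap_apply] at e2
    simp only [zero_sub, norm_neg] at e2
    rw [ha] at e2
    linarith
  rcases h1.eq_or_lt with h11 | h11
  · refine ⟨1, ?_, by rw [norm_one]; exact h11.symm⟩
    rw [spectrum.mem_iff, map_one]
    intro hu
    obtain ⟨u, hu⟩ := hu
    have e1 : (1 - T) (1 : DA) = 0 := by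
      show (1 : DA) - T 1 = 0
      rw [h1', sub_self]
    have e2 : (((u⁻¹ : (Op)ˣ) : Op) * (1 - T)) (1 : DA) = (1 : DA) := by
      rw [← hu, Units.inv_mul]; rfl
    have e3 : (((u⁻¹ : (Op)ˣ) : Op) * (1 - T)) (1 : DA) = 0 := by
      show ((u⁻¹ : (Op)ˣ) : Op) ((1 - T) 1) = 0
      rw [e1, map_zero]
    rw [e2] at e3
    exact one_ne_zero e3
  · exact no_circle_free h ⟨a, hmem⟩ ha hK hnc N (fun z => by
      rcases hN z with h2 | h2
      · left; apply Subtype.ext; rw [← hval]; exact h2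
      · right; rw [← hval]; exact h2) ρ h00 h11

theorem disc_semi {T : Op} (hd : spectrum ℂ T = closedBall (0:ℂ) 1) :
    ∀ l ∈ spectrum ℂ T, ∀ m ∈ spectrum ℂ T, l * m ∈ spectrum ℂ T := by
  rw [hd]
  intro l hl m hm
  rw [mem_closedBall_zero_iff] at hl hm ⊢
  rw [norm_mul]
  exact mul_le_one₀ hl (norm_nonneg _) hm

theorem spiral_semi {T : Op} {b : ℂ} (hd : spectrum ℂ T = Spiral b) :
    ∀ l ∈ spectrum ℂ T, ∀ m ∈ spectrum ℂ T, l * m ∈ spectrum ℂ T := by
  rw [hd]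
  rintro l (rfl | ⟨c, hc, rfl⟩) m hm
  · left; rw [zero_mul]
  · rcases hm with rfl | ⟨d, hd', rfl⟩
    · left; rw [mul_zero]
    · right
      refine ⟨c + d, add_nonneg hc hd', ?_⟩
      rw [← Complex.exp_add]
      congr 1
      push_cast
      ring

/-- Main result. -/
theorem main (T : Op) (hT : Endo T) :
    (¬ Exc T → ∀ l ∈ Spec T, ∀ m ∈ Spec T, l * m ∈ Spec T) ∧
    (T ≠ 0 → ¬ IsUnit T → (∀ a : ℂ, T Z ≠ algebraMap ℂ DA a) →
      (∀ a : ℂ, ‖a‖ < 1 → ¬ ConvTo T a) → ¬ Exc T →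
      Spec T = closedBall (0:ℂ) 1 ∨ ∃ b : ℂ, 0 < b.re ∧ Spec T = Spiral b) ∧
    ((∃ a : ℂ, Shrink T a) → ∀ ρ : ℝ, 0 ≤ ρ → ρ ≤ 1 → ∃ l ∈ Spec T, ‖l‖ = ρ) := by
  have hle1 : ∀ {Φ : Pt → Pt}, IsComp T Φ → ∀ a : ℂ, ConvTo T a → ‖a‖ ≤ 1 := by
    intro Φ h a hc
    have h1 : Tendsto (fun n : ℕ => ‖(T ^ n) Z‖) atTop (𝓝 ‖algebraMap ℂ DA a‖) := hc.norm
    have h2 : ∀ n : ℕ, ‖(T ^ n) Z‖ ≤ 1 := fun n => norm_le_of zero_le_one fun z => by
      rw [h.pow, Z_apply]
      exact mem_closedBall_zero_iff.1 (Φ^[n] z).2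
    have h3 := le_of_tendsto' h1 h2
    rwa [norm_algebraMap'] at h3
  refine ⟨?_, ?_, fun hp ρ h0 h1 => para_circles T hT hp ρ h0 h1⟩
  · intro hne
    by_cases hconst : ∃ a : ℂ, ‖a‖ = 1 ∧ T Z = algebraMap ℂ DA a
    · obtain ⟨a, ha, hTZ⟩ := hconst
      apply idem_case
      rcases T_one_cases T hT with h0 | h1
      · rw [h0]; rfl
      · obtain ⟨Φ, hΦ⟩ := exists_phi T hT h1
        have hP : ∀ z : Pt, (Φ z : ℂ) = a := by
          intro z
          have := hΦ.eq Z z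
          rw [hTZ] at this
          simpa using this.symm
        refine ContinuousLinearMap.ext fun f => da_ext fun z => ?_
        show (T (T f)).1 z = (T f).1 z
        rw [hΦ.eq, hΦ.eq, hΦ.eq]
        congr 1
        apply Subtype.ext
        rw [hP, hP]
    · by_cases hb : ∃ a : ℂ, ‖a‖ = 1 ∧ ConvTo T a
      · obtain ⟨a, ha, hconv⟩ := hb
        rcases T_one_cases T hT with h0 | h1
        · apply idem_case
          rw [h0]; rfl
        · obtain ⟨Φ, hΦ⟩ := exists_phi T hT h1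
          rcases bdry_disc hΦ a ha hconv (fun h => hconst ⟨a, ha, h⟩) hne with hd | ⟨b, -, hd⟩
          · exact disc_semi hd
          · exact spiral_semi hd
      · exact main_semigroup T hT hb
  · intro hT0 hu hnc hin hsh
    rcases T_one_cases T hT with h0 | h1
    · exact absurd h0 hT0
    · obtain ⟨Φ, hΦ⟩ := exists_phi T hT h1
      obtain ⟨x, hx⟩ := KK_nonempty hΦ.cont
      by_cases hs : KK Φ ⊆ {x}
      · have hconv : ConvTo T (x:ℂ) := conv_of_singleton hΦ x hs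
        have hx1 : ‖(x:ℂ)‖ = 1 :=
          le_antisymm (hle1 hΦ _ hconv) (not_lt.1 fun h => hin _ h hconv)
        exact bdry_disc hΦ x hx1 hconv (hnc _) hsh
      · obtain ⟨y, hy, hyx⟩ := Set.not_subset.1 hs
        exact Or.inl (main_disc hΦ hu x y hx hy (fun h => hyx (by rw [h]; rfl)))

end Pool.Agent.Helper203.DS.TM
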